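import Pool.Agent.H59.L.S8.W418.LU2.Plain

/-!
# Local rings at centres of valuations
-/

set_option autoImplicit false
set_option linter.unusedVariables false
set_option linter.unusedSectionVars false

universe u v

namespace Pool.Agent.W418.LU2

open IsLocalRing

/-- The localization at the centre of a valuation. -/
theorem regular_localization {B K : Type u} [CommRing B] [Field K] (φ : B →+* K)
    (hφ : Function.Injective φ) (V : ValuationSubring K) (P' : Ideal B) [P'.IsPrime]
    (hP' : ∀ b, b ∈ P' ↔ V.valuation (φ b) < 1) (hBV : ∀ b, φ b ∈ V)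
    (hreg : IsRegularLocalRing (lo V.toSubring φ.range)) :
    IsRegularLocalRing (Localization.AtPrime P') := by
  have hBP : ∀ b, φ b ∈ lo V.toSubring φ.range := fun b => le_lo _ _ ⟨b, rfl⟩
  have hrV : φ.range ≤ V.toSubring := by
    rintro _ ⟨b, rfl⟩
    exact hBV b
  let ψ : B →+* lo V.toSubring φ.range := φ.codRestrict _ hBP
  let _ : Algebra B (lo V.toSubring φ.range) := ψ.toAlgebra
  have halg : ∀ b, ((algebraMap B (lo V.toSubring φ.range) b : lo V.toSubring φ.range) : K) =
      φ b := fun b => rfl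
  have hunit : ∀ b, b ∉ P' ↔ IsUnit (algebraMap B (lo V.toSubring φ.range) b) := by
    intro b
    rw [hP', isUnit_lo_iff hrV, halg, not_lt]
    constructor
    · intro h1
      have h2 : V.valuation (φ b) = 1 := le_antisymm ((V.valuation_le_one_iff _).2 (hBV b)) h1
      have h3 : φ b ≠ 0 := by
        intro h
        rw [h, map_zero] at h2
        exact zero_ne_one h2
      refine ⟨h3, ?_⟩
      change (φ b)⁻¹ ∈ V
      rw [← V.valuation_le_one_iff, map_inv₀, h2, inv_one]
    · rintro ⟨h1, h2⟩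
      have h3 : (φ b)⁻¹ ∈ V := h2
      rw [← V.valuation_le_one_iff, map_inv₀] at h3
      exact (inv_le_one₀ (zero_lt_iff.2 ((map_ne_zero _).2 h1))).1 h3
  have hL : IsLocalization.AtPrime (lo V.toSubring φ.range) P' :=
    { map_units := fun y => (hunit y.1).1 y.2
      surj := by
        rintro ⟨z, a, ha, b, hb, hb0, hbW, rfl⟩
        obtain ⟨a', rfl⟩ := ha
        obtain ⟨b', rfl⟩ := hb
        refine ⟨(a', ⟨b', ?_⟩), ?_⟩
        · change b' ∉ P'
          rw [hunit, isUnit_lo_iff hrV]
          exact ⟨hb0, hbW⟩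
        · apply Subtype.ext
          change φ a' * (φ b')⁻¹ * φ b' = φ a'
          rw [mul_assoc, inv_mul_cancel₀ hb0, mul_one]
      exists_of_eq := by
        intro a b h
        refine ⟨1, ?_⟩
        have h1 : a = b := hφ (congrArg (Subtype.val : lo V.toSubring φ.range → K) h)
        rw [h1] }
  exact IsRegularLocalRing.of_ringEquiv
    (IsLocalization.algEquiv P'.primeCompl (lo V.toSubring φ.range)
      (Localization.AtPrime P')).toRingEquiv

/-- Every valuation ring of `E` which contains `R` is log uniformizable on the spectrum of a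
finitely generated `R`-algebra; Dedekind rings are allowed. -/
def HasLU {E : Type u} [Field E] (R : Subring E) : Prop :=
  ∀ U : ValuationSubring E, R ≤ U.toSubring → ∃ S : Set E, S.Finite ∧
    Subring.closure ((R : Set E) ∪ S) ≤ U.toSubring ∧
    (∀ z : E, ∃ a ∈ Subring.closure ((R : Set E) ∪ S), ∃ b ∈ Subring.closure ((R : Set E) ∪ S),
      b ≠ 0 ∧ z = a * b⁻¹) ∧
    (IsDedekindDomain (Subring.closure ((R : Set E) ∪ S)) ∨
      IsNoetherianRing (Subring.closure ((R : Set E) ∪ S)) ∧
        LogUnif U (Subring.closure ((R : Set E) ∪ S)))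

section off

variable {E K : Type u} [Field E] [Field K] [Algebra E K]

/-- Local uniformization, with general base. -/
theorem plain2 (V : ValuationSubring K) {p : ℕ} [hp : Fact p.Prime]
    (hpV : V.valuation (p : K) < 1) (R : Subring E) (hRV : ∀ a ∈ R, algebraMap E K a ∈ V)
    (hR : HasLU R) {n : ℕ}
    (W : Fin n → Submodule E K) [∀ s, FiniteDimensional E (W s)]
    (hgen : IntermediateField.adjoin E (⋃ s, (W s : Set K)) = ⊤)
    {r : ℕ} (ι : Fin r → Type) [∀ j, Fintype (ι j)] (i₀ : ∀ j, ι j)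
    (c : ∀ j, ι j → E) (hc : ∀ j i, c j i ≠ 0) (d : ∀ j, ι j → Fin n → ℕ)
    (g : ∀ j i s, Fin (d j i s) → K) (hgW : ∀ j i s t, g j i s t ∈ W s)
    (hg0 : ∀ j i s t, g j i s t ≠ 0) (e : ∀ j, ι j → Fin r → ℕ) (f : Fin r → K)
    (he : ∀ j i l, e j i l ≠ 0 → l < j ∧ f l ≠ 0)
    (hf : ∀ j, f j = ∑ i, algebraMap E K (c j i) * ((∏ s, ∏ t, g j i s t) * ∏ l, f l ^ e j i l))
    (deg : Fin r → Fin n → ZMod p) (hdeg : ∀ j, deg j = dg2 deg (d j (i₀ j)) (e j (i₀ j)))
    (hind : LinearIndependent (ZMod p) fun q : (j : Fin r) × {i : ι j // i ≠ i₀ j} =>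
      dg2 deg (d q.1 q.2) (e q.1 q.2) - deg q.1)
    (htr : Algebra.trdeg E K + (Nat.card {j // f j = 0} : Cardinal.{u}) =
      ((∑ s, Module.finrank E (W s) : ℕ) : Cardinal.{u}))
    (Z : Set K) (hZf : Z.Finite) (hZm : ∀ z ∈ Z, IsMonomial W f z) :
    ∃ T : Set K, T.Finite ∧ Subring.closure ((R.map (algebraMap E K) : Set K) ∪ T) ≤ V.toSubring ∧
      IsRegularLocalRing (lo V.toSubring
        (Subring.closure ((R.map (algebraMap E K) : Set K) ∪ T))) ∧
      (∀ z ∈ Z, z ∈ V → z ∈ lo V.toSubring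
        (Subring.closure ((R.map (algebraMap E K) : Set K) ∪ T))) ∧
      ∀ z : K, ∃ a ∈ Subring.closure ((R.map (algebraMap E K) : Set K) ∪ T),
        ∃ b ∈ Subring.closure ((R.map (algebraMap E K) : Set K) ∪ T), b ≠ 0 ∧ z = a * b⁻¹ := by
  obtain ⟨S, hSf, hSV, hfr, hS⟩ := hR (V.comap (algebraMap E K)) (fun a ha => hRV a ha)
  obtain ⟨hN, hLU⟩ : IsNoetherianRing (Subring.closure ((R : Set E) ∪ S)) ∧
      LogUnif (V.comap (algebraMap E K)) (Subring.closure ((R : Set E) ∪ S)) := by
    rcases hS with hS | hS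
    · exact ⟨inferInstance, logUnif_of_dedekind _ _ hSV hfr⟩
    · exact hS
  obtain ⟨T, hTf, hTV, hT⟩ := plain V hpV (Subring.closure ((R : Set E) ∪ S)) hfr
    (fun a ha => hSV ha) hLU W hgen ι i₀ c hc d g hgW hg0 e f he hf deg hdeg hind htr Z hZf hZm
  have hBeq : Subring.closure ((R.map (algebraMap E K) : Set K) ∪ (algebraMap E K '' S ∪ T)) =
      Subring.closure (((Subring.closure ((R : Set E) ∪ S)).map (algebraMap E K) : Set K) ∪ T) := by
    apply le_antisymm
    · rw [Subring.closure_le]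
      rintro z (⟨a, ha, rfl⟩ | ⟨w, hw, rfl⟩ | hz)
      · exact Subring.subset_closure (Or.inl ⟨a, Subring.subset_closure (Or.inl ha), rfl⟩)
      · exact Subring.subset_closure (Or.inl ⟨w, Subring.subset_closure (Or.inr hw), rfl⟩)
      · exact Subring.subset_closure (Or.inr hz)
    · rw [Subring.closure_le]
      rintro z (⟨c', hc', rfl⟩ | hz)
      · have h1 : Subring.closure ((R : Set E) ∪ S) ≤ (Subring.closure
            ((R.map (algebraMap E K) : Set K) ∪
            (algebraMap E K '' S ∪ T))).comap (algebraMap E K) := by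
          rw [Subring.closure_le]
          rintro c'' (h | h)
          · exact Subring.subset_closure (Or.inl ⟨c'', h, rfl⟩)
          · exact Subring.subset_closure (Or.inr (Or.inl ⟨c'', h, rfl⟩))
        exact h1 hc'
      · exact Subring.subset_closure (Or.inr (Or.inr hz))
  refine ⟨algebraMap E K '' S ∪ T, (hSf.image _).union hTf, ?_⟩
  rw [hBeq]
  exact ⟨hTV, hT⟩

/-- Local uniformization of local rings. -/
theorem off {p : ℕ} [hp : Fact p.Prime] (R₀ : Subring E) (hR : HasLU R₀) {n : ℕ}
    (W : Fin n → Submodule E K) [∀ s, FiniteDimensional E (W s)]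
    (hgen : IntermediateField.adjoin E (⋃ s, (W s : Set K)) = ⊤)
    {r : ℕ} (ι : Fin r → Type) [∀ j, Fintype (ι j)] (i₀ : ∀ j, ι j)
    (c : ∀ j, ι j → E) (hc : ∀ j i, c j i ≠ 0) (d : ∀ j, ι j → Fin n → ℕ)
    (g : ∀ j i s, Fin (d j i s) → K) (hgW : ∀ j i s t, g j i s t ∈ W s)
    (hg0 : ∀ j i s t, g j i s t ≠ 0) (e : ∀ j, ι j → Fin r → ℕ) (f : Fin r → K)
    (he : ∀ j i l, e j i l ≠ 0 → l < j ∧ f l ≠ 0)
    (hf : ∀ j, f j = ∑ i, algebraMap E K (c j i) * ((∏ s, ∏ t, g j i s t) * ∏ l, f l ^ e j i l))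
    (deg : Fin r → Fin n → ZMod p) (hdeg : ∀ j, deg j = dg2 deg (d j (i₀ j)) (e j (i₀ j)))
    (hind : LinearIndependent (ZMod p) fun q : (j : Fin r) × {i : ι j // i ≠ i₀ j} =>
      dg2 deg (d q.1 q.2) (e q.1 q.2) - deg q.1)
    (htr : Algebra.trdeg E K + (Nat.card {j // f j = 0} : Cardinal.{u}) =
      ((∑ s, Module.finrank E (W s) : ℕ) : Cardinal.{u}))
    (A : Subring K) (G : Set K) (hG : G.Finite) (hGm : ∀ z ∈ G, IsMonomial W f z)
    (hA : A = Subring.closure ((R₀.map (algebraMap E K) : Set K) ∪ G))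
    (q : Ideal A) [q.IsPrime] (hpq : ((p : ℕ) : A) ∈ q)
    (R : Type u) [CommRing R] [Algebra A R] [IsLocalization.AtPrime R q] [Algebra R K]
    [IsScalarTower A R K] (V : ValuationSubring K) (hV1 : ∀ r : R, algebraMap R K r ∈ V)
    (hV2 : ∀ r : R, r ∈ nonunits R ↔ V.valuation (algebraMap R K r) < 1) :
    ∃ B : Subalgebra R K, B.FG ∧ (∀ b : B, (b : K) ∈ V) ∧
      ∃ P : Ideal B, ∃ (_ : P.IsPrime),
        (∀ b : B, b ∈ P ↔ V.valuation (b : K) < 1) ∧
        IsRegularLocalRing (Localization.AtPrime P) := by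
  classical
  have hAR : ∀ a : A, algebraMap R K (algebraMap A R a) = a := by
    intro a
    rw [← IsScalarTower.algebraMap_apply A R K]
    rfl
  have hAV : ∀ a : A, (a : K) ∈ V := fun a => by
    rw [← hAR a]; exact hV1 _
  have hpV : V.valuation (p : K) < 1 := by
    have h1 : algebraMap A R (p : A) ∈ nonunits R := by
      intro h
      exact (IsLocalization.AtPrime.isUnit_to_map_iff R q (p : A)).1 h hpq
    rw [hV2, hAR] at h1
    exact h1
  have hRA : ∀ a ∈ R₀, algebraMap E K a ∈ A := by
    intro a ha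
    rw [hA]
    exact Subring.subset_closure (Or.inl ⟨a, ha, rfl⟩)
  obtain ⟨T, hTf, hTV, hreg, hZ, hfr⟩ := plain2 V hpV R₀ (fun a ha => hAV ⟨_, hRA a ha⟩) hR W hgen
    ι i₀ c hc d g hgW hg0 e f he hf deg hdeg hind htr G hG hGm
  set B₀ := Subring.closure ((R₀.map (algebraMap E K) : Set K) ∪ T) with hB₀
  have hAP : A ≤ lo V.toSubring B₀ := by
    rw [hA, Subring.closure_le]
    rintro z (hz | hz)
    · exact le_lo _ _ (Subring.subset_closure (Or.inl hz))
    · refine hZ z hz (hAV ⟨z, ?_⟩)
      rw [hA]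
      exact Subring.subset_closure (Or.inr hz)
  have hRP : ∀ r : R, algebraMap R K r ∈ lo V.toSubring B₀ := by
    intro r
    obtain ⟨a, s, rfl⟩ := IsLocalization.exists_mk'_eq q.primeCompl r
    have hsu : IsUnit (algebraMap A R (s : A)) := IsLocalization.map_units R s
    have h1 : algebraMap R K (IsLocalization.mk' R a s) * (s : A) = a := by
      have h2 := congrArg (algebraMap R K) (IsLocalization.mk'_spec R a s)
      rwa [map_mul, hAR, hAR] at h2
    have h2 : ((s : A) : K) ≠ 0 := by
      intro h0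
      have h3 : (s : A) = 0 := Subtype.ext h0
      exact s.2 (by rw [h3]; exact q.zero_mem)
    have h3 : ((s : A) : K)⁻¹ ∈ V := by
      obtain ⟨s', hs'⟩ := isUnit_iff_exists_inv.1 hsu
      have h4 := congrArg (algebraMap R K) hs'
      rw [map_mul, hAR, map_one] at h4
      rw [← eq_inv_of_mul_eq_one_right h4]
      exact hV1 s'
    have h4 : algebraMap R K (IsLocalization.mk' R a s) = (a : K) * ((s : A) : K)⁻¹ := by
      rw [← h1, mul_inv_cancel_right₀ h2]
    rw [h4]
    exact Subring.mul_mem _ (hAP a.2) (inv_mem_lo hTV (hAP (s : A).2) h2 h3)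
  let B : Subalgebra R K := Algebra.adjoin R T
  have hBP : ∀ b ∈ B, b ∈ lo V.toSubring B₀ := by
    intro b hb
    induction hb using Algebra.adjoin_induction with
    | mem b hb => exact le_lo _ _ (Subring.subset_closure (Or.inr hb))
    | algebraMap r => exact hRP r
    | add a b _ _ ha hb => exact Subring.add_mem _ ha hb
    | mul a b _ _ ha hb => exact Subring.mul_mem _ ha hb
  have hBV : ∀ b : B, (b : K) ∈ V := fun b => lo_le hTV (hBP b b.2)
  let P : Ideal B :=
    { carrier := {b | V.valuation (b : K) < 1}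
      add_mem' := by
        intro a b ha hb
        exact lt_of_le_of_lt (V.valuation.map_add _ _) (max_lt ha hb)
      zero_mem' := by
        change V.valuation ((0 : B) : K) < 1
        rw [ZeroMemClass.coe_zero, map_zero]
        exact zero_lt_one
      smul_mem' := by
        intro a b hb
        change V.valuation ((a : K) * (b : K)) < 1
        rw [map_mul]
        have h1 := (V.valuation_le_one_iff _).2 (hBV a)
        calc V.valuation (a : K) * V.valuation (b : K) ≤ 1 * V.valuation (b : K) :=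
              mul_le_mul_left h1 _
          _ = V.valuation (b : K) := one_mul _
          _ < 1 := hb }
  have hPmem : ∀ b : B, b ∈ P ↔ V.valuation (b : K) < 1 := fun b => Iff.rfl
  have hP : P.IsPrime := by
    refine ⟨?_, ?_⟩
    · intro h
      have h1 : (1 : B) ∈ P := by rw [h]; trivial
      rw [hPmem, OneMemClass.coe_one, map_one] at h1
      exact lt_irrefl _ h1
    · intro a b hab
      rw [hPmem, hPmem]
      rw [hPmem] at hab
      by_contra h
      push Not at h
      have h1 : V.valuation (a : K) = 1 :=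
        le_antisymm ((V.valuation_le_one_iff _).2 (hBV a)) h.1
      have h2 : V.valuation (b : K) = 1 :=
        le_antisymm ((V.valuation_le_one_iff _).2 (hBV b)) h.2
      have h3 : V.valuation ((a * b : B) : K) = 1 := by
        change V.valuation ((a : K) * (b : K)) = 1
        rw [map_mul, h1, h2, one_mul]
      rw [h3] at hab
      exact lt_irrefl _ hab
  refine ⟨B, ⟨hTf.toFinset, by rw [hTf.coe_toFinset]⟩, hBV, P, hP, hPmem, ?_⟩
  refine regular_localization (B.val : B →ₐ[R] K).toRingHom Subtype.val_injective V P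
    (fun b => Iff.rfl) hBV ?_
  have hrange : (B.val : B →ₐ[R] K).toRingHom.range = B.toSubring := by
    ext z
    constructor
    · rintro ⟨b, rfl⟩
      exact b.2
    · intro hz
      exact ⟨⟨z, hz⟩, rfl⟩
  have heq : lo V.toSubring (B.val : B →ₐ[R] K).toRingHom.range = lo V.toSubring B₀ := by
    rw [hrange]
    refine lo_eq hTV ?_ (fun b hb => hBP b hb)
    rw [hB₀, Subring.closure_le]
    rintro z (⟨a, ha, rfl⟩ | hz)
    · have h1 : algebraMap E K a = algebraMap R K (algebraMap A R ⟨algebraMap E K a, hRA a ha⟩) :=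
        (hAR ⟨algebraMap E K a, hRA a ha⟩).symm
      rw [h1]
      exact B.algebraMap_mem _
    · exact Algebra.subset_adjoin hz
  rw [heq]
  exact hreg

end off

end Pool.Agent.W418.LU2
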