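import Pool.Agent.H59.L.S8.W418.LU2.Cut

/-!
# Local uniformization of complete intersections in tori
-/

set_option autoImplicit false
set_option linter.unusedVariables false
set_option linter.unusedSectionVars false

universe u v

namespace Pool.Agent.W418.LU2

open IsLocalRing

lemma loc_V {K : Type u} [Field K] (V : ValuationSubring K) : Loc V.toSubring := by
  intro w hw
  have hw : w ∈ V := hw
  have key : ∀ w : K, V.valuation w = 1 → w ≠ 0 ∧ w⁻¹ ∈ V.toSubring := by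
    intro w h
    refine ⟨fun h0 => ?_, ?_⟩
    · rw [h0, map_zero] at h
      exact zero_ne_one h
    · change w⁻¹ ∈ V
      rw [← V.valuation_le_one_iff, map_inv₀, h, inv_one]
  by_cases h : V.valuation w = 1
  · exact Or.inl (key w h)
  · have h3 : V.valuation w < 1 := lt_of_le_of_ne ((V.valuation_le_one_iff _).2 hw) h
    right
    apply key
    rw [sub_eq_add_neg]
    have : V.valuation (-w) < V.valuation 1 := by rwa [Valuation.map_neg, map_one]
    rw [Valuation.map_add_eq_of_lt_left _ this, map_one]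

section

variable {E K : Type u} [Field E] [Field K] [Algebra E K] {Θ : Type} [Fintype Θ] {y : Θ → K}
  {V : ValuationSubring K}

/-- The maximal ideal of a stage. -/
lemma mem_max_val {P : Subring (FF E Θ)} {ι : Type} [Fintype ι] {x : ι → FF E Θ}
    (h : RegP (AT E y V) P x) [IsLocalRing P] (z : P) {w : K} (hz : Pr (ph (E := E) y) (z : FF E Θ) w) :
    z ∈ maximalIdeal P ↔ V.valuation w < 1 := by
  rw [h.mem_max]
  have hwV : w ∈ V := hz.mem_AA.1 (h.PA z.2)
  have hle : V.valuation w ≤ 1 := (V.valuation_le_one_iff _).2 hwV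
  rw [← not_iff_not, not_not, not_lt]
  constructor
  · rintro ⟨h0, w', hw', h'⟩
    have h1 : w * w' = 1 := by
      have h2 := hz.mul h'
      rw [mul_inv_cancel₀ h0] at h2
      exact h2.unique Pr.one
    have h2 : V.valuation w * V.valuation w' = 1 := by rw [← map_mul, h1, map_one]
    have h3 : V.valuation w' ≤ 1 := (V.valuation_le_one_iff _).2 hw'
    calc (1 : V.ValueGroup) = V.valuation w * V.valuation w' := h2.symm
      _ ≤ V.valuation w * 1 := mul_le_mul_right h3 _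
      _ = V.valuation w := mul_one _
  · intro h1
    have h2 : V.valuation w = 1 := le_antisymm hle h1
    have h3 : w ≠ 0 := by
      rintro rfl
      rw [map_zero] at h2
      exact zero_ne_one h2
    refine ⟨hz.ne_zero h3, w⁻¹, ?_, hz.inv h3⟩
    rw [← V.valuation_le_one_iff, map_inv₀, h2, inv_one]

end

/-- A system of equations in a torus. -/
structure Sys (E : Type u) [Field E] (Θ : Type) [Fintype Θ] where
  κ : Type
  [fκ : Fintype κ]
  ι : κ → Type
  [fι : ∀ k, Fintype (ι k)]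
  c : ∀ k, ι k → E
  m : ∀ k, ι k → Θ → ℤ
  st : ∀ k, ι k
  rk : κ → ℕ

attribute [instance] Sys.fκ Sys.fι

/-- The weight of a monomial. -/
def wt {Θ : Type} [Fintype Θ] (n m : Θ → ℤ) : ℤ := ∑ θ, m θ * n θ

/-- The conditions on a system of equations. -/
structure Sys.Ok {E K : Type u} [Field E] [Field K] [Algebra E K] {Θ : Type} [Fintype Θ]
    (𝒮 : Sys E Θ) (y : Θ → K) (V : ValuationSubring K) (p : ℕ) : Prop where
  hV : ∀ k i, algebraMap E K (𝒮.c k i) * mo y (𝒮.m k i) ∈ V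
  hst : ∀ k, V.valuation (algebraMap E K (𝒮.c k (𝒮.st k)) * mo y (𝒮.m k (𝒮.st k))) = 1
  sum : ∀ k, ∑ i, algebraMap E K (𝒮.c k i) * mo y (𝒮.m k i) = 0
  der : ∀ k, ∃ n : Θ → ℤ, (∀ l, l ≠ k → 𝒮.rk k ≤ 𝒮.rk l → ∃ b : ℤ, ∀ i,
      (p : ℤ) ∣ wt n (𝒮.m l i) - b) ∧
    ∃ b : ℤ, (∀ i, i ≠ 𝒮.st k → (p : ℤ) ∣ wt n (𝒮.m k i) - b) ∧
      ¬ (p : ℤ) ∣ wt n (𝒮.m k (𝒮.st k)) - b

section main

variable {E K : Type u} [Field E] [Field K] [Algebra E K] {Θ : Type} [Fintype Θ] {y : Θ → K}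
  (hy : ∀ θ, y θ ≠ 0) {V : ValuationSubring K} {p : ℕ} [hp : Fact p.Prime]
  (hpV : V.valuation (p : K) < 1)

lemma int_mem {P : Type u} [CommRing P] [IsLocalRing P] (h : ((p : ℕ) : P) ∈ maximalIdeal P)
    {n : ℤ} (hn : (p : ℤ) ∣ n) : (n : P) ∈ maximalIdeal P := by
  obtain ⟨q, rfl⟩ := hn
  push_cast
  exact (maximalIdeal P).mul_mem_right _ h

include hp in
lemma int_not_mem {P : Type u} [CommRing P] [IsLocalRing P] (h : ((p : ℕ) : P) ∈ maximalIdeal P)
    {n : ℤ} (hn : ¬ (p : ℤ) ∣ n) : (n : P) ∉ maximalIdeal P := by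
  intro h1
  have h2 : IsCoprime (p : ℤ) n :=
    (Nat.prime_iff_prime_int.1 hp.out).irreducible.coprime_iff_not_dvd.2 hn
  obtain ⟨a, b, hab⟩ := h2
  apply (Ideal.ne_top_iff_one _).1 (maximalIdeal.isMaximal P).ne_top
  have h3 : (1 : P) = (a : P) * ((p : ℕ) : P) + (b : P) * (n : P) := by
    have h4 := congrArg (Int.cast : ℤ → P) hab
    push_cast at h4
    exact h4.symm
  rw [h3]
  exact (maximalIdeal P).add_mem ((maximalIdeal P).mul_mem_left _ h)
    ((maximalIdeal P).mul_mem_left _ h1)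

include hy hpV hp in
/-- The main construction. -/
theorem main_cut {C : Subring E} {ι₀ : Type} [Fintype ι₀] {x₀ : ι₀ → E}
    (h0 : RegP (V.comap (algebraMap E K)).toSubring (lo (V.comap (algebraMap E K)).toSubring C) x₀)
    (hC : C ≤ (V.comap (algebraMap E K)).toSubring) (hCE : ∀ a : E, ∃ b ∈ C, b ≠ 0 ∧ a * b ∈ C)
    (𝒮 : Sys E Θ) (h𝒮 : 𝒮.Ok y V p)
    (hc : ∀ k i, PMon (lo (V.comap (algebraMap E K)).toSubring C) x₀ (𝒮.c k i))
    (hfr : ∀ z : K, ∃ a b : MvPolynomial Θ E, ph (E := E) y b ≠ 0 ∧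
      z * ph (E := E) y b = ph (E := E) y a)
    (htr : Algebra.trdeg E K + (Fintype.card 𝒮.κ : Cardinal.{u}) = Fintype.card Θ)
    {G : Set (E × (Θ → ℤ))} (hG : G.Finite)
    (hGx : ∀ g ∈ G, PMon (lo (V.comap (algebraMap E K)).toSubring C) x₀ g.1) :
    ∃ (T : Set K) (ι : Type) (_ : Fintype ι) (x : ι → K), T.Finite ∧ (∀ t ∈ T, t ∈ V) ∧
      (∀ t ∈ T, ∃ γ m, t = algebraMap E K (mo x₀ γ) * mo y m) ∧
      RegP V.toSubring (lo V.toSubring (Subring.closure (C.map (algebraMap E K) ∪ T))) x ∧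
      (∀ e, PMon (lo (V.comap (algebraMap E K)).toSubring C) x₀ e →
        PMon (lo V.toSubring (Subring.closure (C.map (algebraMap E K) ∪ T))) x
          (algebraMap E K e)) ∧
      (∀ θ, PMon (lo V.toSubring (Subring.closure (C.map (algebraMap E K) ∪ T))) x (y θ)) ∧
      ∀ g ∈ G, algebraMap E K g.1 * mo y g.2 ∈ V → algebraMap E K g.1 * mo y g.2 ∈
        lo V.toSubring (Subring.closure (C.map (algebraMap E K) ∪ T)) := by
  classical
  -- the stage
  let τ : ∀ k, 𝒮.ι k → FF E Θ := fun k i => emb E Θ (𝒮.c k i) * mo (Zc E) (𝒮.m k i)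
  have hτ : ∀ k i, Pr (ph (E := E) y) (τ k i) (algebraMap E K (𝒮.c k i) * mo y (𝒮.m k i)) :=
    fun k i => (Pr_emb y _).mul (Pr.mo (fun θ => Pr_Z y θ) hy _)
  let G' : Set (FF E Θ) := ((fun g : E × (Θ → ℤ) => emb E Θ g.1 * mo (Zc E) g.2) '' G) ∪
    Set.range (fun q : Σ k, 𝒮.ι k => τ q.1 q.2)
  obtain ⟨ι, _, T, x, hst, href, hZ, hGP⟩ := exists_stage hy V h0 hC (G := G')
    ((hG.image _).union (Set.finite_range _)) (by
      rintro _ (⟨g, hg, rfl⟩ | ⟨q, rfl⟩)
      · exact ⟨g.1, hGx g hg, g.2, rfl⟩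
      · exact ⟨𝒮.c q.1 q.2, hc q.1 q.2, 𝒮.m q.1 q.2, rfl⟩)
  set P := lo (AT E y V) (Subring.closure (C.map (emb E Θ) ∪ T)) with hPdef
  have hreg := hst.reg
  have hregP : IsRegularLocalRing P := hreg.reg
  have hPA : P ≤ AT E y V := hreg.PA
  have hτP : ∀ k i, τ k i ∈ P := fun k i =>
    hGP _ (Or.inr ⟨⟨k, i⟩, rfl⟩) ((hτ k i).mem_AA.2 (h𝒮.hV k i))
  -- the equations
  let e : 𝒮.κ → P := fun k => ∑ i, ⟨τ k i, hτP k i⟩
  have he_coe : ∀ k, (e k : FF E Θ) = ∑ i, τ k i := by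
    intro k
    change ((∑ i, (⟨τ k i, hτP k i⟩ : P) : P) : FF E Θ) = _
    rw [AddSubmonoidClass.coe_finsetSum]
  have he0 : ∀ k, Pr (ph (E := E) y) (e k : FF E Θ) 0 := by
    intro k
    rw [he_coe, ← h𝒮.sum k]
    exact Pr.sum _ fun i _ => hτ k i
  have hem : ∀ k, e k ∈ maximalIdeal P := by
    intro k
    rw [mem_max_val hreg _ (he0 k), map_zero]
    exact zero_lt_one
  have hpm : ((p : ℕ) : P) ∈ maximalIdeal P := by
    have h1 : Pr (ph (E := E) y) (((p : ℕ) : P) : FF E Θ) (p : K) := by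
      have h2 := Pr_emb (E := E) (Θ := Θ) y (p : E)
      rw [map_natCast, map_natCast] at h2
      exact h2
    rw [mem_max_val hreg _ h1]
    exact hpV
  -- the derivations
  choose n hn1 hn2 using h𝒮.der
  choose D hD using fun k => exists_D (E := E) (n k)
  have hDP : ∀ k, ∀ z ∈ P, D k z ∈ P := fun k => der_stage (hD k) hst.TN
  let DP : 𝒮.κ → P →+ P := fun k =>
    { toFun := fun z => ⟨D k z, hDP k z z.2⟩
      map_zero' := Subtype.ext (map_zero (D k))
      map_add' := fun a b => Subtype.ext (map_add (D k) (a : FF E Θ) (b : FF E Θ)) }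
  have hDPc : ∀ k z, (DP k z : FF E Θ) = D k z := fun k z => rfl
  have heig : ∀ k l i, D k (τ l i) = (wt (n k) (𝒮.m l i) : FF E Θ) * τ l i := fun k l i =>
    eig_NT (hD k) _ _
  have hDe : ∀ k l (b : ℤ), DP k (e l) = (b : P) * e l +
      ∑ i, ((wt (n k) (𝒮.m l i) - b : ℤ) : P) * ⟨τ l i, hτP l i⟩ := by
    intro k l b
    apply Subtype.ext
    rw [hDPc, he_coe, map_sum]
    change _ = ((b : P) : FF E Θ) * (e l : FF E Θ) + ((∑ i, ((wt (n k) (𝒮.m l i) - b : ℤ) : P) *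
      ⟨τ l i, hτP l i⟩ : P) : FF E Θ)
    rw [he_coe, AddSubmonoidClass.coe_finsetSum, Finset.mul_sum, ← Finset.sum_add_distrib]
    refine Finset.sum_congr rfl fun i _ => ?_
    rw [heig]
    change _ = ((b : ℤ) : FF E Θ) * τ l i + ((wt (n k) (𝒮.m l i) - b : ℤ) : FF E Θ) * τ l i
    push_cast
    ring
  have hind : IndN (Sum.elim (fun i => (⟨x i, hreg.mem i⟩ : P)) e) := by
    refine IndN.eqs hreg.ind hem 𝒮.rk DP ?_ ?_ ?_ ?_
    · intro k a b
      apply Subtype.ext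
      change D k (a * b : FF E Θ) = a * D k b + b * D k a
      rw [Derivation.leibniz]
      rfl
    · intro k i hi
      obtain ⟨e', m', -, -, h1⟩ := mem_NT (hst.xN i)
      have h2 : DP k (⟨x i, hreg.mem i⟩ : P) = (wt (n k) m' : P) * ⟨x i, hreg.mem i⟩ := by
        apply Subtype.ext
        change D k (x i) = ((wt (n k) m' : ℤ) : FF E Θ) * x i
        rw [h1]
        exact eig_NT (hD k) _ _
      rw [h2]
      exact (maximalIdeal P).mul_mem_left _ hi
    · intro k l hlk hrk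
      obtain ⟨b, hb⟩ := hn1 k l hlk hrk
      rw [hDe k l b]
      exact (maximalIdeal P).add_mem ((maximalIdeal P).mul_mem_left _ (hem l))
        (Ideal.sum_mem _ fun i _ => (maximalIdeal P).mul_mem_right _ (int_mem hpm (hb i)))
    · intro k
      obtain ⟨b, hb, hb'⟩ := hn2 k
      rw [hDe k k b]
      intro h1
      have h2 := (maximalIdeal P).sub_mem h1 ((maximalIdeal P).mul_mem_left (b : P) (hem k))
      rw [add_sub_cancel_left, ← Finset.add_sum_erase _ _ (Finset.mem_univ (𝒮.st k))] at h2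
      have h3 := (maximalIdeal P).sub_mem h2 (Ideal.sum_mem (maximalIdeal P)
        (t := Finset.univ.erase (𝒮.st k))
        (f := fun i => ((wt (n k) (𝒮.m k i) - b : ℤ) : P) * ⟨τ k i, hτP k i⟩)
        (fun i hi => (maximalIdeal P).mul_mem_right _
          (int_mem hpm (hb i (Finset.mem_erase.1 hi).1))))
      rw [add_sub_cancel_right] at h3
      rcases (maximalIdeal.isMaximal P).isPrime.mem_or_mem h3 with h4 | h4
      · exact int_not_mem hpm hb' h4
      · rw [mem_max_val hreg _ (hτ k (𝒮.st k)), h𝒮.hst k] at h4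
        exact lt_irrefl _ h4
  have hie : Ind e := hind.ind Sum.inr Sum.inr_injective hem
  -- the values of the parameters
  have hxv : ∀ i, ∃ w : K, w ≠ 0 ∧ Pr (ph (E := E) y) (x i) w ∧
      w ∈ V := by
    intro i
    obtain ⟨e', m', he', -, h1⟩ := mem_NT (hst.xN i)
    have h2 : Pr (ph (E := E) y) (x i) (algebraMap E K e' * mo y m') := by
      rw [h1]
      exact (Pr_emb y _).mul (Pr.mo (fun θ => Pr_Z y θ) hy _)
    exact ⟨_, mul_ne_zero ((map_ne_zero _).2 he') (mo_ne_zero hy _), h2,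
      h2.mem_AA.1 (hPA (hreg.mem i))⟩
  choose xK hxK0 hxK hxKV using hxv
  -- the denominators
  have hU : ∀ δ : ι → ℤ, 0 ≤ δ → mo x δ ∈ P ∧ ∃ w, w ≠ 0 ∧ Pr (ph (E := E) y) (mo x δ) w :=
    fun δ hδ => ⟨mo_mem hreg.mem hδ, mo xK δ, mo_ne_zero hxK0 _, Pr.mo hxK hxK0 δ⟩
  have hden : ∀ β : MvPolynomial Θ E, ∃ d ∈ P, (∃ w, w ≠ 0 ∧ Pr (ph (E := E) y) d w) ∧
      d * algebraMap (MvPolynomial Θ E) (FF E Θ) β ∈ P := by
    intro β
    induction β using MvPolynomial.induction_on with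
    | C a =>
      obtain ⟨b, hb, hb0, hab⟩ := hCE a
      have hmem : ∀ c ∈ C, emb E Θ c ∈ P := fun c hc =>
        le_lo _ _ (Subring.subset_closure (Or.inl ⟨c, hc, rfl⟩))
      refine ⟨emb E Θ b, hmem b hb, ⟨_, (map_ne_zero _).2 hb0, Pr_emb y b⟩, ?_⟩
      have h1 : emb E Θ b * algebraMap (MvPolynomial Θ E) (FF E Θ) (MvPolynomial.C a) =
          emb E Θ (a * b) := by
        rw [map_mul, mul_comm]
        rfl
      rw [h1]
      exact hmem _ hab
    | add a b ha hb =>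
      obtain ⟨d, hd, ⟨w, hw, hdw⟩, h1⟩ := ha
      obtain ⟨d', hd', ⟨w', hw', hdw'⟩, h2⟩ := hb
      refine ⟨d * d', P.mul_mem hd hd', ⟨_, mul_ne_zero hw hw', hdw.mul hdw'⟩, ?_⟩
      have h3 : d * d' * algebraMap (MvPolynomial Θ E) (FF E Θ) (a + b) =
          d' * (d * algebraMap (MvPolynomial Θ E) (FF E Θ) a) +
          d * (d' * algebraMap (MvPolynomial Θ E) (FF E Θ) b) := by
        rw [map_add]; ring
      rw [h3]
      exact P.add_mem (P.mul_mem hd' h1) (P.mul_mem hd h2)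
    | mul_X a θ ha =>
      obtain ⟨d, hd, ⟨w, hw, hdw⟩, h1⟩ := ha
      obtain ⟨u, u0, u1, u2, δ, hδ⟩ := hZ θ
      obtain ⟨h3, w', hw', h4⟩ := hU (fun i => max (-δ i) 0) (fun i => le_max_right _ _)
      refine ⟨d * mo x (fun i => max (-δ i) 0), P.mul_mem hd h3,
        ⟨_, mul_ne_zero hw hw', hdw.mul h4⟩, ?_⟩
      have h5 : mo x (fun i => max (-δ i) 0) * algebraMap (MvPolynomial Θ E) (FF E Θ)
          (MvPolynomial.X θ) = u * mo x (fun i => max (δ i) 0) := by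
        change _ * Zc E θ = _
        rw [hδ, mul_left_comm, ← mo_add hreg.ne]
        congr 2
        funext i
        simp only [Pi.add_apply]
        omega
      have h6 : d * mo x (fun i => max (-δ i) 0) * algebraMap (MvPolynomial Θ E) (FF E Θ)
          (a * MvPolynomial.X θ) = (d * algebraMap (MvPolynomial Θ E) (FF E Θ) a) *
          (u * mo x (fun i => max (δ i) 0)) := by
        rw [← h5, map_mul]
        ring
      rw [h6]
      exact P.mul_mem h1 (P.mul_mem u1 (mo_mem hreg.mem fun i => le_max_right _ _))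
  -- the image in `K`
  let prP : P →+* K := (prA (F := FF E Θ) (φ := ph (E := E) y) (V := V)).comp
    (Subring.inclusion hPA)
  have hprP : ∀ z : P, Pr (ph (E := E) y) (z : FF E Θ) (prP z) := fun z =>
    prA_spec (Subring.inclusion hPA z)
  have hprV : ∀ z : P, prP z ∈ V := fun z => prA_mem _
  let TK : Set K := {w | ∃ t ∈ T, Pr (ph (E := E) y) t w}
  have hTKfin : TK.Finite := by
    have h1 : ∀ t ∈ T, ∃ w, Pr (ph (E := E) y) t w := fun t ht => by
      obtain ⟨w, -, h⟩ := hst.TA t ht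
      exact ⟨w, h⟩
    choose! f hf using h1
    refine (hst.fin.image f).subset ?_
    rintro w ⟨t, ht, h⟩
    exact ⟨t, ht, (hf t ht).unique h⟩
  have hTKV : ∀ t ∈ TK, t ∈ V := by
    rintro w ⟨t, ht, h⟩
    exact h.mem_AA.1 (hst.TA t ht)
  set B := Subring.closure (C.map (algebraMap E K) ∪ TK) with hB
  have hBV : B ≤ V.toSubring := by
    rw [hB, Subring.closure_le]
    rintro w (⟨c, hc, rfl⟩ | hw)
    · exact hC hc
    · exact hTKV w hw
  -- lifting
  have hlift : ∀ b ∈ B, ∃ s ∈ Subring.closure (C.map (emb E Θ) ∪ T), Pr (ph (E := E) y) s b := by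
    intro b hb
    rw [hB] at hb
    induction hb using Subring.closure_induction with
    | mem b hb =>
      rcases hb with ⟨c, hc, rfl⟩ | ⟨t, ht, h⟩
      · exact ⟨_, Subring.subset_closure (Or.inl ⟨c, hc, rfl⟩), Pr_emb y c⟩
      · exact ⟨t, Subring.subset_closure (Or.inr ht), h⟩
    | zero => exact ⟨0, Subring.zero_mem _, Pr.zero⟩
    | one => exact ⟨1, Subring.one_mem _, Pr.one⟩
    | add a b _ _ ha hb =>
      obtain ⟨s, hs, h⟩ := ha
      obtain ⟨s', hs', h'⟩ := hb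
      exact ⟨_, Subring.add_mem _ hs hs', h.add h'⟩
    | neg a _ ha =>
      obtain ⟨s, hs, h⟩ := ha
      exact ⟨_, Subring.neg_mem _ hs, h.neg⟩
    | mul a b _ _ ha hb =>
      obtain ⟨s, hs, h⟩ := ha
      obtain ⟨s', hs', h'⟩ := hb
      exact ⟨_, Subring.mul_mem _ hs hs', h.mul h'⟩
  have hdown : ∀ s ∈ Subring.closure (C.map (emb E Θ) ∪ T), ∃ b ∈ B, Pr (ph (E := E) y) s b := by
    intro s hs
    induction hs using Subring.closure_induction with
    | mem b hb =>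
      rcases hb with ⟨c, hc, rfl⟩ | ht
      · exact ⟨_, Subring.subset_closure (Or.inl ⟨c, hc, rfl⟩), Pr_emb y c⟩
      · obtain ⟨w, -, h⟩ := hst.TA b ht
        exact ⟨w, Subring.subset_closure (Or.inr ⟨b, ht, h⟩), h⟩
    | zero => exact ⟨0, Subring.zero_mem _, Pr.zero⟩
    | one => exact ⟨1, Subring.one_mem _, Pr.one⟩
    | add a b _ _ ha hb =>
      obtain ⟨s, hs, h⟩ := ha
      obtain ⟨s', hs', h'⟩ := hb
      exact ⟨_, Subring.add_mem _ hs hs', h.add h'⟩
    | neg a _ ha =>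
      obtain ⟨s, hs, h⟩ := ha
      exact ⟨_, Subring.neg_mem _ hs, h.neg⟩
    | mul a b _ _ ha hb =>
      obtain ⟨s, hs, h⟩ := ha
      obtain ⟨s', hs', h'⟩ := hb
      exact ⟨_, Subring.mul_mem _ hs hs', h.mul h'⟩
  have hmemB : ∀ z : P, prP z ∈ lo V.toSubring B := by
    rintro ⟨z, hz⟩
    have hz' := hz
    obtain ⟨a, ha, b, hb, hb0, hbA, h1⟩ := hz'
    obtain ⟨a', ha', h2⟩ := hdown a ha
    obtain ⟨b', hb', h3⟩ := hdown b hb
    obtain ⟨w, hw, h4⟩ := hbA
    have h5 : b' * w = 1 := by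
      have h6 := h3.mul h4
      rw [mul_inv_cancel₀ hb0] at h6
      exact h6.unique Pr.one
    have hb0' : b' ≠ 0 := left_ne_zero_of_mul_eq_one h5
    have h7 : w = b'⁻¹ := eq_inv_of_mul_eq_one_right h5
    refine ⟨a', ha', b', hb', hb0', ?_, ?_⟩
    · rw [← h7]; exact hw
    · have h8 := hprP ⟨z, hz⟩
      refine h8.unique ?_
      change Pr _ z _
      rw [h1, ← h7]
      exact h2.mul h4
  let θ : P →+* lo V.toSubring B := prP.codRestrict (lo V.toSubring B) hmemB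
  have hθc : ∀ z, (θ z : K) = prP z := fun z => rfl
  have hsurj : Function.Surjective θ := by
    rintro ⟨w, a, ha, b, hb, hb0, hbV, hw⟩
    obtain ⟨s, hs, h1⟩ := hlift a ha
    obtain ⟨t, ht, h2⟩ := hlift b hb
    have h3 := h1.mul (h2.inv hb0)
    have h4 : s * t⁻¹ ∈ P := by
      refine ⟨s, hs, t, ht, h2.ne_zero hb0, ?_, rfl⟩
      exact ⟨_, hbV, h2.inv hb0⟩
    refine ⟨⟨_, h4⟩, Subtype.ext ?_⟩
    rw [hθc]
    change prP _ = w
    rw [hw]
    exact (hprP ⟨_, h4⟩).unique h3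
  have hlocB : IsLocalRing (lo V.toSubring B) := isLocalRing_lo (loc_V V) hBV
  have hker : RingHom.ker θ = Ideal.span (Set.range e) := by
    apply le_antisymm
    · intro z hz
      refine ker_le hregP hPA hie he0 hden hfr htr z ?_
      have h1 : prP z = 0 := congrArg Subtype.val (RingHom.mem_ker.1 hz)
      rw [← h1]
      exact hprP z
    · rw [Ideal.span_le]
      rintro _ ⟨k, rfl⟩
      refine RingHom.mem_ker.2 (Subtype.ext ?_)
      rw [hθc]
      exact (hprP (e k)).unique (he0 k)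
  obtain ⟨h1, h2⟩ := quot_regular' hind hem θ hsurj hker
  have hθx : ∀ i, (θ ⟨x i, hreg.mem i⟩ : K) = xK i := fun i =>
    (hprP ⟨x i, hreg.mem i⟩).unique (hxK i)
  have hxKm : ∀ i, xK i ∈ lo V.toSubring B := fun i => by
    rw [← hθx]
    exact (θ _).2
  have hRegK : RegP V.toSubring (lo V.toSubring B) xK := by
    refine ⟨lo_le hBV, hxK0, hxKm, h1, fun z hz h0 h3 => inv_mem_lo hBV hz h0 h3, ?_⟩
    convert h2 using 1
    funext i
    exact Subtype.ext (hθx i).symm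
  have hPM : ∀ (g : FF E Θ) (w : K), PMon P x g → Pr (ph (E := E) y) g w →
      PMon (lo V.toSubring B) xK w := by
    rintro g w ⟨u, u0, u1, u2, δ, rfl⟩ hgw
    have h3 := hprP ⟨u, u1⟩
    have h4 := hprP ⟨u⁻¹, u2⟩
    have h5 : prP ⟨u, u1⟩ * prP ⟨u⁻¹, u2⟩ = 1 := by
      have h6 := h3.mul h4
      change Pr _ (u * u⁻¹) _ at h6
      rw [mul_inv_cancel₀ u0] at h6
      exact h6.unique Pr.one
    refine ⟨prP ⟨u, u1⟩, left_ne_zero_of_mul_eq_one h5, hmemB _, ?_, δ, ?_⟩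
    · rw [← eq_inv_of_mul_eq_one_right h5]
      exact hmemB _
    · exact hgw.unique (h3.mul (Pr.mo hxK hxK0 δ))
  refine ⟨TK, ι, inferInstance, xK, hTKfin, hTKV, ?_, hRegK, ?_, ?_, ?_⟩
  · rintro w ⟨t, ht, h⟩
    obtain ⟨e', m', -, ⟨γ, rfl⟩, h3⟩ := mem_NT (hst.TN t ht)
    refine ⟨γ, m', h.unique ?_⟩
    rw [h3]
    exact (Pr_emb y _).mul (Pr.mo (fun θ => Pr_Z y θ) hy _)
  · rintro _ ⟨u, u0, u1, u2, δ, rfl⟩
    refine hPM (emb E Θ (u * mo x₀ δ)) _ ?_ (Pr_emb y _)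
    obtain ⟨δ', hδ'⟩ := href.all (fun i => (map_ne_zero _).2 (h0.ne i)) hreg.ne δ
    have h3 : ∀ c ∈ lo (V.comap (algebraMap E K)).toSubring C, emb E Θ c ∈ P := by
      intro c hc
      have h4 : emb E Θ c ∈ lo (AT E y V) (C.map (emb E Θ)) := by
        rw [lo_map (emb E Θ) (emb_mem (y := y) V)]
        exact ⟨c, hc, rfl⟩
      exact lo_mono (fun z hz => Subring.subset_closure (Or.inl hz)) h4
    refine ⟨emb E Θ u, (map_ne_zero _).2 u0, h3 u u1, ?_, δ', ?_⟩
    · rw [← map_inv₀]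
      exact h3 _ u2
    · rw [map_mul, ← hδ']
      congr 1
      unfold mo
      rw [map_prod]
      exact Finset.prod_congr rfl fun i _ => map_zpow₀ _ _ _
  · intro θ'
    exact hPM (Zc E θ') _ (hZ θ') (Pr_Z y θ')
  · intro g hg hgV
    have h3 : Pr (ph (E := E) y) (emb E Θ g.1 * mo (Zc E) g.2)
        (algebraMap E K g.1 * mo y g.2) :=
      (Pr_emb y _).mul (Pr.mo (fun θ => Pr_Z y θ) hy _)
    have h4 := hGP _ (Or.inl ⟨g, hg, rfl⟩) (h3.mem_AA.2 hgV)
    have h5 := hmemB ⟨_, h4⟩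
    rwa [(hprP ⟨_, h4⟩).unique h3] at h5

end main

end Pool.Agent.W418.LU2
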