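import Pool.Agent.H59.L.S8.W418.LU2.Pair
import Pool.Agent.H59.L.S8.W418.LU2.Main

/-!
# Log desingularizations along a valuation
-/

set_option autoImplicit false
set_option linter.unusedVariables false
set_option linter.unusedSectionVars false

universe u v

namespace Pool.Agent.W418.LU2

open IsLocalRing

section defs

variable {F : Type u} [Field F]

/-- The chart `A[I / f]` of the blowing-up of `A` in the ideal `I`. -/
def chart (A : Subring F) (I : Ideal A) (f : A) : Subring F :=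
  Subring.closure ((A : Set F) ∪ {z | ∃ a ∈ I, z = (a : F) / (f : F)})

/-- The blowing-up of `A` in `I` is a log desingularization of `(Spec A, V(D))` along `V`. -/
def LogDesing (V : ValuationSubring F) (A : Subring F) (D I : Ideal A) : Prop :=
  ∃ f ∈ I, f ≠ 0 ∧ (∀ a ∈ I, (a : F) / (f : F) ∈ V) ∧
    RegularPair (lo V.toSubring (chart A I f)) (Ideal.span {z | ∃ a ∈ D * I, (z : F) = (a : F)})

/-- The valuation ring is log uniformizable on `Spec A`. -/
def LogUnif (V : ValuationSubring F) (A : Subring F) : Prop :=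
  ∀ D I₀ : Ideal A, D ≠ ⊥ → I₀ ≠ ⊥ → ∃ I₁ : Ideal A, I₁ ≠ ⊥ ∧ LogDesing V A D (I₀ * I₁)

/-- The general criterion. -/
theorem logDesing_of {V : ValuationSubring F} {A : Subring F} {D I : Ideal A} {f d : A} (hf : f ∈ I)
    (hf0 : f ≠ 0) (hI : ∀ a ∈ I, (a : F) / (f : F) ∈ V) (hd : d ∈ D) (hd0 : d ≠ 0) {P : Subring F}
    (hP : lo V.toSubring (chart A I f) = P) {ι : Type} [Fintype ι] {x : ι → F}
    (h : RegP V.toSubring P x) (hD : ∀ a ∈ D, (a : F) / (d : F) ∈ P)
    (hmon : PMon P x ((d : F) * (f : F))) : LogDesing V A D I := by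
  refine ⟨f, hf, hf0, hI, ?_⟩
  have hAP : A ≤ P := by
    rw [← hP]
    exact fun a ha => le_lo _ _ (Subring.subset_closure (Or.inl ha))
  have hIP : ∀ a ∈ I, (a : F) / (f : F) ∈ P := by
    rw [← hP]
    exact fun a ha => le_lo _ _ (Subring.subset_closure (Or.inr ⟨a, ha, rfl⟩))
  subst hP
  have hf0' : (f : F) ≠ 0 := fun h => hf0 (Subtype.ext h)
  have hd0' : (d : F) ≠ 0 := fun h => hd0 (Subtype.ext h)
  have h1 : Ideal.span {z : lo V.toSubring (chart A I f) | ∃ a ∈ D * I, (z : F) = (a : F)} =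
      Ideal.span {(⟨(d : F) * (f : F), (lo V.toSubring (chart A I f)).mul_mem (hAP d.2)
        (hAP f.2)⟩ : lo V.toSubring (chart A I f))} := by
    apply le_antisymm
    · rw [Ideal.span_le]
      rintro z ⟨a, ha, hz⟩
      rw [SetLike.mem_coe, Ideal.mem_span_singleton']
      have h2 : (a : F) / ((d : F) * (f : F)) ∈ lo V.toSubring (chart A I f) := by
        refine Submodule.mul_induction_on ha ?_ ?_
        · intro b hb c hc
          have h3 : ((b * c : A) : F) / ((d : F) * (f : F)) = (b : F) / (d : F) *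
              ((c : F) / (f : F)) := by
            change (b : F) * (c : F) / ((d : F) * (f : F)) = _
            field_simp
          change ((b * c : A) : F) / ((d : F) * (f : F)) ∈ _
          rw [h3]
          exact Subring.mul_mem _ (hD b hb) (hIP c hc)
        · intro b c hb hc
          have h3 : ((b + c : A) : F) / ((d : F) * (f : F)) = (b : F) / ((d : F) * (f : F)) +
              (c : F) / ((d : F) * (f : F)) := by
            change ((b : F) + (c : F)) / ((d : F) * (f : F)) = _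
            rw [add_div]
          rw [h3]
          exact Subring.add_mem _ hb hc
      refine ⟨⟨_, h2⟩, Subtype.ext ?_⟩
      change (a : F) / ((d : F) * (f : F)) * ((d : F) * (f : F)) = (z : F)
      rw [hz, div_mul_cancel₀ _ (mul_ne_zero hd0' hf0')]
    · rw [Ideal.span_le, Set.singleton_subset_iff]
      exact Ideal.subset_span ⟨d * f, Ideal.mul_mem_mul hd hf, rfl⟩
  rw [h1]
  exact h.pair hmon

/-- Generators of finitely generated ideals in valuation rings. -/
theorem exists_gen (V : ValuationSubring F) {A : Subring F} (hA : A ≤ V.toSubring) {S : Set A}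
    (hS : S.Finite) (hne : Ideal.span S ≠ ⊥) :
    ∃ f ∈ S, f ≠ 0 ∧ ∀ a ∈ Ideal.span S, (a : F) / (f : F) ∈ V := by
  have hS0 : S.Nonempty := by
    by_contra h
    rw [Set.not_nonempty_iff_eq_empty] at h
    apply hne
    rw [h, Ideal.span_empty]
  obtain ⟨f, hf, hmax⟩ := Set.exists_max_image S (fun a : A => V.valuation (a : F)) hS hS0
  have hf0 : f ≠ 0 := by
    rintro rfl
    apply hne
    rw [Ideal.span_eq_bot]
    intro a ha
    have h1 := hmax a ha
    simp only [ZeroMemClass.coe_zero, map_zero, le_zero_iff] at h1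
    exact Subtype.ext (V.valuation.zero_iff.1 h1)
  have hf0' : (f : F) ≠ 0 := fun h => hf0 (Subtype.ext h)
  refine ⟨f, hf, hf0, fun a ha => ?_⟩
  induction ha using Submodule.span_induction with
  | mem a ha =>
    rw [← V.valuation_le_one_iff, map_div₀]
    exact (div_le_one₀ (zero_lt_iff.2 ((map_ne_zero _).2 hf0'))).2 (hmax a ha)
  | zero => simp [V.zero_mem]
  | add a b _ _ ha hb =>
    have h1 : ((a + b : A) : F) / (f : F) = (a : F) / (f : F) + (b : F) / (f : F) := add_div _ _ _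
    rw [h1]
    exact V.add_mem _ _ ha hb
  | smul c a _ ha =>
    have h1 : ((c • a : A) : F) / (f : F) = (c : F) * ((a : F) / (f : F)) := mul_div_assoc _ _ _
    rw [h1]
    exact V.mul_mem _ _ (hA c.2) ha

lemma lo_eq {A B B' : Subring F} (hA : B ≤ A) (h1 : B ≤ B') (h2 : B' ≤ lo A B) :
    lo A B' = lo A B := by
  apply le_antisymm
  · rintro z ⟨a, ha, b, hb, hb0, hbA, rfl⟩
    exact (lo A B).mul_mem (h2 ha) (inv_mem_lo hA (h2 hb) hb0 hbA)
  · exact lo_mono h1

end defs

section base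

variable {E : Type u} [Field E]

/-- The base. -/
theorem base (W : ValuationSubring E) (R : Subring E) [IsNoetherianRing R]
    (hRW : R ≤ W.toSubring) (hfr : ∀ z : E, ∃ a ∈ R, ∃ b ∈ R, b ≠ 0 ∧ z = a * b⁻¹)
    (hLU : LogUnif W R) (H : Set E) (hHf : H.Finite) (hH : ∀ h ∈ H, h ≠ 0) :
    ∃ (Wb : Set E) (fb : E) (n : ℕ) (x : Fin n → E), Wb.Finite ∧ fb ∈ R ∧ fb ≠ 0 ∧
      (∀ w ∈ Wb, w ∈ W ∧ w * fb ∈ R) ∧ (∀ i, x i ∈ Subring.closure ((R : Set E) ∪ Wb)) ∧
      RegP W.toSubring (lo W.toSubring (Subring.closure ((R : Set E) ∪ Wb))) x ∧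
      PMon (lo W.toSubring (Subring.closure ((R : Set E) ∪ Wb))) x fb ∧
      ∀ h ∈ H, PMon (lo W.toSubring (Subring.closure ((R : Set E) ∪ Wb))) x h := by
  classical
  choose num hnum den hden hden0 hnd using hfr
  let Hf := hHf.toFinset
  let nh : E → R := fun h => ⟨num h, hnum h⟩
  let dh : E → R := fun h => ⟨den h, hden h⟩
  let h₀ : R := ∏ h ∈ Hf, nh h * dh h
  have hnum0 : ∀ h ∈ H, num h ≠ 0 := by
    intro h hh h0
    apply hH h hh
    rw [hnd h, h0, zero_mul]
  have hh₀ : h₀ ≠ 0 := by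
    refine Finset.prod_ne_zero_iff.2 fun h hh => mul_ne_zero ?_ ?_
    · exact fun h0 => hnum0 h (hHf.mem_toFinset.1 hh) (congrArg Subtype.val h0)
    · exact fun h0 => hden0 h (congrArg Subtype.val h0)
  obtain ⟨I, hI0, hLD⟩ := hLU (Ideal.span {h₀}) ⊤ (by
    rw [Ne, Ideal.span_singleton_eq_bot]; exact hh₀) (by
    intro h
    have h1 : (1 : R) ∈ (⊤ : Ideal R) := trivial
    rw [h, Ideal.mem_bot] at h1
    exact one_ne_zero h1)
  rw [Ideal.top_mul] at hLD
  obtain ⟨f, hf, hf0, hfV, hpair⟩ := hLD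
  have hf0' : (f : E) ≠ 0 := fun h => hf0 (Subtype.ext h)
  obtain ⟨S, hS⟩ := (IsNoetherian.noetherian I : I.FG)
  let Wb : Set E := (fun a : R => (a : E) / (f : E)) '' S
  have hB : Subring.closure ((R : Set E) ∪ Wb) = chart R I f := by
    apply le_antisymm
    · rw [Subring.closure_le]
      rintro z (hz | ⟨a, ha, rfl⟩)
      · exact Subring.subset_closure (Or.inl hz)
      · refine Subring.subset_closure (Or.inr ⟨a, ?_, rfl⟩)
        rw [← hS]
        exact Ideal.subset_span ha
    · unfold chart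
      rw [Subring.closure_le]
      rintro z (hz | ⟨a, ha, rfl⟩)
      · exact Subring.subset_closure (Or.inl hz)
      · rw [← hS] at ha
        change (a : E) / (f : E) ∈ _
        induction ha using Submodule.span_induction with
        | mem a ha => exact Subring.subset_closure (Or.inr ⟨a, ha, rfl⟩)
        | zero => simp
        | add a b _ _ ha hb =>
          have h1 : ((a + b : R) : E) / (f : E) = (a : E) / (f : E) + (b : E) / (f : E) :=
            add_div _ _ _
          rw [h1]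
          exact Subring.add_mem _ ha hb
        | smul c a _ ha =>
          have h1 : ((c • a : R) : E) / (f : E) = (c : E) * ((a : E) / (f : E)) :=
            mul_div_assoc _ _ _
          rw [h1]
          exact Subring.mul_mem _ (Subring.subset_closure (Or.inl c.2)) ha
  have hBW : chart R I f ≤ W.toSubring := by
    unfold chart
    rw [Subring.closure_le]
    rintro z (hz | ⟨a, ha, rfl⟩)
    · exact hRW hz
    · exact hfV a ha
  set P := lo W.toSubring (chart R I f) with hP
  obtain ⟨hreg, n, x, s, hspan, hdim, hrad⟩ := hpair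
  -- the parameters
  have hx := fun i => (x i).2
  choose y hy b hb hb0 hbW hyb using hx
  have hyP : ∀ i, y i ∈ P := fun i => le_lo _ _ (hy i)
  have hbP : ∀ i, b i ∈ P := fun i => le_lo _ _ (hb i)
  have hbu : ∀ i, IsUnit (⟨b i, hbP i⟩ : P) := fun i =>
    (isUnit_lo_iff hBW _).2 ⟨hb0 i, hbW i⟩
  have hyx : ∀ i, (⟨y i, hyP i⟩ : P) = ⟨b i, hbP i⟩ * x i := by
    intro i
    apply Subtype.ext
    change y i = b i * (x i : E)
    rw [hyb i, mul_left_comm, mul_inv_cancel₀ (hb0 i), mul_one]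
  have hyspan : Ideal.span (Set.range fun i => (⟨y i, hyP i⟩ : P)) = maximalIdeal P := by
    rw [← hspan]
    apply le_antisymm
    · rw [Ideal.span_le]
      rintro _ ⟨i, rfl⟩
      change (⟨y i, hyP i⟩ : P) ∈ _
      rw [hyx i]
      exact Ideal.mul_mem_left _ _ (Ideal.subset_span ⟨i, rfl⟩)
    · rw [Ideal.span_le]
      rintro _ ⟨i, rfl⟩
      have h1 : (⟨y i, hyP i⟩ : P) ∈ Ideal.span (Set.range fun i => (⟨y i, hyP i⟩ : P)) :=
        Ideal.subset_span ⟨i, rfl⟩
      rw [hyx i] at h1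
      exact (Ideal.unit_mul_mem_iff_mem _ (hbu i)).1 h1
  have hInd : Ind (fun i => (⟨y i, hyP i⟩ : P)) := by
    refine ind_of_span hyspan ?_
    rw [hdim, Fintype.card_fin]
  have hRP : RegP W.toSubring P y :=
    { PA := lo_le hBW
      ne := fun i h0 => hInd.ne_zero i (Subtype.ext h0)
      mem := hyP
      reg := hreg
      inv := fun z hz h0 h1 => inv_mem_lo hBW hz h0 h1
      ind := IndN.of_ind id Function.injective_id (fun i _ => ⟨i, rfl⟩) hInd }
  -- the divisors
  have hrm : ∃ (N : ℕ) (c : P), (∏ i ∈ s, x i) ^ N = c * ⟨(h₀ : E) * (f : E),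
      P.mul_mem (le_lo _ _ (Subring.subset_closure (Or.inl h₀.2)))
        (le_lo _ _ (Subring.subset_closure (Or.inl f.2)))⟩ := by
    have h1 : ∏ i ∈ s, x i ∈ (Ideal.span {z : P | ∃ a ∈ Ideal.span {h₀} * I,
        (z : E) = (a : E)}).radical := by
      rw [hrad]
      exact Ideal.mem_span_singleton_self _
    obtain ⟨N, hN⟩ := Ideal.mem_radical_iff.1 h1
    have h2 : Ideal.span {z : P | ∃ a ∈ Ideal.span {h₀} * I, (z : E) = (a : E)} ≤
        Ideal.span {(⟨(h₀ : E) * (f : E),
          P.mul_mem (le_lo _ _ (Subring.subset_closure (Or.inl h₀.2)))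
          (le_lo _ _ (Subring.subset_closure (Or.inl f.2)))⟩ : P)} := by
      rw [Ideal.span_le]
      rintro z ⟨a, ha, hz⟩
      obtain ⟨i, hi, rfl⟩ := Ideal.mem_span_singleton_mul.1 ha
      rw [SetLike.mem_coe, Ideal.mem_span_singleton']
      refine ⟨⟨(i : E) / (f : E), le_lo _ _ (Subring.subset_closure (Or.inr ⟨i, hi, rfl⟩))⟩,
        Subtype.ext ?_⟩
      change (i : E) / (f : E) * ((h₀ : E) * (f : E)) = z
      rw [hz]
      change _ = (h₀ : E) * (i : E)
      field_simp
    obtain ⟨c, hc⟩ := Ideal.mem_span_singleton'.1 (h2 hN)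
    exact ⟨N, c, hc.symm⟩
  obtain ⟨N, c, hc⟩ := hrm
  have hpr : ∀ i, Prime (⟨y i, hyP i⟩ : P) := fun i => hInd.prime i
  -- the product of the parameters
  have hprod : ∃ v : P, IsUnit v ∧ (∏ i ∈ s, x i) ^ N = v * ∏ i, (⟨y i, hyP i⟩ : P) ^
      (if i ∈ s then N else 0) := by
    choose vb hvb using fun i => (hbu i).exists_left_inv
    refine ⟨(∏ i ∈ s, vb i) ^ N, ?_, ?_⟩
    · refine IsUnit.pow _ ?_
      exact (IsUnit.submonoid P).prod_mem fun i _ => IsUnit.of_mul_eq_one _ (hvb i)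
    · have h1 : ∏ i, (⟨y i, hyP i⟩ : P) ^ (if i ∈ s then N else 0) =
          (∏ i ∈ s, (⟨y i, hyP i⟩ : P)) ^ N := by
        rw [← Finset.prod_pow]
        symm
        refine (Finset.prod_congr rfl fun i hi => ?_).trans
          (Finset.prod_subset (Finset.subset_univ s) fun i _ hi => ?_)
        · rw [if_pos hi]
        · rw [if_neg hi, pow_zero]
      rw [h1, ← mul_pow, ← Finset.prod_mul_distrib]
      congr 1
      refine Finset.prod_congr rfl fun i _ => ?_
      rw [hyx i, ← mul_assoc, hvb i, one_mul]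
  obtain ⟨v, hv, hprod⟩ := hprod
  have hdiv : ∀ a : P, a ∣ (⟨(h₀ : E) * (f : E),
      P.mul_mem (le_lo _ _ (Subring.subset_closure (Or.inl h₀.2)))
        (le_lo _ _ (Subring.subset_closure (Or.inl f.2)))⟩ : P) → PMon P y (a : E) := by
    rintro a ⟨a', ha'⟩
    have h1 : a * (a' * c) = v * ∏ i, (⟨y i, hyP i⟩ : P) ^ (if i ∈ s then N else 0) := by
      rw [← hprod, hc, ha']
      ring
    obtain ⟨w, m, hw, hm⟩ := dvd_monomial hpr _ _ _ _ _ hv le_rfl h1
    have hw' := (isUnit_lo_iff hBW w).1 hw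
    refine ⟨w, hw'.1, w.2, inv_mem_lo hBW w.2 hw'.1 hw'.2, fun i => (m i : ℤ), ?_⟩
    rw [hm]
    change (w : E) * ((∏ i, (⟨y i, hyP i⟩ : P) ^ m i : P) : E) = _
    congr 1
    have h2 := map_prod P.subtype (fun i => (⟨y i, hyP i⟩ : P) ^ m i) Finset.univ
    refine h2.trans ?_
    unfold mo
    refine Finset.prod_congr rfl fun i _ => ?_
    rw [zpow_natCast]
    rfl
  have hRP' : R ≤ P := fun a ha => le_lo _ _ (Subring.subset_closure (Or.inl ha))
  refine ⟨Wb, f, n, y, S.finite_toSet.image _, f.2, hf0', ?_, ?_, ?_, ?_, ?_⟩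
  · rintro _ ⟨a, ha, rfl⟩
    have haI : a ∈ I := by rw [← hS]; exact Ideal.subset_span ha
    refine ⟨hfV a haI, ?_⟩
    change (a : E) / (f : E) * (f : E) ∈ R
    rw [div_mul_cancel₀ _ hf0']
    exact a.2
  · rw [hB]
    exact hy
  · rw [hB]
    exact hRP
  · rw [hB]
    exact hdiv ⟨f, hRP' f.2⟩ ⟨⟨h₀, hRP' h₀.2⟩, Subtype.ext (mul_comm _ _)⟩
  · rw [hB]
    intro h hh
    have h1 : ∀ a : R, a ∣ h₀ → PMon P y (a : E) := by
      rintro a ⟨c', hc'⟩
      refine hdiv ⟨a, hRP' a.2⟩ ⟨⟨(c' : E) * (f : E), P.mul_mem (hRP' c'.2) (hRP' f.2)⟩,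
        Subtype.ext ?_⟩
      change (h₀ : E) * (f : E) = (a : E) * ((c' : E) * (f : E))
      rw [hc']
      change (a : E) * (c' : E) * (f : E) = _
      ring
    have h2 : nh h * dh h ∣ h₀ := Finset.dvd_prod_of_mem _ (hHf.mem_toFinset.2 hh)
    have h3 := (h1 (nh h) (dvd_trans (dvd_mul_right _ _) h2)).mul hRP.ne
      (h1 (dh h) (dvd_trans (dvd_mul_left _ _) h2)).inv
    have h4 : (nh h : E) * (dh h : E)⁻¹ = h := (hnd h).symm
    rwa [h4] at h3

end base

end Pool.Agent.W418.LU2
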