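import Pool.Agent.H59.L.S8.W418.LU2.Tor3
import Pool.Agent.H59.L.S8.W418.LCI.Dim

/-!
# Cutting out the equations
-/

set_option autoImplicit false
set_option linter.unusedVariables false
set_option linter.unusedSectionVars false

universe u v

namespace Pool.Agent.W418.LU2

open IsLocalRing

section eqs

variable {B : Type u} [CommRing B] [IsLocalRing B] {ι κ : Type} [Fintype ι] [Fintype κ]

/-- The Jacobian criterion. -/
theorem IndN.eqs {x : ι → B} (hx : IndN x) {e : κ → B} (he : ∀ k, e k ∈ maximalIdeal B)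
    (rk : κ → ℕ) (D : κ → B →+ B) (hD : ∀ k a b, D k (a * b) = a * D k b + b * D k a)
    (hDx : ∀ k i, x i ∈ maximalIdeal B → D k (x i) ∈ maximalIdeal B)
    (tri : ∀ k l, l ≠ k → rk k ≤ rk l → D k (e l) ∈ maximalIdeal B)
    (un : ∀ k, D k (e k) ∉ maximalIdeal B) : IndN (Sum.elim x e) := by
  classical
  intro c hc hs
  have hD2 : ∀ k, ∀ s ∈ maximalIdeal B ^ 2, D k s ∈ maximalIdeal B := by
    intro k s hs
    rw [pow_two] at hs
    refine Submodule.mul_induction_on hs ?_ ?_
    · intro a ha b hb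
      rw [hD]
      exact (maximalIdeal B).add_mem ((maximalIdeal B).mul_mem_right _ ha)
        ((maximalIdeal B).mul_mem_right _ hb)
    · intro a b ha hb
      rw [map_add]
      exact (maximalIdeal B).add_mem ha hb
  rw [Fintype.sum_sum_type] at hs
  simp only [Sum.elim_inl, Sum.elim_inr] at hs
  have h1 : ∀ (M : ℕ) (k : κ), rk k = M → c (Sum.inr k) ∈ maximalIdeal B := by
    intro M
    induction M using Nat.strong_induction_on with
    | _ M ih =>
      intro k hk
      have h2 := hD2 k _ hs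
      rw [map_add, map_sum, map_sum] at h2
      have h3 : ∑ i, D k (c (Sum.inl i) * x i) ∈ maximalIdeal B := by
        refine Ideal.sum_mem _ fun i _ => ?_
        rw [hD]
        by_cases hi : x i ∈ maximalIdeal B
        · exact (maximalIdeal B).add_mem ((maximalIdeal B).mul_mem_left _ (hDx k i hi))
            ((maximalIdeal B).mul_mem_right _ hi)
        · have h4 : c (Sum.inl i) = 0 := hc (Sum.inl i) hi
          rw [h4, map_zero, zero_mul, mul_zero, add_zero]
          exact Ideal.zero_mem _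
      have h4 := (maximalIdeal B).sub_mem h2 h3
      rw [add_sub_cancel_left, ← Finset.add_sum_erase _ _ (Finset.mem_univ k)] at h4
      have h5 : ∑ l ∈ Finset.univ.erase k, D k (c (Sum.inr l) * e l) ∈ maximalIdeal B := by
        refine Ideal.sum_mem _ fun l hl => ?_
        have hlk : l ≠ k := (Finset.mem_erase.1 hl).1
        rw [hD]
        refine (maximalIdeal B).add_mem ?_ ((maximalIdeal B).mul_mem_right _ (he l))
        by_cases h6 : rk k ≤ rk l
        · exact (maximalIdeal B).mul_mem_left _ (tri k l hlk h6)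
        · exact (maximalIdeal B).mul_mem_right _ (ih (rk l) (by omega) l rfl)
      have h6 := (maximalIdeal B).sub_mem h4 h5
      rw [add_sub_cancel_right, hD] at h6
      have h7 := (maximalIdeal B).sub_mem h6 ((maximalIdeal B).mul_mem_right
        (D k (c (Sum.inr k))) (he k))
      rw [add_sub_cancel_right] at h7
      rcases (maximalIdeal.isMaximal B).isPrime.mem_or_mem h7 with h8 | h8
      · exact h8
      · exact absurd h8 (un k)
  have h2 : ∑ l, c (Sum.inr l) * e l ∈ maximalIdeal B ^ 2 := by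
    refine Ideal.sum_mem _ fun l _ => ?_
    rw [pow_two]
    exact Ideal.mul_mem_mul (h1 _ l rfl) (he l)
  have h3 := Ideal.sub_mem _ hs h2
  rw [add_sub_cancel_right] at h3
  have h4 := hx (fun i => c (Sum.inl i)) (fun i hi => hc (Sum.inl i) hi) h3
  rintro (i | k)
  · exact h4 i
  · exact h1 _ k rfl

end eqs

section ideals

variable {B : Type u} [CommRing B] [IsRegularLocalRing B] {κ : Type} [Fintype κ] {e : κ → B}
  (he : Ind e)

include he

lemma span_prime (S : Set κ) : (Ideal.span (e '' S)).IsPrime := by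
  classical
  have h1 := (he.comp (fun l : S => (l : κ)) Subtype.val_injective).regular
  have h2 : Set.range (e ∘ fun l : S => (l : κ)) = e '' S := by
    ext z
    constructor
    · rintro ⟨l, rfl⟩
      exact ⟨l, l.2, rfl⟩
    · rintro ⟨l, hl, rfl⟩
      exact ⟨⟨l, hl⟩, rfl⟩
  rw [h2] at h1
  have h3 : IsDomain (B ⧸ Ideal.span (e '' S)) := Pool.Agent.H379R3.isDomain _
  exact (Ideal.Quotient.isDomain_iff_prime _).1 h3

lemma not_mem_span (S : Set κ) (k : κ) (hk : k ∉ S) : e k ∉ Ideal.span (e '' S) := by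
  classical
  intro h
  rw [Ideal.span, Fintype.mem_span_image_iff_exists_fun] at h
  obtain ⟨c, hc⟩ := h
  let f : Option S → κ := fun o => o.elim k fun l => l
  have hf : Function.Injective f := by
    rintro (_ | a) (_ | b) hab
    · rfl
    · have h1 : (b : κ) = k := hab.symm
      exact absurd (h1 ▸ b.2) hk
    · have h1 : (a : κ) = k := hab
      exact absurd (h1 ▸ a.2) hk
    · exact congrArg some (Subtype.ext hab)
  have h1 := (he.comp f hf).2 (fun o => o.elim (-1) c) (by
    rw [Fintype.sum_option]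
    simp only [Option.elim, Function.comp, f]
    simp only [smul_eq_mul] at hc
    rw [hc, neg_one_mul, neg_add_cancel]
    exact Ideal.zero_mem _) none
  simp only [Option.elim] at h1
  exact (Ideal.ne_top_iff_one _).1 (maximalIdeal.isMaximal _).ne_top ((Ideal.neg_mem_iff _).1 h1)

end ideals

section ker

variable {E K : Type u} [Field E] [Field K] [Algebra E K] {Θ : Type} [Fintype Θ] {y : Θ → K}
  {V : ValuationSubring K} {P : Subring (FF E Θ)} (hP : IsRegularLocalRing P)
  (hPA : P ≤ AT E y V) {κ : Type} [Fintype κ] {e : κ → P} (he : Ind e)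
  (he0 : ∀ k, Pr (ph (E := E) y) (e k : FF E Θ) 0)
  (hden : ∀ β : MvPolynomial Θ E, ∃ d ∈ P, (∃ w, w ≠ 0 ∧ Pr (ph (E := E) y) d w) ∧
    d * algebraMap (MvPolynomial Θ E) (FF E Θ) β ∈ P)

/-- The elements of the ideal generated by some of the equations. -/
def JJ (P : Subring (FF E Θ)) {κ : Type} (e : κ → P) (S : Set κ) (z : FF E Θ) : Prop :=
  ∃ u ∈ Ideal.span (e '' S), (u : FF E Θ) = z

lemma JJ.mem {S : Set κ} {z : FF E Θ} (h : JJ P e S z) : z ∈ P := by
  obtain ⟨u, -, rfl⟩ := h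
  exact u.2

lemma JJ.zero {S : Set κ} : JJ P e S 0 := ⟨0, Ideal.zero_mem _, rfl⟩

lemma JJ.add {S : Set κ} {z z' : FF E Θ} (h : JJ P e S z) (h' : JJ P e S z') :
    JJ P e S (z + z') := by
  obtain ⟨u, hu, rfl⟩ := h
  obtain ⟨u', hu', rfl⟩ := h'
  exact ⟨u + u', Ideal.add_mem _ hu hu', rfl⟩

lemma JJ.mul {S : Set κ} {c z : FF E Θ} (hc : c ∈ P) (h : JJ P e S z) : JJ P e S (c * z) := by
  obtain ⟨u, hu, rfl⟩ := h
  exact ⟨⟨c, hc⟩ * u, Ideal.mul_mem_left _ _ hu, rfl⟩

lemma JJ.mono {S S' : Set κ} (hS : S ⊆ S') {z : FF E Θ} (h : JJ P e S z) : JJ P e S' z := by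
  obtain ⟨u, hu, rfl⟩ := h
  exact ⟨u, Ideal.span_mono (Set.image_mono hS) hu, rfl⟩

lemma JJ.of {S : Set κ} {k : κ} (hk : k ∈ S) : JJ P e S (e k) :=
  ⟨e k, Ideal.subset_span ⟨k, hk, rfl⟩, rfl⟩

include hP he in
lemma JJ.prime {S : Set κ} {c d : FF E Θ} (hc : c ∈ P) (hd : d ∈ P) (h : JJ P e S (c * d)) :
    JJ P e S c ∨ JJ P e S d := by
  obtain ⟨u, hu, h⟩ := h
  have h1 : u = ⟨c, hc⟩ * ⟨d, hd⟩ := Subtype.ext h
  rw [h1] at hu
  rcases (span_prime he S).mem_or_mem hu with h2 | h2
  · exact Or.inl ⟨_, h2, rfl⟩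
  · exact Or.inr ⟨_, h2, rfl⟩

include hPA he0 in
lemma JJ.pr {S : Set κ} {z : FF E Θ} (h : JJ P e S z) : Pr (ph (E := E) y) z 0 := by
  obtain ⟨u, hu, rfl⟩ := h
  induction hu using Submodule.span_induction with
  | mem u hu =>
    obtain ⟨k, -, rfl⟩ := hu
    exact he0 k
  | zero => exact Pr.zero
  | add a b _ _ ha hb =>
    have := ha.add hb
    rw [add_zero] at this
    exact this
  | smul a b _ hb =>
    obtain ⟨w, -, hw⟩ := hPA a.2
    have := hw.mul hb
    rw [mul_zero] at this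
    exact this

include hP he in
lemma JJ.not {S : Set κ} {k : κ} (hk : k ∉ S) : ¬ JJ P e S (e k) := by
  rintro ⟨u, hu, h⟩
  rw [Subtype.ext h] at hu
  exact not_mem_span he S k hk hu

/-- The units at the place. -/
def UU (P : Subring (FF E Θ)) (y : Θ → K) (c : FF E Θ) : Prop :=
  c ∈ P ∧ ∃ w, w ≠ 0 ∧ Pr (ph (E := E) y) c w

omit [Fintype Θ] in
lemma UU.mul {c d : FF E Θ} (hc : UU P y c) (hd : UU P y d) : UU P y (c * d) := by
  obtain ⟨h1, w, hw, h2⟩ := hc
  obtain ⟨h3, w', hw', h4⟩ := hd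
  exact ⟨P.mul_mem h1 h3, w * w', mul_ne_zero hw hw', h2.mul h4⟩

omit [Fintype Θ] in
lemma UU.one : UU P y (1 : FF E Θ) := ⟨P.one_mem, 1, one_ne_zero, Pr.one⟩

include hPA he0 in
lemma UU.not {S : Set κ} {c : FF E Θ} (hc : UU P y c) : ¬ JJ P e S c := by
  intro h
  obtain ⟨-, w, hw, h1⟩ := hc
  exact hw (h1.unique (h.pr hPA he0))

/-- The ideals of the polynomial ring. -/
def nn (P : Subring (FF E Θ)) (y : Θ → K) {κ : Type} [Fintype κ] (e : κ → P)
    (hden : ∀ β : MvPolynomial Θ E, ∃ d ∈ P, (∃ w, w ≠ 0 ∧ Pr (ph (E := E) y) d w) ∧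
      d * algebraMap (MvPolynomial Θ E) (FF E Θ) β ∈ P) (S : Set κ) :
    Ideal (MvPolynomial Θ E) where
  carrier := {α | ∃ c, UU P y c ∧ JJ P e S (c * algebraMap (MvPolynomial Θ E) (FF E Θ) α)}
  zero_mem' := ⟨1, UU.one, by rw [map_zero, mul_zero]; exact JJ.zero⟩
  add_mem' := by
    rintro a b ⟨c, hc, h⟩ ⟨d, hd, h'⟩
    refine ⟨c * d, hc.mul hd, ?_⟩
    have h1 : c * d * algebraMap (MvPolynomial Θ E) (FF E Θ) (a + b) =
        d * (c * algebraMap (MvPolynomial Θ E) (FF E Θ) a) +
        c * (d * algebraMap (MvPolynomial Θ E) (FF E Θ) b) := by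
      rw [map_add]; ring
    rw [h1]
    exact (h.mul hd.1).add (h'.mul hc.1)
  smul_mem' := by
    rintro b a ⟨c, hc, h⟩
    obtain ⟨d, hd, hd', h'⟩ := hden b
    refine ⟨c * d, hc.mul ⟨hd, hd'⟩, ?_⟩
    have h1 : c * d * algebraMap (MvPolynomial Θ E) (FF E Θ) (b • a) =
        (d * algebraMap (MvPolynomial Θ E) (FF E Θ) b) *
        (c * algebraMap (MvPolynomial Θ E) (FF E Θ) a) := by
      rw [smul_eq_mul, map_mul]; ring
    rw [h1]
    exact h.mul h'

lemma mem_nn {S : Set κ} {α : MvPolynomial Θ E} : α ∈ nn P y e hden S ↔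
    ∃ c, UU P y c ∧ JJ P e S (c * algebraMap (MvPolynomial Θ E) (FF E Θ) α) := Iff.rfl

include hP hPA he he0

lemma nn_prime (S : Set κ) : (nn P y e hden S).IsPrime := by
  refine ⟨?_, ?_⟩
  · rw [Ideal.ne_top_iff_one]
    rintro ⟨c, hc, h⟩
    rw [map_one, mul_one] at h
    exact hc.not hPA he0 h
  · rintro a b ⟨c, hc, h⟩
    obtain ⟨d, hd, hd', h1⟩ := hden a
    obtain ⟨d', hd2, hd2', h2⟩ := hden b
    have h3 : c * (d * algebraMap (MvPolynomial Θ E) (FF E Θ) a) *
        (d' * algebraMap (MvPolynomial Θ E) (FF E Θ) b) =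
        (d * d') * (c * algebraMap (MvPolynomial Θ E) (FF E Θ) (a * b)) := by
      rw [map_mul]; ring
    have h4 : JJ P e S (c * (d * algebraMap (MvPolynomial Θ E) (FF E Θ) a) *
        (d' * algebraMap (MvPolynomial Θ E) (FF E Θ) b)) := by
      rw [h3]
      exact h.mul (P.mul_mem hd hd2)
    rcases JJ.prime hP he (P.mul_mem hc.1 h1) h2 h4 with h5 | h5
    · rcases JJ.prime hP he hc.1 h1 h5 with h6 | h6
      · exact absurd h6 (hc.not hPA he0)
      · exact Or.inl ⟨d, ⟨hd, hd'⟩, h6⟩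
    · exact Or.inr ⟨d', ⟨hd2, hd2'⟩, h5⟩

lemma nn_lt {S : Set κ} {k : κ} (hk : k ∉ S) :
    nn P y e hden S < nn P y e hden (insert k S) := by
  refine lt_of_le_of_ne ?_ ?_
  · rintro a ⟨c, hc, h⟩
    exact ⟨c, hc, h.mono (Set.subset_insert _ _)⟩
  · intro heq
    obtain ⟨a, b, hb, h1, h2⟩ := he0 k
    obtain ⟨d, hd, hd', h3⟩ := hden b
    have h4 : a ∈ nn P y e hden (insert k S) := by
      refine ⟨d, ⟨hd, hd'⟩, ?_⟩
      rw [← h1]
      have h5 : d * ((e k : FF E Θ) * algebraMap (MvPolynomial Θ E) (FF E Θ) b) =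
          (d * algebraMap (MvPolynomial Θ E) (FF E Θ) b) * e k := by ring
      rw [h5]
      exact (JJ.of (Set.mem_insert _ _)).mul h3
    rw [← heq] at h4
    obtain ⟨c, hc, h5⟩ := h4
    have h6 : JJ P e S (c * (d * algebraMap (MvPolynomial Θ E) (FF E Θ) b) * e k) := by
      have h7 : c * (d * algebraMap (MvPolynomial Θ E) (FF E Θ) b) * e k =
          d * (c * algebraMap (MvPolynomial Θ E) (FF E Θ) a) := by
        rw [← h1]; ring
      rw [h7]
      exact h5.mul hd
    have h7 : UU P y (d * algebraMap (MvPolynomial Θ E) (FF E Θ) b) := by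
      obtain ⟨w, hw, h8⟩ := hd'
      exact ⟨h3, w * ph (E := E) y b, mul_ne_zero hw hb, h8.mul (Pr.alg b)⟩
    rcases JJ.prime hP he (P.mul_mem hc.1 h3) (e k).2 h6 with h8 | h8
    · exact (hc.mul h7).not hPA he0 h8
    · exact JJ.not hP he hk h8

lemma nn_le (S : Set κ) : nn P y e hden S ≤ RingHom.ker (ph (E := E) y) := by
  rintro a ⟨c, ⟨hcP, w, hw, hc⟩, h⟩
  have h1 := (h.pr hPA he0).unique (hc.mul (Pr.alg a))
  rw [RingHom.mem_ker]
  rcases mul_eq_zero.1 h1.symm with h2 | h2
  · exact absurd h2 hw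
  · exact h2

lemma trdeg_nn (S : Finset κ) :
    Algebra.trdeg E (MvPolynomial Θ E ⧸ nn P y e hden (S : Set κ)) + (S.card : Cardinal.{u}) ≤
      Fintype.card Θ := by
  classical
  induction S using Finset.induction_on with
  | empty =>
    rw [Finset.card_empty, Nat.cast_zero, add_zero]
    have h2 := _root_.trdeg_le_of_surjective (R := E)
      (Ideal.Quotient.mkₐ E (nn P y e hden ((∅ : Finset κ) : Set κ)))
      (Ideal.Quotient.mkₐ_surjective E _)
    refine h2.trans ?_
    rw [MvPolynomial.trdeg_of_isDomain]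
    simp
  | insert a S ha ih =>
    have hp := nn_prime hP hPA he he0 hden (S : Set κ)
    have hp' := nn_prime hP hPA he he0 hden ((insert a S : Finset κ) : Set κ)
    have hlt : nn P y e hden (S : Set κ) < nn P y e hden ((insert a S : Finset κ) : Set κ) := by
      rw [Finset.coe_insert]
      exact nn_lt hP hPA he he0 hden (by simpa using ha)
    have h2 : Algebra.trdeg E (MvPolynomial Θ E ⧸ nn P y e hden (S : Set κ)) <
        Cardinal.aleph0 := (le_self_add.trans ih).trans_lt (Cardinal.natCast_lt_aleph0)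
    have h3 := Cardinal.add_one_le_of_lt (Pool.Agent.W418.LCI.trdeg_quot_lt hlt h2)
    rw [Finset.card_insert_of_notMem ha]
    push_cast
    calc Algebra.trdeg E (MvPolynomial Θ E ⧸ nn P y e hden ((insert a S : Finset κ) : Set κ)) +
          ((S.card : Cardinal.{u}) + 1)
        = (Algebra.trdeg E (MvPolynomial Θ E ⧸ nn P y e hden ((insert a S : Finset κ) : Set κ))
            + 1) + (S.card : Cardinal.{u}) := by
          rw [add_comm (S.card : Cardinal.{u}) 1, ← add_assoc]
      _ ≤ Algebra.trdeg E (MvPolynomial Θ E ⧸ nn P y e hden (S : Set κ)) +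
          (S.card : Cardinal.{u}) := add_le_add_left h3 _
      _ ≤ Fintype.card Θ := ih

include hden in
/-- The kernel of the reduction is generated by the equations. -/
theorem ker_le (hfr : ∀ z : K, ∃ a b : MvPolynomial Θ E, ph (E := E) y b ≠ 0 ∧
    z * ph (E := E) y b = ph (E := E) y a)
    (htr : Algebra.trdeg E K + (Fintype.card κ : Cardinal.{u}) = Fintype.card Θ)
    (z : P) (hz : Pr (ph (E := E) y) (z : FF E Θ) 0) : z ∈ Ideal.span (Set.range e) := by
  classical
  have hp := nn_prime hP hPA he he0 hden ((Finset.univ : Finset κ) : Set κ)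
  have hle := nn_le hP hPA he he0 hden ((Finset.univ : Finset κ) : Set κ)
  have h1 := trdeg_nn hP hPA he he0 hden Finset.univ
  have h2 : Algebra.trdeg E (MvPolynomial Θ E ⧸ nn P y e hden
      ((Finset.univ : Finset κ) : Set κ)) < Cardinal.aleph0 :=
    (le_self_add.trans h1).trans_lt (Cardinal.natCast_lt_aleph0)
  have hker : RingHom.ker (ph (E := E) y) ≤
      nn P y e hden ((Finset.univ : Finset κ) : Set κ) := by
    by_contra hcon
    obtain ⟨b, hb, hbn⟩ := SetLike.not_le_iff_exists.1 hcon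
    let φ' : (MvPolynomial Θ E ⧸ nn P y e hden ((Finset.univ : Finset κ) : Set κ)) →ₐ[E] K :=
      Ideal.Quotient.liftₐ _ (MvPolynomial.aeval y)
      (fun a ha => RingHom.mem_ker.1 (hle ha))
    have hφ' : ∀ a, φ' (Ideal.Quotient.mk _ a) = ph (E := E) y a := fun a => rfl
    have h3 : Algebra.trdeg E K < Algebra.trdeg E (MvPolynomial Θ E ⧸ nn P y e hden
        ((Finset.univ : Finset κ) : Set κ)) := by
      refine Pool.Agent.W418.LCI.trdeg_lt φ' ?_ h2 (b := Ideal.Quotient.mk _ b) ?_ ?_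
      · refine ⟨fun x => ?_⟩
        obtain ⟨a, b, hb, h⟩ := hfr x
        have ha : ph (E := E) y a ∈ Algebra.adjoin E (Set.range φ') :=
          Algebra.subset_adjoin ⟨Ideal.Quotient.mk _ a, hφ' a⟩
        have hb' : ph (E := E) y b ∈ Algebra.adjoin E (Set.range φ') :=
          Algebra.subset_adjoin ⟨Ideal.Quotient.mk _ b, hφ' b⟩
        have h4 := isAlgebraic_algebraMap (R := Algebra.adjoin E (Set.range φ')) (A := K)
          ⟨_, ha⟩
        have h5 := isAlgebraic_algebraMap (R := Algebra.adjoin E (Set.range φ')) (A := K)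
          ⟨_, hb'⟩
        have h6 : x = ph (E := E) y a * (ph (E := E) y b)⁻¹ := by
          rw [← h, mul_inv_cancel_right₀ hb]
        rw [h6]
        exact h4.mul h5.inv
      · rw [ne_eq, Ideal.Quotient.eq_zero_iff_mem]
        exact hbn
      · rw [hφ']
        exact RingHom.mem_ker.1 hb
    have h4 := Cardinal.add_one_le_of_lt h3
    rw [Finset.card_univ] at h1
    have h5 : ((Fintype.card Θ + 1 : ℕ) : Cardinal.{u}) ≤
        ((Fintype.card Θ : ℕ) : Cardinal.{u}) := by
      push_cast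
      calc ((Fintype.card Θ : ℕ) : Cardinal.{u}) + 1 =
            (Algebra.trdeg E K + 1) + (Fintype.card κ : Cardinal.{u}) := by
            rw [← htr, add_assoc, add_comm (Fintype.card κ : Cardinal.{u}) 1, ← add_assoc]
        _ ≤ Algebra.trdeg E (MvPolynomial Θ E ⧸ nn P y e hden
              ((Finset.univ : Finset κ) : Set κ)) + (Fintype.card κ : Cardinal.{u}) :=
            add_le_add_left h4 _
        _ ≤ _ := h1
    have h6 : Fintype.card Θ + 1 ≤ Fintype.card Θ := by exact_mod_cast h5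
    omega
  obtain ⟨a, b, hb, h3, h4⟩ := hz
  rw [zero_mul] at h4
  obtain ⟨c, hc, h5⟩ := hker (RingHom.mem_ker.2 h4.symm)
  obtain ⟨d, hd, hd', h6⟩ := hden b
  have h7 : UU P y (d * algebraMap (MvPolynomial Θ E) (FF E Θ) b) := by
    obtain ⟨w, hw, h8⟩ := hd'
    exact ⟨h6, w * ph (E := E) y b, mul_ne_zero hw hb, h8.mul (Pr.alg b)⟩
  have h8 : JJ P e ((Finset.univ : Finset κ) : Set κ)
      (c * (d * algebraMap (MvPolynomial Θ E) (FF E Θ) b) * z) := by
    have h9 : c * (d * algebraMap (MvPolynomial Θ E) (FF E Θ) b) * (z : FF E Θ) =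
        d * (c * algebraMap (MvPolynomial Θ E) (FF E Θ) a) := by
      rw [← h3]; ring
    rw [h9]
    exact h5.mul hd
  rcases JJ.prime hP he (P.mul_mem hc.1 h6) z.2 h8 with h9 | h9
  · exact absurd h9 ((hc.mul h7).not hPA he0)
  · obtain ⟨u, hu, h10⟩ := h9
    rw [Subtype.ext h10] at hu
    rw [Finset.coe_univ, Set.image_univ] at hu
    exact hu

end ker

end Pool.Agent.W418.LU2
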