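import Pool.Agent.H59.L.S8.W418.LU2.Base

/-!
# Valuations on Dedekind rings
-/

set_option autoImplicit false
set_option linter.unusedVariables false
set_option linter.unusedSectionVars false

universe u v

namespace Pool.Agent.W418.LU2

open IsLocalRing

variable {E : Type u} [Field E]

/-- The local rings of Dedekind rings. -/
theorem ded_stage (W : ValuationSubring E) (R : Subring E) [IsDedekindDomain R]
    (hRW : R ≤ W.toSubring) (hfr : ∀ z : E, ∃ a ∈ R, ∃ b ∈ R, b ≠ 0 ∧ z = a * b⁻¹) :
    ∃ (ι : Type) (_ : Fintype ι) (x : ι → E), RegP W.toSubring (lo W.toSubring R) x ∧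
      (∀ z : E, z ≠ 0 → PMon (lo W.toSubring R) x z) ∧
      ∀ z : E, z ∈ lo W.toSubring R ∨ z⁻¹ ∈ lo W.toSubring R := by
  classical
  set P := lo W.toSubring R with hP
  have hRP : R ≤ P := le_lo _ R
  let _ : Algebra R P := (Subring.inclusion hRP).toAlgebra
  have halg : ∀ a : R, ((algebraMap R P a : P) : E) = a := fun a => rfl
  have hloc : IsLocalRing P := isLocalRing_lo (loc_V W) hRW
  let 𝔭 : Ideal R := (maximalIdeal P).comap (algebraMap R P)
  have hu : ∀ a : R, a ∉ 𝔭 ↔ IsUnit (algebraMap R P a) := by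
    intro a
    change ¬ (algebraMap R P a ∈ maximalIdeal P) ↔ _
    rw [mem_maximalIdeal, mem_nonunits_iff, not_not]
  have hprime : 𝔭.IsPrime := Ideal.IsPrime.comap _
  have hL : IsLocalization.AtPrime P 𝔭 :=
    { map_units := fun y => (hu y.1).1 y.2
      surj := by
        rintro ⟨z, a, ha, b, hb, hb0, hbW, rfl⟩
        refine ⟨(⟨a, ha⟩, ⟨⟨b, hb⟩, ?_⟩), ?_⟩
        · change (⟨b, hb⟩ : R) ∉ 𝔭
          rw [hu, isUnit_lo_iff hRW]
          exact ⟨hb0, hbW⟩
        · apply Subtype.ext
          change a * b⁻¹ * b = a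
          rw [mul_assoc, inv_mul_cancel₀ hb0, mul_one]
      exists_of_eq := by
        intro a b h
        refine ⟨1, ?_⟩
        have h1 : a = b := Subtype.ext (congrArg (Subtype.val : P → E) h)
        rw [h1] }
  have hD : IsDedekindDomain P := IsLocalization.AtPrime.isDedekindDomain R 𝔭 P
  have hPID : IsPrincipalIdealRing P := by
    apply IsPrincipalIdealRing.of_finite_maximals
    refine (Set.finite_singleton (maximalIdeal P)).subset ?_
    intro I hI
    exact eq_maximalIdeal hI
  have hreg : IsRegularLocalRing P := inferInstance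
  obtain ⟨ϖ, hϖ⟩ : ∃ ϖ : P, maximalIdeal P = Ideal.span {ϖ} :=
    ⟨_, ((maximalIdeal P).span_singleton_generator).symm⟩
  by_cases h0 : ϖ = 0
  · -- the field
    have hunit : ∀ z : P, z ≠ 0 → IsUnit z := by
      intro z hz
      by_contra h
      have h1 : z ∈ maximalIdeal P := (mem_maximalIdeal z).2 h
      rw [hϖ, h0, Ideal.mem_span_singleton, zero_dvd_iff] at h1
      exact hz h1
    have hall : ∀ z : E, z ≠ 0 → z ∈ P ∧ z⁻¹ ∈ P := by
      intro z hz
      obtain ⟨a, ha, b, hb, hb0, rfl⟩ := hfr z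
      have ha0 : a ≠ 0 := left_ne_zero_of_mul hz
      have h1 := (isUnit_lo_iff hRW (⟨a, hRP ha⟩ : P)).1
        (hunit _ fun h => ha0 (congrArg Subtype.val h))
      have h2 := (isUnit_lo_iff hRW (⟨b, hRP hb⟩ : P)).1
        (hunit _ fun h => hb0 (congrArg Subtype.val h))
      have h3 := inv_mem_lo hRW (hRP ha) ha0 h1.2
      have h4 := inv_mem_lo hRW (hRP hb) hb0 h2.2
      refine ⟨P.mul_mem (hRP ha) h4, ?_⟩
      rw [mul_inv, inv_inv]
      exact P.mul_mem h3 (hRP hb)
    refine ⟨Empty, inferInstance, Empty.elim, ?_, ?_, ?_⟩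
    · exact
        { PA := lo_le hRW
          ne := fun i => i.elim
          mem := fun i => i.elim
          reg := hreg
          inv := fun z hz h0 h1 => inv_mem_lo hRW hz h0 h1
          ind := fun c _ _ i => i.elim }
    · intro z hz
      exact ⟨z, hz, (hall z hz).1, (hall z hz).2, 0, by rw [mo_zero, mul_one]⟩
    · intro z
      by_cases hz : z = 0
      · left; rw [hz]; exact P.zero_mem
      · exact Or.inl (hall z hz).1
  · -- the discrete valuation ring
    have hnf : maximalIdeal P ≠ ⊥ := by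
      rw [hϖ, Ne, Ideal.span_singleton_eq_bot]
      exact h0
    have hDVR : IsDiscreteValuationRing P := { not_a_field' := hnf }
    have hirr : Irreducible ϖ := (IsDiscreteValuationRing.irreducible_iff_uniformizer ϖ).2 hϖ
    have h0' : (ϖ : E) ≠ 0 := fun h => h0 (Subtype.ext h)
    have hpm : ∀ z : P, z ≠ 0 → PMon P (fun _ : Unit => (ϖ : E)) z := by
      intro z hz
      obtain ⟨n, u, hn⟩ := IsDiscreteValuationRing.eq_unit_mul_pow_irreducible hz hirr
      have h1 := (isUnit_lo_iff hRW (u : P)).1 u.isUnit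
      refine ⟨((u : P) : E), h1.1, (u : P).2, inv_mem_lo hRW (u : P).2 h1.1 h1.2,
        fun _ => (n : ℤ), ?_⟩
      rw [hn]
      change ((u : P) : E) * (ϖ : E) ^ n = _
      unfold mo
      rw [Fintype.prod_unique, zpow_natCast]
    have hpm' : ∀ z : E, z ≠ 0 → PMon P (fun _ : Unit => (ϖ : E)) z := by
      intro z hz
      obtain ⟨a, ha, b, hb, hb0, rfl⟩ := hfr z
      have ha0 : a ≠ 0 := left_ne_zero_of_mul hz
      exact (hpm ⟨a, hRP ha⟩ fun h => ha0 (congrArg Subtype.val h)).mul (fun _ => h0')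
        (hpm ⟨b, hRP hb⟩ fun h => hb0 (congrArg Subtype.val h)).inv
    refine ⟨Unit, inferInstance, fun _ => (ϖ : E), ?_, hpm', ?_⟩
    · refine
        { PA := lo_le hRW
          ne := fun i => h0'
          mem := fun i => ϖ.2
          reg := hreg
          inv := fun z hz h0 h1 => inv_mem_lo hRW hz h0 h1
          ind := ?_ }
      intro c _ hs i
      rw [Fintype.sum_unique, hϖ, Ideal.span_singleton_pow, Ideal.mem_span_singleton] at hs
      obtain ⟨e, he⟩ := hs
      rw [hϖ, Ideal.mem_span_singleton]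
      refine ⟨e, mul_right_cancel₀ h0 ?_⟩
      change c i * (⟨ϖ, ϖ.2⟩ : P) = ϖ * e * ϖ
      have h1 : c i = c default := by rfl
      rw [h1, he]
      ring
    · intro z
      by_cases hz : z = 0
      · left; rw [hz]; exact P.zero_mem
      · obtain ⟨u, u0, u1, u2, δ, rfl⟩ := hpm' z hz
        have hmo : mo (fun _ : Unit => (ϖ : E)) δ = (ϖ : E) ^ δ () := by
          unfold mo
          rw [Fintype.prod_unique]
        rw [hmo]
        rcases Int.eq_nat_or_neg (δ ()) with ⟨n, h3 | h3⟩
        · left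
          rw [h3, zpow_natCast]
          exact P.mul_mem u1 (P.pow_mem ϖ.2 n)
        · right
          rw [h3, zpow_neg, zpow_natCast, mul_inv, inv_inv]
          exact P.mul_mem u2 (P.pow_mem ϖ.2 n)

/-- Valuations on Dedekind rings are log uniformizable. -/
theorem logUnif_of_dedekind (W : ValuationSubring E) (R : Subring E) [IsDedekindDomain R]
    (hRW : R ≤ W.toSubring) (hfr : ∀ z : E, ∃ a ∈ R, ∃ b ∈ R, b ≠ 0 ∧ z = a * b⁻¹) :
    LogUnif W R := by
  classical
  obtain ⟨ι, _, x, hreg, hmon, hval⟩ := ded_stage W R hRW hfr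
  have hWP : ∀ z ∈ W, z ∈ lo W.toSubring R := by
    intro z hz
    rcases hval z with h | h
    · exact h
    · by_cases hz0 : z = 0
      · rw [hz0]; exact Subring.zero_mem _
      · have h1 := inv_mem_lo hRW h (inv_ne_zero hz0) (by rw [inv_inv]; exact hz)
        rwa [inv_inv] at h1
  intro D I₀ hD hI₀
  obtain ⟨S, hS⟩ := (IsNoetherian.noetherian D : D.FG)
  obtain ⟨S', hS'⟩ := (IsNoetherian.noetherian I₀ : I₀.FG)
  have hS : Ideal.span (S : Set R) = D := hS
  have hS' : Ideal.span (S' : Set R) = I₀ := hS'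
  obtain ⟨d, hdS, hd0, hd⟩ := exists_gen W hRW S.finite_toSet (by rw [hS]; exact hD)
  obtain ⟨f, hfS, hf0, hf⟩ := exists_gen W hRW S'.finite_toSet (by rw [hS']; exact hI₀)
  rw [hS] at hd
  rw [hS'] at hf
  have hdD : d ∈ D := by rw [← hS]; exact Ideal.subset_span hdS
  have hfI : f ∈ I₀ := by rw [← hS']; exact Ideal.subset_span hfS
  refine ⟨⊤, ?_, ?_⟩
  · intro h
    have h1 : (1 : R) ∈ (⊤ : Ideal R) := trivial
    rw [h, Ideal.mem_bot] at h1
    exact one_ne_zero h1
  rw [Ideal.mul_top]
  refine logDesing_of hfI hf0 hf hdD hd0 ?_ hreg (fun a ha => hWP _ (hd a ha)) (hmon _ ?_)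
  · refine lo_eq hRW (fun a ha => Subring.subset_closure (Or.inl ha)) ?_
    unfold chart
    rw [Subring.closure_le]
    rintro z (hz | ⟨a, ha, rfl⟩)
    · exact le_lo _ _ hz
    · exact hWP _ (hf a ha)
  · exact mul_ne_zero (fun h => hd0 (Subtype.ext h)) (fun h => hf0 (Subtype.ext h))

end Pool.Agent.W418.LU2
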