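import Pool.Agent.H59.L.S8.H379R3.Reg

/-!
# Parts of regular systems of parameters
-/

set_option autoImplicit false
set_option linter.unusedVariables false

universe u v

namespace Pool.Agent.W418.LU2

open IsLocalRing Module

section basic

variable {B : Type u} [CommRing B] [IsLocalRing B]

/-- The elements are linearly independent in the cotangent space. -/
def Ind {ι : Type v} [Fintype ι] (z : ι → B) : Prop :=
  (∀ i, z i ∈ maximalIdeal B) ∧
    ∀ c : ι → B, ∑ i, c i * z i ∈ maximalIdeal B ^ 2 → ∀ i, c i ∈ maximalIdeal B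

lemma sum_cot {ι : Type v} [Fintype ι] {z : ι → B} (hz : ∀ i, z i ∈ maximalIdeal B)
    (c : ι → B) : ∑ i, residue B (c i) • (maximalIdeal B).toCotangent ⟨z i, hz i⟩ =
      (0 : CotangentSpace B) ↔ ∑ i, c i * z i ∈ maximalIdeal B ^ 2 := by
  have h1 : ∀ i, residue B (c i) • (maximalIdeal B).toCotangent ⟨z i, hz i⟩ =
      ((maximalIdeal B).toCotangent (c i • ⟨z i, hz i⟩) : CotangentSpace B) := by
    intro i
    rw [map_smul]
    rfl
  rw [Finset.sum_congr rfl fun i _ => h1 i, ← map_sum, Ideal.toCotangent_eq_zero]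
  have h2 : ((∑ i, c i • (⟨z i, hz i⟩ : maximalIdeal B) : maximalIdeal B) : B) =
      ∑ i, c i * z i := by
    rw [AddSubmonoidClass.coe_finsetSum]
    rfl
  rw [h2]

theorem ind_iff {ι : Type v} [Fintype ι] {z : ι → B} (hz : ∀ i, z i ∈ maximalIdeal B) :
    Ind z ↔ LinearIndependent (ResidueField B)
      (fun i => ((maximalIdeal B).toCotangent ⟨z i, hz i⟩ : CotangentSpace B)) := by
  rw [Fintype.linearIndependent_iff]
  constructor
  · rintro ⟨-, h⟩ g hg i
    choose c hc using fun i => residue_surjective (R := B) (g i)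
    have h1 : ∑ i, c i * z i ∈ maximalIdeal B ^ 2 := by
      rw [← sum_cot hz, ← hg]
      exact Finset.sum_congr rfl fun i _ => by rw [hc]
    have h2 := h c h1 i
    rw [← hc i]
    exact (residue_eq_zero_iff _).2 h2
  · intro h
    refine ⟨hz, fun c hc i => ?_⟩
    exact (residue_eq_zero_iff _).1 (h (fun i => residue B (c i)) ((sum_cot hz c).2 hc) i)

theorem Ind.comp {ι κ : Type v} [Fintype ι] [Fintype κ] {z : ι → B} (h : Ind z) (f : κ → ι)
    (hf : Function.Injective f) : Ind (z ∘ f) :=
  (ind_iff (fun i => h.1 (f i))).2 (((ind_iff h.1).1 h).comp f hf)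

theorem Ind.ne_zero {ι : Type v} [Fintype ι] {z : ι → B} (h : Ind z) (i : ι) : z i ≠ 0 := by
  classical
  intro h0
  have h1 := h.2 (Pi.single i 1) (by
    rw [Finset.sum_eq_single i]
    · rw [h0, mul_zero]
      exact Ideal.zero_mem _
    · intro j _ hj
      rw [Pi.single_eq_of_ne hj, zero_mul]
    · intro h; exact absurd (Finset.mem_univ _) h) i
  rw [Pi.single_eq_same] at h1
  exact (Ideal.ne_top_iff_one _).1 (maximalIdeal.isMaximal B).ne_top h1

end basic

section reg

variable {B : Type u} [CommRing B] [IsRegularLocalRing B]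

/-- Minimal systems of generators are independent. -/
theorem ind_of_span {ι : Type v} [Fintype ι] {w : ι → B}
    (hw : Ideal.span (Set.range w) = maximalIdeal B)
    (hc : ((Fintype.card ι : ℕ) : WithBot ℕ∞) ≤ ringKrullDim B) : Ind w := by
  have hz : ∀ i, w i ∈ maximalIdeal B := fun i => by
    rw [← hw]; exact Ideal.subset_span ⟨i, rfl⟩
  rw [ind_iff hz]
  have h1 : Submodule.span (ResidueField B) (Set.range
      fun i => ((maximalIdeal B).toCotangent ⟨w i, hz i⟩ : CotangentSpace B)) = ⊤ := by
    have h2 : Submodule.span B (Set.range fun i => (⟨w i, hz i⟩ : maximalIdeal B)) = ⊤ := by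
      apply Submodule.map_injective_of_injective (maximalIdeal B).subtype_injective
      rw [Submodule.map_span, ← Set.range_comp, Submodule.map_top, Submodule.range_subtype]
      exact hw
    have h3 := CotangentSpace.span_image_eq_top_iff.2 h2
    rw [← Set.range_comp] at h3
    exact h3
  have h4 : Fintype.card ι = Module.finrank (ResidueField B) (CotangentSpace B) := by
    apply le_antisymm
    · have h5 := Pool.Agent.H379R3.finrank_cotangent (B := B)
      rw [← h5] at hc
      exact_mod_cast hc
    · have h5 := finrank_range_le_card (R := ResidueField B)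
        (fun i => ((maximalIdeal B).toCotangent ⟨w i, hz i⟩ : CotangentSpace B))
      rw [Set.finrank, h1, finrank_top] at h5
      exact h5
  exact linearIndependent_of_top_le_span_of_card_eq_finrank h1.ge h4

/-- Extension to a regular system of parameters. -/
theorem Ind.extend {ι : Type v} [Fintype ι] {z : ι → B} (h : Ind z) :
    ∃ (m : ℕ) (w : Fin m → B), Ideal.span (Set.range (Sum.elim z w)) = maximalIdeal B ∧
      ringKrullDim B = ((Fintype.card ι + m : ℕ) : WithBot ℕ∞) := by
  classical
  let K := ResidueField B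
  let V := CotangentSpace B
  let v : ι → V := fun i => (maximalIdeal B).toCotangent ⟨z i, h.1 i⟩
  have hv : LinearIndependent K v := (ind_iff h.1).1 h
  obtain ⟨W, hW⟩ := Submodule.exists_isCompl (Submodule.span K (Set.range v))
  let b1 := Basis.span hv
  let b2 := Module.finBasis K W
  let b : Basis (ι ⊕ Fin (Module.finrank K W)) K V :=
    (b1.prod b2).map (Submodule.prodEquivOfIsCompl _ _ hW)
  have hb1 : ∀ i, b (Sum.inl i) = v i := by
    intro i
    simp [b, b1, Basis.span_apply]
  choose z' hz' using fun i => Ideal.toCotangent_surjective (maximalIdeal B) (b i)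
  let y : ι ⊕ Fin (Module.finrank K W) → maximalIdeal B :=
    Sum.elim (fun i => ⟨z i, h.1 i⟩) fun i => z' (Sum.inr i)
  have hy : ∀ i, (maximalIdeal B).toCotangent (y i) = b i := by
    rintro (i | i)
    · exact (hb1 i).symm
    · exact hz' _
  refine ⟨Module.finrank K W, fun i => z' (Sum.inr i), ?_, ?_⟩
  · have h1 := Pool.Agent.H379R3.span_of_basis b y hy
    have h2 : (fun i => (y i : B)) = Sum.elim z fun i => (z' (Sum.inr i) : B) := by
      funext i
      rcases i with i | i <;> rfl
    rw [h2] at h1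
    exact h1
  · rw [← Pool.Agent.H379R3.finrank_cotangent (B := B), Module.finrank_eq_card_basis b,
      Fintype.card_sum, Fintype.card_fin]

omit [IsRegularLocalRing B] in
lemma ncard_range_le {m : ℕ} {X : Type v} (f : Fin m → X) : (Set.range f).ncard ≤ m := by
  rw [← Set.image_univ]
  refine (Set.ncard_image_le (Set.finite_univ (α := Fin m))).trans ?_
  rw [Set.ncard_univ, Nat.card_eq_fintype_card, Fintype.card_fin]

omit [IsRegularLocalRing B] in
lemma aux_dim (a m : ℕ) (x : WithBot ℕ∞) (h : ((a + m : ℕ) : WithBot ℕ∞) ≤ x + ((a : ℕ) :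
    WithBot ℕ∞)) : ((m : ℕ) : WithBot ℕ∞) ≤ x := by
  induction x with
  | bot => simp at h
  | coe x =>
    induction x with
    | top => exact le_top
    | coe n =>
      have h1 : a + m ≤ n + a := by exact_mod_cast h
      have h2 : m ≤ n := by omega
      exact_mod_cast h2

/-- The quotient by a part of a regular system of parameters. -/
theorem Ind.regular {ι : Type v} [Fintype ι] {z : ι → B} (h : Ind z) :
    IsRegularLocalRing (B ⧸ Ideal.span (Set.range z)) := by
  classical
  obtain ⟨m, w, hw, hd⟩ := h.extend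
  have hne : Ideal.span (Set.range z) ≠ ⊤ := by
    intro h1
    have h2 : Ideal.span (Set.range z) ≤ maximalIdeal B := by
      rw [Ideal.span_le]
      rintro _ ⟨i, rfl⟩
      exact h.1 i
    rw [h1] at h2
    exact (maximalIdeal.isMaximal B).ne_top (top_le_iff.1 h2)
  have hnt : Nontrivial (B ⧸ Ideal.span (Set.range z)) := Ideal.Quotient.nontrivial_iff.2 hne
  have hloc : IsLocalRing (B ⧸ Ideal.span (Set.range z)) :=
    IsLocalRing.of_surjective' (Ideal.Quotient.mk _) Ideal.Quotient.mk_surjective
  apply IsRegularLocalRing.of_spanFinrank_maximalIdeal_le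
  -- the generators of the maximal ideal
  have h1 : maximalIdeal (B ⧸ Ideal.span (Set.range z)) =
      Ideal.span (Set.range fun i => Ideal.Quotient.mk (Ideal.span (Set.range z)) (w i)) := by
    rw [← Pool.Agent.H379R3.map_mk_maximalIdeal, ← hw, Ideal.map_span]
    apply le_antisymm
    · rw [Ideal.span_le]
      rintro _ ⟨_, ⟨i | i, rfl⟩, rfl⟩
      · have : Ideal.Quotient.mk (Ideal.span (Set.range z)) (Sum.elim z w (Sum.inl i)) = 0 :=
          Ideal.Quotient.eq_zero_iff_mem.2 (Ideal.subset_span ⟨i, rfl⟩)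
        rw [this]
        exact Ideal.zero_mem _
      · exact Ideal.subset_span ⟨i, rfl⟩
    · rw [Ideal.span_le]
      rintro _ ⟨i, rfl⟩
      exact Ideal.subset_span ⟨_, ⟨Sum.inr i, rfl⟩, rfl⟩
  have h2 : (maximalIdeal (B ⧸ Ideal.span (Set.range z))).spanFinrank ≤ m := by
    rw [h1]
    refine (Submodule.spanFinrank_span_le_ncard_of_finite (Set.finite_range _)).trans ?_
    exact ncard_range_le _
  have h3 := ringKrullDim_le_ringKrullDim_quotient_add_encard (Set.range z) (by
    rw [IsLocalRing.ringJacobson_eq_maximalIdeal]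
    rintro _ ⟨i, rfl⟩
    exact h.1 i)
  have h4 : (Set.range z).encard ≤ ((Fintype.card ι : ℕ) : ℕ∞) := by
    rw [← Set.image_univ]
    refine (Set.encard_image_le _ _).trans ?_
    rw [Set.encard_univ, ENat.card_eq_coe_fintype_card]
  have h5 : ((Fintype.card ι + m : ℕ) : WithBot ℕ∞) ≤
      ringKrullDim (B ⧸ Ideal.span (Set.range z)) + ((Fintype.card ι : ℕ) : WithBot ℕ∞) := by
    rw [← hd]
    refine h3.trans (add_le_add le_rfl ?_)
    exact_mod_cast h4
  refine le_trans (b := ((m : ℕ) : WithBot ℕ∞)) (by exact_mod_cast h2) ?_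
  exact aux_dim _ _ _ h5

end reg

section quot

variable {B C : Type u} [CommRing B] [IsLocalRing B] [CommRing C] [IsLocalRing C]

lemma mem_max_of_surj (θ : B →+* C) (hθ : Function.Surjective θ) {b : B}
    (h : b ∈ maximalIdeal B) : θ b ∈ maximalIdeal C := by
  have h1 : (maximalIdeal B).map θ ≠ ⊤ ∨ (maximalIdeal B).map θ = ⊤ := by tauto
  rw [mem_maximalIdeal, mem_nonunits_iff] at h ⊢
  intro hu
  apply h
  obtain ⟨c, hc⟩ := isUnit_iff_exists_inv.1 hu
  obtain ⟨d, rfl⟩ := hθ c
  by_contra hb
  have h2 : θ (1 - b * d) = 0 := by rw [map_sub, map_mul, hc, map_one, sub_self]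
  have h3 : IsUnit (1 - b * d) := by
    by_contra h4
    have h5 : b * d ∈ maximalIdeal B :=
      (maximalIdeal B).mul_mem_right d ((mem_maximalIdeal b).2 hb)
    have h6 : (1 - b * d) ∈ maximalIdeal B := (mem_maximalIdeal _).2 h4
    have h7 := (maximalIdeal B).add_mem h6 h5
    rw [sub_add_cancel] at h7
    exact (Ideal.ne_top_iff_one _).1 (maximalIdeal.isMaximal B).ne_top h7
  have h4 := h3.map θ
  rw [h2] at h4
  exact not_isUnit_zero h4

/-- Independence in the quotient. -/
theorem Ind.quot {ι κ : Type v} [Fintype ι] [Fintype κ] {z : ι → B} {h : κ → B}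
    (hz : Ind (Sum.elim z h)) (θ : B →+* C) (hθ : Function.Surjective θ)
    (hk : RingHom.ker θ = Ideal.span (Set.range h)) : Ind (fun i => θ (z i)) := by
  refine ⟨fun i => mem_max_of_surj θ hθ (hz.1 (Sum.inl i)), fun c hc i => ?_⟩
  choose c' hc' using fun i => hθ (c i)
  have h1 : θ (∑ i, c' i * z i) ∈ maximalIdeal C ^ 2 := by
    rw [map_sum]
    simp only [map_mul, hc']
    exact hc
  have h2 : maximalIdeal C = (maximalIdeal B).map θ := by
    apply le_antisymm
    · intro x hx
      obtain ⟨b, rfl⟩ := hθ x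
      by_cases hb : b ∈ maximalIdeal B
      · exact Ideal.mem_map_of_mem θ hb
      · exfalso
        rw [mem_maximalIdeal, mem_nonunits_iff, not_not] at hb
        exact hx (hb.map θ)
    · rw [Ideal.map_le_iff_le_comap]
      intro b hb
      exact mem_max_of_surj θ hθ hb
  rw [h2, ← Ideal.map_pow, Ideal.mem_map_iff_of_surjective θ hθ] at h1
  obtain ⟨y, hy, hy'⟩ := h1
  have h3 : ∑ i, c' i * z i - y ∈ RingHom.ker θ := by
    rw [RingHom.mem_ker, map_sub, hy', sub_self]
  rw [hk, Ideal.mem_span_range_iff_exists_fun] at h3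
  obtain ⟨e, he⟩ := h3
  have h4 := hz.2 (Sum.elim c' fun j => - e j) (by
    rw [Fintype.sum_sum_type]
    simp only [Sum.elim_inl, Sum.elim_inr, neg_mul, Finset.sum_neg_distrib]
    rw [he]
    have : ∑ i, c' i * z i + -(∑ i, c' i * z i - y) = y := by ring
    rw [this]
    exact hy) (Sum.inl i)
  rw [← hc' i]
  exact mem_max_of_surj θ hθ h4

end quot

end Pool.Agent.W418.LU2
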