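import Pool.Agent.H59.L.S8.W418.LU2.Main
import Pool.Agent.H59.L.S8.W418.Lin.Space
import Pool.Agent.H59.L.S8.W558.Tower

/-!
# The equations of sums of products of linear forms
-/

set_option autoImplicit false
set_option linter.unusedVariables false
set_option linter.unusedSectionVars false

universe u v

namespace Pool.Agent.W418.LU2

open IsLocalRing Pool.Agent.W418.Lin

lemma PMon.neg_one {F : Type u} [Field F] {ι : Type} [Fintype ι] {P : Subring F} {x : ι → F} :
    PMon P x (-1) :=
  ⟨-1, neg_ne_zero.2 one_ne_zero, P.neg_mem P.one_mem, by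
    rw [inv_neg, inv_one]; exact P.neg_mem P.one_mem, 0, by rw [mo_zero, mul_one]⟩

/-- Recursive systems of equations. -/
lemma exists_rec_lin {F : Type u} [CommRing F] {r : ℕ} (g : Fin r → F) (A : Fin r → Fin r → ℕ)
    (hA : ∀ j l, A j l ≠ 0 → l < j) : ∃ s : Fin r → F, ∀ j, s j = g j + ∑ l, (A j l : F) * s l := by
  let s : Fin r → F := WellFounded.fix (C := fun _ => F) (wellFounded_lt : WellFounded
    (fun a b : Fin r => a < b)) fun j ih =>
      g j + ∑ l, (A j l : F) * (if h : l < j then ih l h else 0)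
  refine ⟨s, fun j => ?_⟩
  have h1 : s j = g j + ∑ l, (A j l : F) * (if h : l < j then s l else 0) :=
    WellFounded.fix_eq _ _ _
  rw [h1]
  congr 1
  refine Finset.sum_congr rfl fun l _ => ?_
  by_cases h : A j l = 0
  · rw [h, Nat.cast_zero, zero_mul, zero_mul]
  · rw [dif_pos (hA j l h)]

section

variable {E K : Type u} [Field E] [Field K] [Algebra E K] {N n r : ℕ} {Λ : Type} [Fintype Λ]

/-- The linear relations between linear forms respect the blocks. -/
lemma pl_blk [DecidableEq Λ] {blk : Fin N → Fin n} {v : Λ → Fin N → E} {bl : Λ → Fin n}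
    (hvb : ∀ q i, v q i ≠ 0 → blk i = bl q) {σ : Fin N → Λ} (hσ : pl v σ ≠ 0) (q : Λ) (i : Fin N)
    (hi : pl v (Function.update σ i q) ≠ 0) : bl (σ i) = bl q := by
  by_contra hne
  let A : Matrix (Fin N) (Fin N) E := fun i => v (σ i)
  let c : Fin N → E := fun i => if bl (σ i) = bl q then 0 else pl v (Function.update σ i q)
  have h1 : Matrix.vecMul c A = 0 := by
    funext l
    change ∑ i, c i * v (σ i) l = 0
    by_cases hl : blk l = bl q
    · refine Finset.sum_eq_zero fun i _ => ?_
      by_cases h2 : bl (σ i) = bl q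
      · have : c i = 0 := if_pos h2
        rw [this, zero_mul]
      · have h3 : v (σ i) l = 0 := by
          by_contra h4
          exact h2 ((hvb _ _ h4).symm.trans hl)
        rw [h3, mul_zero]
    · have h2 : v q l = 0 := by
        by_contra h4
        exact hl (hvb _ _ h4)
      have h3 := cramer v σ q l
      rw [h2, mul_zero] at h3
      rw [← h3]
      refine Finset.sum_congr rfl fun i _ => ?_
      by_cases h4 : bl (σ i) = bl q
      · have h5 : v (σ i) l = 0 := by
          by_contra h6
          exact hl ((hvb _ _ h6).trans h4)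
        rw [h5, mul_zero, mul_zero]
      · have : c i = pl v (Function.update σ i q) := if_neg h4
        rw [this]
  have h2 := Matrix.eq_zero_of_vecMul_eq_zero (M := A) hσ h1
  have h3 := congrFun h2 i
  have h4 : c i = pl v (Function.update σ i q) := if_neg hne
  rw [h4] at h3
  exact hi h3

end

section sys

variable {E K : Type u} [Field E] [Field K] [Algebra E K]

/-- The system of equations of a field generated by linear forms and sums of products. -/
theorem exists_sys (V : ValuationSubring K) {p : ℕ} [hp : Fact p.Prime]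
    {N n r : ℕ} (x : Fin N → K) (blk : Fin N → Fin n) {Λ : Type} [Fintype Λ] (v : Λ → Fin N → E)
    (bl : Λ → Fin n) (hvb : ∀ q i, v q i ≠ 0 → blk i = bl q) (hv0 : ∀ q, lf v x q ≠ 0)
    (hr : ∃ s, pl v s ≠ 0) (ι : Fin r → Type) [∀ j, Fintype (ι j)] (i₀ : ∀ j, ι j)
    (c : ∀ j, ι j → E) (hc : ∀ j i, c j i ≠ 0) (a : ∀ j, ι j → Λ → ℕ) (e : ∀ j, ι j → Fin r → ℕ)
    (f : Fin r → K) (he : ∀ j i l, e j i l ≠ 0 → l < j ∧ f l ≠ 0)
    (hf : ∀ j, f j = ∑ i, algebraMap E K (c j i) *
      ((∏ q, lf v x q ^ a j i q) * ∏ l, f l ^ e j i l))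
    (deg : Fin r → Fin n → ZMod p) (w : ∀ j, ι j → Fin n → ZMod p)
    (hw : ∀ j i s, w j i s = (∑ q, if bl q = s then (a j i q : ZMod p) else 0) +
      ∑ l, (e j i l : ZMod p) * deg l s)
    (hdeg : ∀ j, deg j = w j (i₀ j))
    (hind : LinearIndependent (ZMod p) fun q : (j : Fin r) × {i : ι j // i ≠ i₀ j} =>
      w q.1 q.2 - deg q.1)
    (htr : Algebra.trdeg E K + (Nat.card {j // f j = 0} : Cardinal.{u}) = (N : Cardinal.{u}))
    [Fintype {l : Fin r // f l ≠ 0}] :
    ∃ 𝒮 : Sys E (Λ ⊕ {l : Fin r // f l ≠ 0}),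
      𝒮.Ok (Sum.elim (lf v x) (fun l => f l)) V p ∧
      (∀ {ι' : Type} [Fintype ι'] (P : Subring E) (z : ι' → E), (∀ i, z i ≠ 0) →
        (∀ j i, PMon P z (c j i)) → (∀ s, pl v s ≠ 0 → PMon P z (pl v s)) →
        ∀ k i, PMon P z (𝒮.c k i)) ∧
      Algebra.trdeg E K + (Fintype.card 𝒮.κ : Cardinal.{u}) =
        Fintype.card (Λ ⊕ {l : Fin r // f l ≠ 0}) := by
  classical
  set y : Λ ⊕ {l : Fin r // f l ≠ 0} → K := Sum.elim (lf v x) (fun l => f l) with hydef
  have hy : ∀ θ, y θ ≠ 0 := by
    rintro (q | l)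
    · exact hv0 q
    · exact l.2
  -- the basis
  obtain ⟨σ, hσ0, hσ⟩ : ∃ σ : Fin N → Λ, pl v σ ≠ 0 ∧ ∀ s, pl v s ≠ 0 →
      V.valuation (algebraMap E K (pl v s) * ∏ i, (lf v x (s i))⁻¹) ≤
      V.valuation (algebraMap E K (pl v σ) * ∏ i, (lf v x (σ i))⁻¹) := by
    obtain ⟨s0, hs0⟩ := hr
    have hne : (Finset.univ.filter fun s : Fin N → Λ => pl v s ≠ 0).Nonempty :=
      ⟨s0, Finset.mem_filter.2 ⟨Finset.mem_univ _, hs0⟩⟩
    obtain ⟨σ, h1, h2⟩ := Finset.exists_max_image _
      (fun s : Fin N → Λ => V.valuation (algebraMap E K (pl v s) * ∏ i, (lf v x (s i))⁻¹)) hne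
    exact ⟨σ, (Finset.mem_filter.1 h1).2, fun s hs =>
      h2 s (Finset.mem_filter.2 ⟨Finset.mem_univ _, hs⟩)⟩
  have hinj : Function.Injective σ := by
    intro i i' h
    by_contra hne
    exact hσ0 (Matrix.det_zero_of_row_eq hne (by rw [h]))
  have hrat : ∀ q i, pl v (Function.update σ i q) ≠ 0 →
      algebraMap E K (pl v (Function.update σ i q) / pl v σ) * lf v x (σ i) * (lf v x q)⁻¹ ∈ V := by
    intro q i hi
    have h1 := hσ _ hi
    rw [← Finset.mul_prod_erase _ _ (Finset.mem_univ i),
      ← Finset.mul_prod_erase _ (fun i => (lf v x (σ i))⁻¹) (Finset.mem_univ i)] at h1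
    have h2 : ∏ i' ∈ Finset.univ.erase i, (lf v x (Function.update σ i q i'))⁻¹ =
        ∏ i' ∈ Finset.univ.erase i, (lf v x (σ i'))⁻¹ :=
      Finset.prod_congr rfl fun i' hi' => by
        rw [Function.update_of_ne (Finset.mem_erase.1 hi').1]
    rw [h2, Function.update_self] at h1
    have hR : ∏ i' ∈ Finset.univ.erase i, (lf v x (σ i'))⁻¹ ≠ 0 :=
      Finset.prod_ne_zero_iff.2 fun i' _ => inv_ne_zero (hv0 _)
    have hpσ : algebraMap E K (pl v σ) ≠ 0 := (map_ne_zero _).2 hσ0
    have hB : algebraMap E K (pl v σ) * ((lf v x (σ i))⁻¹ *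
        ∏ i' ∈ Finset.univ.erase i, (lf v x (σ i'))⁻¹) ≠ 0 :=
      mul_ne_zero hpσ (mul_ne_zero (inv_ne_zero (hv0 _)) hR)
    have h3 : algebraMap E K (pl v (Function.update σ i q) / pl v σ) * lf v x (σ i) *
        (lf v x q)⁻¹ = algebraMap E K (pl v (Function.update σ i q)) * ((lf v x q)⁻¹ *
        ∏ i' ∈ Finset.univ.erase i, (lf v x (σ i'))⁻¹) / (algebraMap E K (pl v σ) *
        ((lf v x (σ i))⁻¹ * ∏ i' ∈ Finset.univ.erase i, (lf v x (σ i'))⁻¹)) := by
      rw [map_div₀]
      have h4 := hv0 (σ i)
      have h5 := hv0 q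
      generalize ∏ i' ∈ Finset.univ.erase i, (lf v x (σ i'))⁻¹ = R at hR ⊢
      field_simp
    rw [← V.valuation_le_one_iff, h3, map_div₀]
    exact (div_le_one₀ (zero_lt_iff.2 ((map_ne_zero _).2 hB))).2 h1
  -- the terms
  let Cc : ∀ j, ι j ⊕ {u : Unit // f j ≠ 0} → E := fun j => Sum.elim (c j) fun _ => -1
  let Mm : ∀ j, ι j ⊕ {u : Unit // f j ≠ 0} → Λ ⊕ {l : Fin r // f l ≠ 0} → ℤ := fun j =>
    Sum.elim (fun i => Sum.elim (fun q => (a j i q : ℤ)) fun l => (e j i l : ℤ))
      (fun u => Pi.single (Sum.inr ⟨j, u.2⟩) 1)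
  let val : ∀ j, ι j ⊕ {u : Unit // f j ≠ 0} → K := fun j t =>
    algebraMap E K (Cc j t) * mo y (Mm j t)
  have hCc0 : ∀ j t, Cc j t ≠ 0 := by
    rintro j (i | u)
    · exact hc j i
    · exact neg_ne_zero.2 one_ne_zero
  have hval0 : ∀ j t, val j t ≠ 0 := fun j t =>
    mul_ne_zero ((map_ne_zero _).2 (hCc0 j t)) (mo_ne_zero hy _)
  have hval1 : ∀ j i, val j (Sum.inl i) = algebraMap E K (c j i) *
      ((∏ q, lf v x q ^ a j i q) * ∏ l, f l ^ e j i l) := by
    intro j i
    change algebraMap E K (c j i) * mo y (Sum.elim _ _) = _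
    congr 1
    unfold mo
    rw [Fintype.prod_sum_type]
    congr 1
    · refine Finset.prod_congr rfl fun q _ => ?_
      exact zpow_natCast _ _
    · have h1 : ∏ l : {l : Fin r // f l ≠ 0}, f l ^ e j i l = ∏ l, f l ^ e j i l := by
        refine Fintype.prod_of_injective (Subtype.val : {l : Fin r // f l ≠ 0} → Fin r)
          Subtype.val_injective _ _ ?_ fun _ => rfl
        intro l hl
        have h2 : e j i l = 0 := by
          by_contra h3
          exact hl ⟨⟨l, (he j i l h3).2⟩, rfl⟩
        rw [h2, pow_zero]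
      rw [← h1]
      refine Finset.prod_congr rfl fun l _ => ?_
      exact zpow_natCast _ _
  have hval2 : ∀ j u, val j (Sum.inr u) = - f j := by
    intro j u
    change algebraMap E K (-1) * mo y (Pi.single (Sum.inr ⟨j, u.2⟩) 1) = _
    rw [mo_single, map_neg, map_one, neg_one_mul]
    rfl
  have hvsum : ∀ j, ∑ t, val j t = 0 := by
    intro j
    rw [Fintype.sum_sum_type, Finset.sum_congr rfl fun i _ => hval1 j i, ← hf j,
      Finset.sum_congr rfl fun u _ => hval2 j u]
    by_cases h : f j = 0
    · have : IsEmpty {u : Unit // f j ≠ 0} := ⟨fun u => u.2 h⟩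
      rw [Finset.univ_eq_empty, Finset.sum_empty, h, add_zero]
    · rw [Finset.sum_const, Finset.card_univ]
      have : Fintype.card {u : Unit // f j ≠ 0} = 1 := by
        rw [Fintype.card_subtype]
        simp [h]
      rw [this, one_smul, add_neg_cancel]
  -- the stars
  have hst : ∀ j, ∃ t, ∀ t', V.valuation (val j t') ≤ V.valuation (val j t) := by
    intro j
    obtain ⟨t, -, ht⟩ := Finset.exists_max_image Finset.univ
      (fun t => V.valuation (val j t)) ⟨Sum.inl (i₀ j), Finset.mem_univ _⟩
    exact ⟨t, fun t' => ht t' (Finset.mem_univ _)⟩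
  choose st hst using hst
  -- the weights
  have hwts : ∀ j, ∃ nn : Λ ⊕ {l : Fin r // f l ≠ 0} → ℤ,
      (∀ q q', bl q = bl q' → nn (Sum.inl q) = nn (Sum.inl q')) ∧
      (∀ l, l ≠ j → ∃ b : ZMod p, ∀ t, (wt nn (Mm l t) : ZMod p) = b) ∧
      ∃ b : ZMod p, (∀ t, t ≠ st j → (wt nn (Mm j t) : ZMod p) = b) ∧
        (wt nn (Mm j (st j)) : ZMod p) = b + 1 := by
    intro j
    -- the targets
    let T1 : (j' : Fin r) → ι j' → ZMod p := fun j' i => if h : j' = j then
      (if Sum.inl (i₀ j) = st j then -1 else if Sum.inl (h ▸ i) = st j then 1 else 0) else 0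
    let T2 : Fin r → ZMod p := fun j' => if j' = j then
      (if Sum.inl (i₀ j) = st j then -1 else if ∃ u, Sum.inr u = st j then 1 else 0) else 0
    obtain ⟨s, hs⟩ := exists_rec_lin T2 (fun j' l => e j' (i₀ j') l)
      (fun j' l h => (he j' _ l h).1)
    obtain ⟨β, hβ⟩ := Pool.Agent.W558.exists_dual hind (fun q => T1 q.1 q.2.1 -
      ∑ l, ((e q.1 q.2.1 l : ZMod p) - e q.1 (i₀ q.1) l) * s l)
    -- the weights modulo p
    let w0 : Fin r → ZMod p := fun l => ∑ s', β s' * deg l s' + s l
    choose B hB using fun s' : Fin n => ZMod.intCast_surjective (β s')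
    choose W hW using fun l : Fin r => ZMod.intCast_surjective (w0 l)
    let nn : Λ ⊕ {l : Fin r // f l ≠ 0} → ℤ := Sum.elim (fun q => B (bl q)) (fun l => W l)
    have hwi : ∀ j' i, (wt nn (Mm j' (Sum.inl i)) : ZMod p) =
        ∑ s', β s' * w j' i s' + ∑ l, (e j' i l : ZMod p) * s l := by
      intro j' i
      have h1 : (wt nn (Mm j' (Sum.inl i)) : ZMod p) = ∑ q, (a j' i q : ZMod p) * β (bl q) +
          ∑ l : {l : Fin r // f l ≠ 0}, (e j' i l : ZMod p) * w0 l := by
        unfold wt
        rw [Fintype.sum_sum_type]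
        push_cast
        congr 1
        · refine Finset.sum_congr rfl fun q _ => ?_
          change (((a j' i q : ℕ) : ℤ) : ZMod p) * ((B (bl q) : ℤ) : ZMod p) = _
          rw [hB, Int.cast_natCast]
        · refine Finset.sum_congr rfl fun l _ => ?_
          change (((e j' i l : ℕ) : ℤ) : ZMod p) * ((W l : ℤ) : ZMod p) = _
          rw [hW, Int.cast_natCast]
      have h2 : ∑ l : {l : Fin r // f l ≠ 0}, (e j' i l : ZMod p) * w0 l =
          ∑ l, (e j' i l : ZMod p) * w0 l := by
        refine Fintype.sum_of_injective (Subtype.val : {l : Fin r // f l ≠ 0} → Fin r)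
          Subtype.val_injective _ _ ?_ fun _ => rfl
        intro l hl
        have h3 : e j' i l = 0 := by
          by_contra h4
          exact hl ⟨⟨l, (he j' i l h4).2⟩, rfl⟩
        rw [h3, Nat.cast_zero, zero_mul]
      have h3 : ∑ s', β s' * w j' i s' = ∑ q, (a j' i q : ZMod p) * β (bl q) +
          ∑ l, (e j' i l : ZMod p) * ∑ s', β s' * deg l s' := by
        have h4 : ∑ s', β s' * w j' i s' = ∑ s', β s' * (∑ q, if bl q = s' then
            (a j' i q : ZMod p) else 0) + ∑ s', β s' * ∑ l, (e j' i l : ZMod p) * deg l s' := by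
          rw [← Finset.sum_add_distrib]
          refine Finset.sum_congr rfl fun s' _ => ?_
          rw [hw, mul_add]
        rw [h4]
        congr 1
        · simp only [Finset.mul_sum]
          rw [Finset.sum_comm]
          refine Finset.sum_congr rfl fun q _ => ?_
          rw [Finset.sum_eq_single (bl q)]
          · rw [if_pos rfl, mul_comm]
          · intro s' _ hs'
            rw [if_neg (Ne.symm hs'), mul_zero]
          · intro h; exact absurd (Finset.mem_univ _) h
        · simp only [Finset.mul_sum]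
          rw [Finset.sum_comm]
          refine Finset.sum_congr rfl fun l _ => Finset.sum_congr rfl fun s' _ => ?_
          ring
      rw [h1, h2, h3, add_assoc, ← Finset.sum_add_distrib]
      congr 1
      refine Finset.sum_congr rfl fun l _ => ?_
      change _ * (∑ s', β s' * deg l s' + s l) = _
      ring
    have hwu : ∀ j' u, (wt nn (Mm j' (Sum.inr u)) : ZMod p) = ∑ s', β s' * deg j' s' + s j' := by
      intro j' u
      have h1 : wt nn (Mm j' (Sum.inr u)) = W j' := by
        unfold wt
        rw [Finset.sum_eq_single (Sum.inr ⟨j', u.2⟩)]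
        · change (Pi.single (Sum.inr ⟨j', u.2⟩ : Λ ⊕ {l : Fin r // f l ≠ 0}) 1 :
            Λ ⊕ {l : Fin r // f l ≠ 0} → ℤ) (Sum.inr ⟨j', u.2⟩) * W j' = _
          rw [Pi.single_eq_same, one_mul]
        · intro θ _ hθ
          change (Pi.single (Sum.inr ⟨j', u.2⟩ : Λ ⊕ {l : Fin r // f l ≠ 0}) 1 :
            Λ ⊕ {l : Fin r // f l ≠ 0} → ℤ) θ * _ = 0
          rw [Pi.single_eq_of_ne hθ, zero_mul]
        · intro h; exact absurd (Finset.mem_univ _) h
      rw [h1, hW]
    have hβ' : ∀ j' i, i ≠ i₀ j' → ∑ s', β s' * w j' i s' = ∑ s', β s' * deg j' s' + (T1 j' i -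
        ∑ l, ((e j' i l : ZMod p) - e j' (i₀ j') l) * s l) := by
      intro j' i hi
      rw [← hβ ⟨j', i, hi⟩, ← Finset.sum_add_distrib]
      refine Finset.sum_congr rfl fun s' _ => ?_
      rw [Pi.sub_apply]
      ring
    -- the base value
    let b : Fin r → ZMod p := fun j' => ∑ s', β s' * deg j' s' +
      ∑ l, (e j' (i₀ j') l : ZMod p) * s l
    have hb0 : ∀ j', (wt nn (Mm j' (Sum.inl (i₀ j'))) : ZMod p) = b j' := by
      intro j'
      rw [hwi, ← hdeg]
    have hb1 : ∀ j' i, i ≠ i₀ j' → (wt nn (Mm j' (Sum.inl i)) : ZMod p) = b j' + T1 j' i := by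
      intro j' i hi
      rw [hwi, hβ' j' i hi]
      have h1 : ∑ l, ((e j' i l : ZMod p) - e j' (i₀ j') l) * s l =
          ∑ l, (e j' i l : ZMod p) * s l - ∑ l, (e j' (i₀ j') l : ZMod p) * s l := by
        rw [← Finset.sum_sub_distrib]
        exact Finset.sum_congr rfl fun l _ => by ring
      rw [h1]
      change _ = ∑ s', β s' * deg j' s' + ∑ l, (e j' (i₀ j') l : ZMod p) * s l + T1 j' i
      ring
    have hb2 : ∀ j' u, (wt nn (Mm j' (Sum.inr u)) : ZMod p) = b j' + T2 j' := by
      intro j' u
      rw [hwu, hs j']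
      change _ = ∑ s', β s' * deg j' s' + ∑ l, (e j' (i₀ j') l : ZMod p) * s l + T2 j'
      ring
    refine ⟨nn, fun q q' h => ?_, ?_, ?_⟩
    · change B (bl q) = B (bl q')
      rw [h]
    · intro l hl
      refine ⟨b l, ?_⟩
      rintro (i | u)
      · by_cases hi : i = i₀ l
        · rw [hi, hb0]
        · have h1 : T1 l i = 0 := dif_neg hl
          rw [hb1 l i hi, h1, add_zero]
      · have h1 : T2 l = 0 := if_neg hl
        rw [hb2, h1, add_zero]
    · by_cases h0 : Sum.inl (i₀ j) = st j
      · refine ⟨b j - 1, ?_, ?_⟩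
        · rintro (i | u) ht
          · have hi : i ≠ i₀ j := fun h => ht (by rw [h]; exact h0)
            have h1 : T1 j i = -1 := by
              simp only [T1, dif_pos, if_pos h0]
            rw [hb1 j i hi, h1, sub_eq_add_neg]
          · have h1 : T2 j = -1 := by
              simp only [T2, if_true, if_pos h0]
            rw [hb2, h1, sub_eq_add_neg]
        · rw [← h0, hb0, sub_add_cancel]
      · refine ⟨b j, ?_, ?_⟩
        · rintro (i | u) ht
          · by_cases hi : i = i₀ j
            · rw [hi, hb0]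
            · have h1 : T1 j i = 0 := by
                simp only [T1, dif_pos, if_neg h0]
                exact if_neg ht
              rw [hb1 j i hi, h1, add_zero]
          · have h1 : T2 j = 0 := by
              simp only [T2, if_true, if_neg h0]
              refine if_neg ?_
              rintro ⟨u', hu'⟩
              apply ht
              rw [← hu']
              exact congrArg Sum.inr (Subsingleton.elim _ _)
            rw [hb2, h1, add_zero]
        · rcases hsj : st j with i | u
          · have hi : i ≠ i₀ j := by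
              rintro rfl
              exact h0 hsj.symm
            have h1 : T1 j i = 1 := by
              simp only [T1, dif_pos, if_neg h0]
              exact if_pos hsj.symm
            rw [hb1 j i hi, h1]
          · have h1 : T2 j = 1 := by
              simp only [T2, if_true, if_neg h0]
              exact if_pos ⟨u, hsj.symm⟩
            rw [hb2, h1]
  -- the system
  let κ : Type := {q : Λ // q ∉ Set.range σ} ⊕ Fin r
  let ιS : κ → Type := fun k => Sum.elim
    (fun q => Option {i : Fin N // pl v (Function.update σ i q.1) ≠ 0})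
    (fun j => ι j ⊕ {u : Unit // f j ≠ 0}) k
  let 𝒮 : Sys E (Λ ⊕ {l : Fin r // f l ≠ 0}) :=
    { κ := κ
      fκ := inferInstance
      ι := ιS
      fι := fun k => match k with
        | Sum.inl q => (inferInstance : Fintype (Option
            {i : Fin N // pl v (Function.update σ i q.1) ≠ 0}))
        | Sum.inr j => (inferInstance : Fintype (ι j ⊕ {u : Unit // f j ≠ 0}))
      c := fun k => match k with
        | Sum.inl q => fun o : Option {i : Fin N // pl v (Function.update σ i q.1) ≠ 0} =>
          o.elim 1 fun i => -(pl v (Function.update σ i q.1) / pl v σ)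
        | Sum.inr j => fun t : ι j ⊕ {u : Unit // f j ≠ 0} => Cc j t / Cc j (st j)
      m := fun k => match k with
        | Sum.inl q => fun o : Option {i : Fin N // pl v (Function.update σ i q.1) ≠ 0} =>
          o.elim 0 fun i => Pi.single (Sum.inl (σ i)) 1 - Pi.single (Sum.inl q.1) 1
        | Sum.inr j => fun t : ι j ⊕ {u : Unit // f j ≠ 0} => Mm j t - Mm j (st j)
      st := fun k => match k with
        | Sum.inl q => (none : Option {i : Fin N // pl v (Function.update σ i q.1) ≠ 0})
        | Sum.inr j => st j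
      rk := Sum.elim (fun _ => 1) fun _ => 0 }
  have hms : ∀ a b, mo y (Pi.single a 1 - Pi.single b 1) = y a * (y b)⁻¹ := by
    intro a b
    rw [sub_eq_add_neg, mo_add hy, mo_neg, mo_single, mo_single]
  have hq : ∀ j t, algebraMap E K (Cc j t / Cc j (st j)) * mo y (Mm j t - Mm j (st j)) =
      val j t / val j (st j) := by
    intro j t
    rw [map_div₀, sub_eq_add_neg, mo_add hy, mo_neg]
    change _ = algebraMap E K (Cc j t) * mo y (Mm j t) /
      (algebraMap E K (Cc j (st j)) * mo y (Mm j (st j)))
    have h1 : algebraMap E K (Cc j (st j)) ≠ 0 := (map_ne_zero _).2 (hCc0 j _)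
    have h2 := mo_ne_zero hy (Mm j (st j))
    field_simp
  have hl : ∀ (q : {q : Λ // q ∉ Set.range σ})
      (i : {i : Fin N // pl v (Function.update σ i q.1) ≠ 0}),
      algebraMap E K (-(pl v (Function.update σ i q.1) / pl v σ)) *
        mo y (Pi.single (Sum.inl (σ i)) 1 - Pi.single (Sum.inl q.1) 1) =
      -(algebraMap E K (pl v (Function.update σ i q.1) / pl v σ) * lf v x (σ i) *
        (lf v x q.1)⁻¹) := by
    intro q i
    rw [hms, map_neg]
    change -_ * (lf v x (σ i) * (lf v x q.1)⁻¹) = _
    ring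
  refine ⟨𝒮, ⟨?_, ?_, ?_, ?_⟩, ?_, ?_⟩
  · rintro (q | j)
    · rintro (_ | i)
      · change algebraMap E K 1 * mo y 0 ∈ V
        rw [map_one, mo_zero, mul_one]
        exact V.one_mem
      · change algebraMap E K (-(pl v (Function.update σ i q.1) / pl v σ)) *
          mo y (Pi.single (Sum.inl (σ i)) 1 - Pi.single (Sum.inl q.1) 1) ∈ V
        rw [hl]
        exact V.neg_mem _ (hrat _ _ i.2)
    · intro (t : ι j ⊕ {u : Unit // f j ≠ 0})
      change algebraMap E K (Cc j t / Cc j (st j)) * mo y (Mm j t - Mm j (st j)) ∈ V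
      rw [hq, ← V.valuation_le_one_iff, map_div₀]
      exact (div_le_one₀ (zero_lt_iff.2 ((map_ne_zero _).2 (hval0 _ _)))).2 (hst j t)
  · rintro (q | j)
    · change V.valuation (algebraMap E K 1 * mo y 0) = 1
      rw [map_one, mo_zero, mul_one, map_one]
    · change V.valuation (algebraMap E K (Cc j (st j) / Cc j (st j)) *
        mo y (Mm j (st j) - Mm j (st j))) = 1
      rw [hq, div_self (hval0 _ _), map_one]
  · rintro (q | j)
    · change ∑ o : Option {i : Fin N // pl v (Function.update σ i q.1) ≠ 0}, _ = (0 : K)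
      rw [Fintype.sum_option]
      change algebraMap E K 1 * mo y 0 + ∑ i : {i : Fin N // pl v (Function.update σ i q.1) ≠ 0},
        algebraMap E K (-(pl v (Function.update σ i q.1) / pl v σ)) *
          mo y (Pi.single (Sum.inl (σ i)) 1 - Pi.single (Sum.inl q.1) 1) = 0
      rw [Finset.sum_congr rfl fun i _ => hl q i, map_one, mo_zero, mul_one,
        Finset.sum_neg_distrib, ← sub_eq_add_neg, sub_eq_zero]
      have h1 : ∑ i : {i : Fin N // pl v (Function.update σ i q.1) ≠ 0},
          algebraMap E K (pl v (Function.update σ i q.1) / pl v σ) * lf v x (σ i) *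
            (lf v x q.1)⁻¹ = ∑ i, algebraMap E K (pl v (Function.update σ i q.1) / pl v σ) *
            lf v x (σ i) * (lf v x q.1)⁻¹ := by
        refine Fintype.sum_of_injective (Subtype.val :
          {i : Fin N // pl v (Function.update σ i q.1) ≠ 0} → Fin N)
          Subtype.val_injective _ _ ?_ fun _ => rfl
        intro i hi
        have h2 : pl v (Function.update σ i q.1) = 0 := by
          by_contra h3
          exact hi ⟨⟨i, h3⟩, rfl⟩
        rw [h2, zero_div, map_zero, zero_mul, zero_mul]
      rw [h1, ← Finset.sum_mul, ← lf_rel v x hσ0 q.1, mul_inv_cancel₀ (hv0 _)]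
    · change ∑ t : ι j ⊕ {u : Unit // f j ≠ 0}, algebraMap E K (Cc j t / Cc j (st j)) *
        mo y (Mm j t - Mm j (st j)) = (0 : K)
      rw [Finset.sum_congr rfl fun t _ => hq j t, ← Finset.sum_div, hvsum, zero_div]
  · rintro (q | j)
    · refine ⟨Pi.single (Sum.inl q.1) 1, ?_, -1, ?_, ?_⟩
      · have hwtq : ∀ m, wt (Pi.single (Sum.inl q.1) 1 : Λ ⊕ {l : Fin r // f l ≠ 0} → ℤ) m =
            m (Sum.inl q.1) := by
          intro m
          unfold wt
          rw [Finset.sum_eq_single (Sum.inl q.1)]
          · rw [Pi.single_eq_same, mul_one]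
          · intro θ _ hθ
            rw [Pi.single_eq_of_ne hθ, mul_zero]
          · intro h; exact absurd (Finset.mem_univ _) h
        rintro (q' | j') hne hrk
        · refine ⟨0, ?_⟩
          rintro (_ | i)
          · change (p : ℤ) ∣ wt _ 0 - 0
            rw [hwtq]
            simp
          · change (p : ℤ) ∣ wt _ (Pi.single (Sum.inl (σ i)) 1 - Pi.single (Sum.inl q'.1) 1) - 0
            rw [hwtq, Pi.sub_apply, Pi.single_eq_of_ne, Pi.single_eq_of_ne]
            · simp
            · intro h
              exact hne (congrArg Sum.inl (Subtype.ext (Sum.inl_injective h).symm))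
            · intro h
              exact q.2 ⟨i, (Sum.inl_injective h).symm⟩
        · change 1 ≤ 0 at hrk
          omega
      · have hwtq : ∀ m, wt (Pi.single (Sum.inl q.1) 1 : Λ ⊕ {l : Fin r // f l ≠ 0} → ℤ) m =
            m (Sum.inl q.1) := by
          intro m
          unfold wt
          rw [Finset.sum_eq_single (Sum.inl q.1)]
          · rw [Pi.single_eq_same, mul_one]
          · intro θ _ hθ
            rw [Pi.single_eq_of_ne hθ, mul_zero]
          · intro h; exact absurd (Finset.mem_univ _) h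
        rintro (_ | i) hi
        · exact absurd rfl hi
        · change (p : ℤ) ∣ wt _ (Pi.single (Sum.inl (σ i)) 1 - Pi.single (Sum.inl q.1) 1) - -1
          rw [hwtq, Pi.sub_apply, Pi.single_eq_of_ne, Pi.single_eq_same]
          · simp
          · intro h
            exact q.2 ⟨i, (Sum.inl_injective h).symm⟩
      · change ¬ (p : ℤ) ∣ wt _ 0 - -1
        have h1 : wt (Pi.single (Sum.inl q.1) 1 : Λ ⊕ {l : Fin r // f l ≠ 0} → ℤ) 0 = 0 := by
          unfold wt
          simp
        rw [h1]
        intro h2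
        have h3 : (p : ℤ) ∣ 1 := by simpa using h2
        have h4 : p ∣ 1 := by exact_mod_cast h3
        exact hp.out.one_lt.ne' (Nat.dvd_one.1 h4)
    · obtain ⟨nn, h1, h2, b, h3, h4⟩ := hwts j
      have hwsub : ∀ m m' : Λ ⊕ {l : Fin r // f l ≠ 0} → ℤ, wt nn (m - m') =
          wt nn m - wt nn m' := by
        intro m m'
        unfold wt
        rw [← Finset.sum_sub_distrib]
        exact Finset.sum_congr rfl fun θ _ => by rw [Pi.sub_apply]; ring
      refine ⟨nn, ?_, ?_⟩
      · rintro (q' | j') hne hrk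
        · refine ⟨0, ?_⟩
          rintro (_ | i)
          · change (p : ℤ) ∣ wt nn 0 - 0
            simp [wt]
          · change (p : ℤ) ∣ wt nn (Pi.single (Sum.inl (σ i)) 1 - Pi.single (Sum.inl q'.1) 1) - 0
            have h5 : ∀ a, wt nn (Pi.single a 1) = nn a := by
              intro a
              unfold wt
              rw [Finset.sum_eq_single a]
              · rw [Pi.single_eq_same, one_mul]
              · intro θ _ hθ
                rw [Pi.single_eq_of_ne hθ, zero_mul]
              · intro h; exact absurd (Finset.mem_univ _) h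
            rw [hwsub, h5, h5, h1 _ _ (pl_blk hvb hσ0 q'.1 i i.2)]
            simp
        · have hne' : j' ≠ j := fun h => hne (by rw [h])
          obtain ⟨b', hb'⟩ := h2 j' hne'
          refine ⟨0, ?_⟩
          intro (t : ι j' ⊕ {u : Unit // f j' ≠ 0})
          change (p : ℤ) ∣ wt nn (Mm j' t - Mm j' (st j')) - 0
          rw [hwsub, ← ZMod.intCast_zmod_eq_zero_iff_dvd]
          push_cast
          rw [hb', hb', sub_self, sub_zero]
      · refine ⟨-1, ?_, ?_⟩
        · intro (t : ι j ⊕ {u : Unit // f j ≠ 0}) (ht : t ≠ st j)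
          change (p : ℤ) ∣ wt nn (Mm j t - Mm j (st j)) - -1
          rw [hwsub, ← ZMod.intCast_zmod_eq_zero_iff_dvd]
          push_cast
          rw [h3 t ht, h4]
          ring
        · change ¬ (p : ℤ) ∣ wt nn (Mm j (st j) - Mm j (st j)) - -1
          rw [hwsub, sub_self]
          intro h5
          have h6 : (p : ℤ) ∣ 1 := by simpa using h5
          have h7 : p ∣ 1 := by exact_mod_cast h6
          exact hp.out.one_lt.ne' (Nat.dvd_one.1 h7)
  · intro ι' _ P z hz h1 h2
    rintro (q | j)
    · rintro (_ | i)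
      · exact PMon.one
      · change PMon P z (-(pl v (Function.update σ i q.1) / pl v σ))
        rw [neg_eq_neg_one_mul, div_eq_mul_inv]
        exact PMon.neg_one.mul hz ((h2 _ i.2).mul hz (h2 _ hσ0).inv)
    · have h3 : ∀ t, PMon P z (Cc j t) := by
        rintro (i | u)
        · exact h1 j i
        · exact PMon.neg_one
      intro (t : ι j ⊕ {u : Unit // f j ≠ 0})
      change PMon P z (Cc j t / Cc j (st j))
      rw [div_eq_mul_inv]
      exact (h3 t).mul hz (h3 _).inv
  · have h1 : Fintype.card 𝒮.κ = Fintype.card {q : Λ // q ∉ Set.range σ} + r := by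
      change Fintype.card ({q : Λ // q ∉ Set.range σ} ⊕ Fin r) = _
      rw [Fintype.card_sum, Fintype.card_fin]
    have h2 : Fintype.card {q : Λ // q ∉ Set.range σ} + N = Fintype.card Λ := by
      have h3 := Fintype.card_subtype_compl (fun q : Λ => q ∈ Set.range σ)
      have h4 : Fintype.card {q : Λ // q ∈ Set.range σ} = N := by
        have h5 := Set.card_range_of_injective hinj
        rw [Fintype.card_fin] at h5
        convert h5
      have h6 : N ≤ Fintype.card Λ := by
        have := Fintype.card_le_of_injective σ hinj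
        rwa [Fintype.card_fin] at this
      rw [h4] at h3
      rw [h3]
      omega
    have h3 : Nat.card {j // f j = 0} + Fintype.card {l : Fin r // f l ≠ 0} = r := by
      rw [Nat.card_eq_fintype_card]
      have h4 := Fintype.card_subtype_compl (fun l : Fin r => f l = 0)
      rw [Fintype.card_fin] at h4
      have h5 : Fintype.card {j : Fin r // f j = 0} ≤ r := by
        have := Fintype.card_subtype_le (fun l : Fin r => f l = 0)
        rwa [Fintype.card_fin] at this
      have h6 : Fintype.card {l : Fin r // f l ≠ 0} = Fintype.card {l : Fin r // ¬ f l = 0} :=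
        Fintype.card_congr (Equiv.refl _)
      rw [h6, h4]
      omega
    rw [h1, Fintype.card_sum]
    generalize Fintype.card {q : Λ // q ∉ Set.range σ} = A at h2 ⊢
    generalize Fintype.card {l : Fin r // f l ≠ 0} = B at h3 ⊢
    generalize Nat.card {j // f j = 0} = D at htr h3
    rw [← h2, ← h3]
    push_cast
    calc Algebra.trdeg E K + ((A : Cardinal.{u}) + (D + B)) =
        (Algebra.trdeg E K + D) + (A + B) := by
          rw [add_left_comm (A : Cardinal.{u}) D B, ← add_assoc]
      _ = (A : Cardinal.{u}) + N + B := by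
          rw [htr, ← add_assoc, add_comm (N : Cardinal.{u}) A]

end sys

end Pool.Agent.W418.LU2
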