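import Pool.Agent.H59.L.S8.W418.LU2.Ind

/-!
# Localizations of polynomial rings
-/

set_option autoImplicit false
set_option linter.unusedVariables false
set_option linter.unusedSectionVars false

universe u v

namespace Pool.Agent.W418.LU2

open IsLocalRing Module Polynomial

section

variable {B : Type u} [CommRing B] [IsRegularLocalRing B] (P : Ideal B[X]) [P.IsPrime]
  (hP : P.comap C = maximalIdeal B)

include hP

lemma map_le : (maximalIdeal B).map C ≤ P := by
  rw [← hP]
  exact Ideal.map_comap_le

lemma dim_ge : ringKrullDim B ≤ ringKrullDim (Localization.AtPrime P) := by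
  rw [IsLocalization.AtPrime.ringKrullDim_eq_height P (Localization.AtPrime P), ← maximalIdeal_height_eq_ringKrullDim]
  refine WithBot.coe_le_coe.mpr ?_
  rw [← Polynomial.height_map_C (maximalIdeal B)]
  exact Ideal.height_mono (map_le P hP)

lemma dim_ge' (h : (maximalIdeal B).map C ≠ P) :
    ringKrullDim B + 1 ≤ ringKrullDim (Localization.AtPrime P) := by
  rw [IsLocalization.AtPrime.ringKrullDim_eq_height P (Localization.AtPrime P), ← maximalIdeal_height_eq_ringKrullDim]
  have h1 : (maximalIdeal B).height + 1 ≤ P.height := by
    rw [← Polynomial.height_map_C (maximalIdeal B)]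
    have : ((maximalIdeal B).map C).IsPrime := Ideal.isPrime_map_C_of_isPrime
    exact Ideal.height_add_one_le_of_lt_of_isPrime (lt_of_le_of_ne (map_le P hP) h)
  exact_mod_cast WithBot.coe_le_coe.mpr h1

lemma span_gen {κ : Type v} {w : κ → B[X]} (hw : Ideal.span (Set.range w) = P) :
    Ideal.span (Set.range fun i => algebraMap B[X] (Localization.AtPrime P) (w i)) =
      maximalIdeal (Localization.AtPrime P) := by
  have h1 : P.map (algebraMap B[X] (Localization.AtPrime P)) =
      (Ideal.span (Set.range w)).map (algebraMap B[X] (Localization.AtPrime P)) := by rw [hw]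
  rw [← Localization.AtPrime.map_eq_maximalIdeal, h1, Ideal.map_span, ← Set.range_comp]
  rfl

/-- Parts of regular systems of parameters of the localizations of the polynomial ring. -/
theorem poly_ind {ι : Type} [Fintype ι] {z : ι → B} (hz : Ind z) :
    ∃ (_ : IsRegularLocalRing (Localization.AtPrime P)),
    Ind (fun i => algebraMap B[X] (Localization.AtPrime P) (C (z i))) ∧
      (X ∈ P → Ind (Sum.elim (fun i => algebraMap B[X] (Localization.AtPrime P) (C (z i)))
        (fun _ : Unit => algebraMap B[X] (Localization.AtPrime P) X))) := by
  classical
  have hreg : IsRegularLocalRing (Localization.AtPrime P) :=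
    Polynomial.isRegularLocalRing_localization_atPrime_of_comap_eq_maximalIdeal B P hP
  refine ⟨hreg, ?_⟩
  obtain ⟨m, w, hw, hd⟩ := hz.extend
  have hmap : (maximalIdeal B).map (C : B →+* B[X]) =
      Ideal.span (Set.range fun i => C (Sum.elim z w i)) := by
    rw [← hw, Ideal.map_span, ← Set.range_comp]
    rfl
  by_cases hPm : (maximalIdeal B).map C = P
  · have h1 : Ideal.span (Set.range fun i => algebraMap B[X] (Localization.AtPrime P)
        (C (Sum.elim z w i))) = maximalIdeal (Localization.AtPrime P) :=
      span_gen P hP (by rw [← hmap, hPm])
    have h2 := ind_of_span h1 (by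
      rw [Fintype.card_sum, Fintype.card_fin, ← hd]
      exact dim_ge P hP)
    refine ⟨h2.comp Sum.inl Sum.inl_injective, ?_⟩
    intro hX
    exfalso
    rw [← hPm, Ideal.mem_map_C_iff] at hX
    have h3 := hX 1
    rw [coeff_X_one] at h3
    exact (Ideal.ne_top_iff_one _).1 (maximalIdeal.isMaximal B).ne_top h3
  · have key : ∀ y : B[X], (maximalIdeal B).map C ⊔ Ideal.span {y} = P →
        Ind (Sum.elim (fun i => algebraMap B[X] (Localization.AtPrime P) (C (Sum.elim z w i)))
          (fun _ : Unit => algebraMap B[X] (Localization.AtPrime P) y)) := by
      intro y hy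
      have h1 : Ideal.span (Set.range fun i => algebraMap B[X] (Localization.AtPrime P)
          (Sum.elim (fun i => C (Sum.elim z w i)) (fun _ : Unit => y) i)) =
          maximalIdeal (Localization.AtPrime P) := by
        refine span_gen P hP ?_
        rw [← hy, hmap, Set.Sum.elim_range, Ideal.span_union]
        congr 2
        ext a
        simp [eq_comm]
      have h2 := ind_of_span h1 (by
        rw [Fintype.card_sum, Fintype.card_sum, Fintype.card_fin, Fintype.card_unit]
        refine le_trans ?_ (dim_ge' P hP hPm)
        rw [hd]
        exact_mod_cast le_rfl)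
      convert h2 using 1
      funext i
      rcases i with i | i <;> rfl
    constructor
    · have hcomap : (P.comap C).IsMaximal := by rw [hP]; exact maximalIdeal.isMaximal B
      obtain ⟨y, -, hy⟩ := Polynomial.exists_monic_span_sup_map_eq B P hcomap (by
        rw [hP]
        exact Ne.symm hPm)
      rw [hP] at hy
      exact (key y hy.symm).comp (fun i => Sum.inl (Sum.inl i))
        (fun a b h => Sum.inl_injective (Sum.inl_injective h))
    · intro hX
      have h1 : (maximalIdeal B).map C ⊔ Ideal.span {X} = P := by
        apply le_antisymm
        · refine sup_le (map_le P hP) ?_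
          rw [Ideal.span_singleton_le_iff_mem]
          exact hX
        · intro g hg
          have h2 : g = C (g.coeff 0) + X * g.divX := by
            rw [add_comm]
            exact (X_mul_divX_add g).symm
          have h3 : g.coeff 0 ∈ maximalIdeal B := by
            rw [← hP, Ideal.mem_comap]
            have h4 : C (g.coeff 0) = g - X * g.divX := by
              rw [eq_sub_iff_add_eq]
              exact h2.symm
            rw [h4]
            exact P.sub_mem hg (P.mul_mem_right _ hX)
          rw [h2]
          refine Ideal.add_mem _ (Ideal.mem_sup_left (Ideal.mem_map_of_mem C h3))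
            (Ideal.mem_sup_right ?_)
          exact Ideal.mul_mem_right _ _ (Ideal.mem_span_singleton_self _)
      have h2 := (key X h1).comp (Sum.map Sum.inl id) (Sum.map_injective.2
        ⟨Sum.inl_injective, Function.injective_id⟩ : Function.Injective
          (Sum.map (Sum.inl : ι → ι ⊕ Fin m) (id : Unit → Unit)))
      convert h2 using 1
      funext i
      rcases i with i | i <;> rfl

end

end Pool.Agent.W418.LU2
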