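import Pool.Agent.H59.L.S8.W418.LU2.Steps

/-!
# Regular local rings with parameters in a field
-/

set_option autoImplicit false
set_option linter.unusedVariables false
set_option linter.unusedSectionVars false

universe u v

namespace Pool.Agent.W418.LU2

open IsLocalRing Polynomial

section poly

variable {B : Type u} [CommRing B] [IsRegularLocalRing B] (P : Ideal B[X]) [P.IsPrime]
  (hP : P.comap C = maximalIdeal B)

include hP

lemma alg_mem (b : B) : algebraMap B[X] (Localization.AtPrime P) (C b) ∈
    maximalIdeal (Localization.AtPrime P) ↔ b ∈ maximalIdeal B := by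
  rw [← hP, Ideal.mem_comap]
  exact IsLocalization.AtPrime.to_map_mem_maximal_iff _ P _

theorem poly_indN {ι : Type} [Fintype ι] {z : ι → B} (hz : IndN z) :
    ∃ (_ : IsRegularLocalRing (Localization.AtPrime P)),
    IndN (fun i => algebraMap B[X] (Localization.AtPrime P) (C (z i))) ∧
      IndN (Sum.elim (fun i => algebraMap B[X] (Localization.AtPrime P) (C (z i)))
        (fun _ : Unit => algebraMap B[X] (Localization.AtPrime P) X)) := by
  classical
  let N := {i : ι // z i ∈ maximalIdeal B}
  have h0 : Ind (fun i : N => z i) := hz.ind Subtype.val Subtype.val_injective fun i => i.2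
  obtain ⟨h1, h2, h3⟩ := poly_ind P hP h0
  refine ⟨h1, ?_, ?_⟩
  · refine IndN.of_ind (Subtype.val : N → ι) Subtype.val_injective ?_ h2
    intro i hi
    exact ⟨⟨i, (alg_mem P hP _).1 hi⟩, rfl⟩
  · by_cases hX : X ∈ P
    · refine IndN.of_ind (Sum.map (Subtype.val : N → ι) (id : Unit → Unit))
        (Sum.map_injective.2 ⟨Subtype.val_injective, Function.injective_id⟩) ?_ ?_
      · rintro (i | i) hi
        · exact ⟨Sum.inl ⟨i, (alg_mem P hP _).1 hi⟩, rfl⟩
        · exact ⟨Sum.inr i, rfl⟩
      · convert h3 hX using 1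
        funext i
        rcases i with i | i <;> rfl
    · refine IndN.of_ind (fun i : N => (Sum.inl i.1 : ι ⊕ Unit))
        (fun a b h => Subtype.val_injective (Sum.inl_injective h)) ?_ h2
      rintro (i | i) hi
      · exact ⟨⟨i, (alg_mem P hP _).1 hi⟩, rfl⟩
      · exact absurd ((IsLocalization.AtPrime.to_map_mem_maximal_iff _ P _).1 hi) hX

end poly

lemma sub_mem_max {B : Type u} [CommRing B] [IsLocalRing B] {a b : B} (ha : a ∈ maximalIdeal B)
    (hb : b ∈ maximalIdeal B) (T : B) : b * T - a ∈ maximalIdeal B :=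
  (maximalIdeal B).sub_mem ((maximalIdeal B).mul_mem_right _ hb) ha

/-- The algebra of the blowing-up. -/
theorem blow_alg {B C' D F : Type u} [CommRing B] [IsRegularLocalRing B] [CommRing C']
    [IsRegularLocalRing C'] [CommRing D] [IsLocalRing D] [Field F] (alg : B[X] →+* C')
    (θ : C' →+* D) (hθ : Function.Surjective θ) (f : B →+* F) (hf : Function.Injective f)
    {ι : Type} [Fintype ι] [DecidableEq ι] {z : ι → B} {i j : ι} (hij : i ≠ j) (hzj : z j ≠ 0)
    (h1 : IndN fun l => alg (C (z l)))
    (h2 : IndN (Sum.elim (fun l => alg (C (z l))) (fun _ : Unit => alg X)))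
    (hmi : alg (C (z i)) ∈ maximalIdeal C') (hmj : alg (C (z j)) ∈ maximalIdeal C')
    (hker : ∀ y, θ y = 0 → ∃ (g : B[X]) (u : C'), y = alg g * u ∧
      eval₂ f (f (z i) * (f (z j))⁻¹) g = 0)
    (hz : θ (alg (C (z j))) * θ (alg X) = θ (alg (C (z i)))) :
    IsRegularLocalRing D ∧ ∀ w : ι → D, (∀ l, l ≠ i → w l = θ (alg (C (z l)))) →
      w i = θ (alg X) → IndN w := by
  have h3 := IndN.blow h1 hij hmi hmj (alg X) fun _ => h2
  have heq : alg (C (z j) * X - C (z i)) = alg (C (z j)) * alg X - alg (C (z i)) := by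
    rw [map_sub, map_mul]
  have hme : alg (C (z j)) * alg X - alg (C (z i)) ∈ maximalIdeal C' :=
    sub_mem_max hmi hmj (alg X)
  have hIe : Ind (fun _ : Unit => alg (C (z j)) * alg X - alg (C (z i))) :=
    h3.ind (fun _ : Unit => Sum.inr ()) (fun _ _ _ => rfl) (fun _ => hme)
  have hprime : (Ideal.span (Set.range fun _ : Unit =>
      alg (C (z j)) * alg X - alg (C (z i)))).IsPrime := by
    have h4 := hIe.regular
    have h5 : IsDomain (C' ⧸ Ideal.span (Set.range fun _ : Unit =>
      alg (C (z j)) * alg X - alg (C (z i)))) := Pool.Agent.H379R3.isDomain _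
    exact (Ideal.Quotient.isDomain_iff_prime _).1 h5
  have hrange : Set.range (fun _ : Unit => alg (C (z j)) * alg X - alg (C (z i))) =
      {alg (C (z j)) * alg X - alg (C (z i))} := Set.range_const
  have hxj : alg (C (z j)) ∉ Ideal.span (Set.range fun _ : Unit =>
      alg (C (z j)) * alg X - alg (C (z i))) := by
    intro hmem
    rw [hrange, Ideal.mem_span_singleton'] at hmem
    obtain ⟨e, he⟩ := hmem
    have h4 := h3 (Sum.elim (Pi.single j (-1)) fun _ => e) (by
      rintro (l | l) hl
      · by_cases hlj : l = j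
        · subst hlj
          exfalso
          apply hl
          rw [Sum.elim_inl, Function.update_of_ne hij.symm]
          exact hmj
        · exact Pi.single_eq_of_ne hlj _
      · exact absurd hme hl) (by
      rw [Fintype.sum_sum_type, Fintype.sum_unique (ι := Unit)]
      simp only [Sum.elim_inl, Sum.elim_inr]
      rw [Finset.sum_eq_single j, Pi.single_eq_same, Function.update_of_ne hij.symm, he]
      · have h5 : (-1 : C') * alg (C (z j)) + alg (C (z j)) = 0 := by ring
        rw [h5]
        exact Ideal.zero_mem _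
      · intro l _ hl
        rw [Pi.single_eq_of_ne hl, zero_mul]
      · intro h; exact absurd (Finset.mem_univ _) h) (Sum.inl j)
    simp only [Sum.elim_inl, Pi.single_eq_same] at h4
    exact (Ideal.ne_top_iff_one _).1 (maximalIdeal.isMaximal _).ne_top
      ((Ideal.neg_mem_iff _).1 h4)
  have hk : RingHom.ker θ = Ideal.span (Set.range fun _ : Unit =>
      alg (C (z j)) * alg X - alg (C (z i))) := by
    apply le_antisymm
    · intro y hy
      obtain ⟨g, u, rfl, h5⟩ := hker y hy
      have h6 := scale_mem f hf (z i) (z j) hzj g h5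
      rw [Ideal.mem_span_singleton'] at h6
      obtain ⟨e, he⟩ := h6
      have h7 : alg (C (z j)) ^ g.natDegree * alg g ∈ Ideal.span (Set.range fun _ : Unit =>
          alg (C (z j)) * alg X - alg (C (z i))) := by
        have h8 : alg (C (z j)) ^ g.natDegree * alg g =
            alg e * (alg (C (z j)) * alg X - alg (C (z i))) := by
          rw [← heq, ← map_mul, he, map_mul, map_pow]
        rw [hrange, h8]
        exact Ideal.mul_mem_left _ _ (Ideal.mem_span_singleton_self _)
      refine Ideal.mul_mem_right _ _ ?_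
      rcases hprime.mem_or_mem h7 with h8 | h8
      · exact absurd (hprime.mem_of_pow_mem _ h8) hxj
      · exact h8
    · rw [Ideal.span_le]
      rintro _ ⟨_, rfl⟩
      change θ (alg (C (z j)) * alg X - alg (C (z i))) = 0
      rw [map_sub, map_mul, hz, sub_self]
  obtain ⟨h4, h5⟩ := quot_regular' h3 (fun _ => hme) θ hθ hk
  refine ⟨h4, fun w hw hwi => ?_⟩
  have h6 : w = fun l => θ (Function.update (fun l => alg (C (z l))) i (alg X) l) := by
    funext l
    by_cases hl : l = i
    · subst hl
      rw [Function.update_self, hwi]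
    · rw [Function.update_of_ne hl, hw l hl]
  rw [h6]
  exact h5

variable {F : Type u} [Field F]

/-- `P` is a regular local ring dominated by `A` and the nonunits among the elements `x i` of `P`
are a part of a regular system of parameters. -/
structure RegP (A P : Subring F) {ι : Type} [Fintype ι] (x : ι → F) : Prop where
  PA : P ≤ A
  ne : ∀ i, x i ≠ 0
  mem : ∀ i, x i ∈ P
  reg : IsRegularLocalRing P
  inv : ∀ y ∈ P, y ≠ 0 → y⁻¹ ∈ A → y⁻¹ ∈ P
  ind : @IndN P _ reg.toIsLocalRing ι _ (fun i => ⟨x i, mem i⟩)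

variable {A P : Subring F} {ι : Type} [Fintype ι] {x : ι → F}

lemma RegP.isUnit (h : RegP A P x) (y : P) : IsUnit y ↔ (y : F) ≠ 0 ∧ (y : F)⁻¹ ∈ A := by
  constructor
  · intro hy
    obtain ⟨z, hz⟩ := isUnit_iff_exists_inv.1 hy
    have h1 : (y : F) * z = 1 := congrArg Subtype.val hz
    refine ⟨left_ne_zero_of_mul_eq_one h1, ?_⟩
    rw [← eq_inv_of_mul_eq_one_right h1]
    exact h.PA z.2
  · rintro ⟨h0, h1⟩
    refine isUnit_iff_exists_inv.2 ⟨⟨_, h.inv _ y.2 h0 h1⟩, Subtype.ext ?_⟩
    exact mul_inv_cancel₀ h0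

lemma RegP.mem_max (h : RegP A P x) [IsLocalRing P] (y : P) :
    y ∈ maximalIdeal P ↔ ¬ ((y : F) ≠ 0 ∧ (y : F)⁻¹ ∈ A) := by
  rw [mem_maximalIdeal, mem_nonunits_iff, h.isUnit]

/-- Division by a unit. -/
theorem RegP.unitStep [DecidableEq ι] (h : RegP A P x) (i j : ι) (hj : (x j)⁻¹ ∈ A) :
    RegP A P (Function.update x i (x i * (x j)⁻¹)) := by
  have hjP : (x j)⁻¹ ∈ P := h.inv _ (h.mem j) (h.ne j) hj
  have hreg := h.reg
  refine ⟨h.PA, ?_, ?_, h.reg, h.inv, ?_⟩
  · intro l
    by_cases hl : l = i
    · subst hl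
      rw [Function.update_self]
      exact mul_ne_zero (h.ne _) (inv_ne_zero (h.ne _))
    · rw [Function.update_of_ne hl]
      exact h.ne l
  · intro l
    by_cases hl : l = i
    · subst hl
      rw [Function.update_self]
      exact P.mul_mem (h.mem _) hjP
    · rw [Function.update_of_ne hl]
      exact h.mem l
  · have h1 := IndN.unit h.ind i (⟨x i * (x j)⁻¹, P.mul_mem (h.mem _) hjP⟩ : P)
      ⟨(x j)⁻¹, hjP⟩ ((h.isUnit _).2 ⟨inv_ne_zero (h.ne j), by
        rw [inv_inv]; exact h.PA (h.mem j)⟩) (Subtype.ext (mul_comm _ _))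
    convert h1 using 1
    funext l
    apply Subtype.ext
    change Function.update x i (x i * (x j)⁻¹) l = _
    by_cases hl : l = i
    · subst hl
      rw [Function.update_self, Function.update_self]
    · rw [Function.update_of_ne hl, Function.update_of_ne hl]

section steps

variable {S : Subring F} (hA : Loc A) (hS : S ≤ A) (h : RegP A (lo A S) x)

include hA hS h

/-- Adjoining a transcendental element. -/
theorem RegP.trans {t : F} (ht : t ∈ A) (ht0 : t ≠ 0)
    (htr : ∀ g : (lo A S)[X], eval₂ (lo A S).subtype t g = 0 → g = 0) :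
    RegP A (lo A (Subring.closure (insert t (S : Set F)))) (Sum.elim x fun _ : Unit => t) := by
  classical
  have ad := adj_closure hA hS ht
  have hreg := h.reg
  have hP := ad.P_prime
  have hloc := isLocalRing_lo hA ad.SA
  obtain ⟨hC, h1, h2⟩ := poly_indN ad.P ad.comap_P h.ind
  have hk : RingHom.ker ad.th = Ideal.span (Set.range (Empty.elim : Empty →
      Localization.AtPrime ad.P)) := by
    rw [Set.range_eq_empty, Ideal.span_empty, eq_bot_iff]
    intro y hy
    obtain ⟨g, s, rfl⟩ := IsLocalization.exists_mk'_eq ad.P.primeCompl y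
    have h3 : ad.ev g = 0 := by
      have h4 : ad.th (IsLocalization.mk' _ g s * algebraMap _ _ (s : (lo A S)[X])) = 0 := by
        rw [map_mul, RingHom.mem_ker.1 hy, zero_mul]
      rw [IsLocalization.mk'_spec, ad.th_alg] at h4
      exact h4
    have h4 : g = 0 := htr g (by
      have := congrArg Subtype.val h3
      exact this)
    rw [Ideal.mem_bot, h4, IsLocalization.mk'_zero]
  have h3 : IndN (Sum.elim (Sum.elim (fun i => algebraMap (lo A S)[X]
      (Localization.AtPrime ad.P) (C (⟨x i, h.mem i⟩ : lo A S)))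
      (fun _ : Unit => algebraMap (lo A S)[X] (Localization.AtPrime ad.P) X))
      (Empty.elim : Empty → Localization.AtPrime ad.P)) := by
    intro c hc hs
    have h4 := h2 (fun l => c (Sum.inl l)) (fun l hl => hc (Sum.inl l) hl) (by
      rw [Fintype.sum_sum_type] at hs
      simpa using hs)
    rintro (l | l)
    · exact h4 l
    · exact l.elim
  obtain ⟨h4, h5⟩ := quot_regular' h3 (fun k => k.elim) ad.th ad.th_surj hk
  have hmem : ∀ l : ι ⊕ Unit, Sum.elim x (fun _ : Unit => t) l ∈
      lo A (Subring.closure (insert t (S : Set F))) := by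
    rintro (l | l)
    · exact lo_mono ad.le (h.mem l)
    · exact le_lo _ _ ad.tS
  refine ⟨lo_le ad.SA, ?_, hmem, h4, fun y hy h0 h1 => inv_mem_lo ad.SA hy h0 h1, ?_⟩
  · rintro (l | l)
    · exact h.ne l
    · exact ht0
  · convert h5 using 1
    funext l
    rcases l with l | l
    · apply Subtype.ext
      change x l = _
      simp only [Sum.elim_inl]
      rw [ad.th_alg, ad.ev_C]
    · apply Subtype.ext
      change t = _
      simp only [Sum.elim_inr]
      rw [ad.th_alg, ad.ev_X]

/-- The blowing-up. -/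
theorem RegP.blow [DecidableEq ι] {i j : ι} (hij : i ≠ j) (hi : (x i)⁻¹ ∉ A)
    (hj : (x j)⁻¹ ∉ A) (ht : x i * (x j)⁻¹ ∈ A) :
    RegP A (lo A (Subring.closure (insert (x i * (x j)⁻¹) (S : Set F))))
      (Function.update x i (x i * (x j)⁻¹)) := by
  have ad := adj_closure hA hS ht
  have hreg := h.reg
  have hP := ad.P_prime
  have hloc := isLocalRing_lo hA ad.SA
  obtain ⟨hC, h1, h2⟩ := poly_indN ad.P ad.comap_P h.ind
  let xi : lo A S := ⟨x i, h.mem i⟩
  let xj : lo A S := ⟨x j, h.mem j⟩
  have hmi : algebraMap (lo A S)[X] (Localization.AtPrime ad.P) (C xi) ∈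
      maximalIdeal (Localization.AtPrime ad.P) := by
    rw [alg_mem ad.P ad.comap_P, h.mem_max]
    exact fun h => hi h.2
  have hmj : algebraMap (lo A S)[X] (Localization.AtPrime ad.P) (C xj) ∈
      maximalIdeal (Localization.AtPrime ad.P) := by
    rw [alg_mem ad.P ad.comap_P, h.mem_max]
    exact fun h => hj h.2
  have hker : ∀ y : Localization.AtPrime ad.P, ad.th y = 0 → ∃ (g : (lo A S)[X])
      (u : Localization.AtPrime ad.P),
      y = algebraMap (lo A S)[X] (Localization.AtPrime ad.P) g * u ∧
      eval₂ (lo A S).subtype ((lo A S).subtype xi * ((lo A S).subtype xj)⁻¹) g = 0 := by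
    intro y hy
    obtain ⟨g, s, rfl⟩ := IsLocalization.exists_mk'_eq ad.P.primeCompl y
    have h4 : ad.ev g = 0 := by
      have h5 : ad.th (IsLocalization.mk' (Localization.AtPrime ad.P) g s *
          algebraMap _ _ (s : (lo A S)[X])) = 0 := by
        rw [map_mul, hy, zero_mul]
      rw [IsLocalization.mk'_spec, ad.th_alg] at h5
      exact h5
    exact ⟨g, IsLocalization.mk' (Localization.AtPrime ad.P) 1 s,
      IsLocalization.mk'_eq_mul_mk'_one _ _, congrArg Subtype.val h4⟩
  have hz : ad.th (algebraMap (lo A S)[X] (Localization.AtPrime ad.P) (C xj)) *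
      ad.th (algebraMap (lo A S)[X] (Localization.AtPrime ad.P) X) =
      ad.th (algebraMap (lo A S)[X] (Localization.AtPrime ad.P) (C xi)) := by
    rw [ad.th_alg, ad.th_alg, ad.th_alg]
    apply Subtype.ext
    change (ad.ev (C xj) : F) * (ad.ev X : F) = (ad.ev (C xi) : F)
    rw [ad.ev_C, ad.ev_C, ad.ev_X]
    change x j * (x i * (x j)⁻¹) = x i
    rw [mul_left_comm, mul_inv_cancel₀ (h.ne j), mul_one]
  obtain ⟨h4, h5⟩ := @blow_alg (lo A S) (Localization.AtPrime ad.P)
    (lo A (Subring.closure (insert (x i * (x j)⁻¹) (S : Set F)))) F _ hreg _ hC _ hloc _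
    (algebraMap (lo A S)[X] (Localization.AtPrime ad.P)) ad.th ad.th_surj (lo A S).subtype
    Subtype.val_injective _ _ _ (fun i => (⟨x i, h.mem i⟩ : lo A S)) _ _ hij
    (fun h0 => h.ne j (congrArg Subtype.val h0)) h1 h2 hmi hmj hker hz
  have hmem : ∀ l : ι, Function.update x i (x i * (x j)⁻¹) l ∈
      lo A (Subring.closure (insert (x i * (x j)⁻¹) (S : Set F))) := by
    intro l
    by_cases hl : l = i
    · subst hl
      rw [Function.update_self]
      exact le_lo _ _ ad.tS
    · rw [Function.update_of_ne hl]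
      exact lo_mono ad.le (h.mem l)
  refine ⟨lo_le ad.SA, ?_, hmem, h4, fun y hy h0 h1 => inv_mem_lo ad.SA hy h0 h1, ?_⟩
  · intro l
    by_cases hl : l = i
    · subst hl
      rw [Function.update_self]
      exact mul_ne_zero (h.ne _) (inv_ne_zero (h.ne _))
    · rw [Function.update_of_ne hl]
      exact h.ne l
  · refine h5 _ (fun l hl => ?_) ?_
    · apply Subtype.ext
      change Function.update x i (x i * (x j)⁻¹) l = _
      rw [Function.update_of_ne hl, ad.th_alg, ad.ev_C]
    · apply Subtype.ext
      change Function.update x i (x i * (x j)⁻¹) i = _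
      rw [Function.update_self, ad.th_alg, ad.ev_X]

end steps

end Pool.Agent.W418.LU2
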