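import Pool.Agent.H59.L.S8.W418.LU2.Lo

/-!
# Steps of the construction of regular local rings
-/

set_option autoImplicit false
set_option linter.unusedVariables false
set_option linter.unusedSectionVars false

universe u v

namespace Pool.Agent.W418.LU2

open IsLocalRing Polynomial

section indn

variable {B : Type u} [CommRing B] [IsLocalRing B]

/-- The nonunits among the elements are independent in the cotangent space. -/
def IndN {ι : Type} [Fintype ι] (z : ι → B) : Prop :=
  ∀ c : ι → B, (∀ i, z i ∉ maximalIdeal B → c i = 0) →
    ∑ i, c i * z i ∈ maximalIdeal B ^ 2 → ∀ i, c i ∈ maximalIdeal B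

variable {ι κ : Type} [Fintype ι] [Fintype κ] {z : ι → B}

theorem IndN.ind (hz : IndN z) (f : κ → ι) (hf : Function.Injective f)
    (hm : ∀ k, z (f k) ∈ maximalIdeal B) : Ind (fun k => z (f k)) := by
  classical
  refine ⟨hm, fun c hc k => ?_⟩
  have h1 : ∀ i ∉ Set.range f, Function.extend f c 0 i = 0 := by
    intro i hi
    exact Function.extend_apply' _ _ _ hi
  have h2 := hz (Function.extend f c 0) (by
    intro i hi
    apply h1
    rintro ⟨k, rfl⟩
    exact hi (hm k)) (by
    rw [← Fintype.sum_of_injective f hf (fun k => c k * z (f k))]
    · exact hc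
    · intro i hi
      rw [h1 i hi, zero_mul]
    · intro k
      rw [hf.extend_apply]) (f k)
  rwa [hf.extend_apply] at h2

theorem IndN.of_ind (f : κ → ι) (hf : Function.Injective f)
    (hr : ∀ i, z i ∈ maximalIdeal B → i ∈ Set.range f) (h : Ind (fun k => z (f k))) :
    IndN z := by
  intro c hc hs i
  by_cases hi : z i ∈ maximalIdeal B
  · obtain ⟨k, rfl⟩ := hr i hi
    refine h.2 (fun k => c (f k)) ?_ k
    rw [Fintype.sum_of_injective f hf (fun k => c (f k) * z (f k)) (fun i => c i * z i)]
    · exact hs
    · intro i hi
      have h1 : z i ∉ maximalIdeal B := fun h => hi (hr i h)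
      rw [hc i h1, zero_mul]
    · intro k; rfl
  · rw [hc i hi]
    exact Ideal.zero_mem _

theorem IndN.unit [DecidableEq ι] (hz : IndN z) (i : ι) (v u : B) (hu : IsUnit u)
    (hv : v = u * z i) : IndN (Function.update z i v) := by
  have hvm : v ∈ maximalIdeal B ↔ z i ∈ maximalIdeal B := by
    rw [hv]
    exact Ideal.unit_mul_mem_iff_mem _ hu
  intro c hc hs l
  have h1 := hz (Function.update c i (c i * u)) (by
    intro l hl
    by_cases h : l = i
    · subst h
      rw [Function.update_self, hc l (by rw [Function.update_self, hvm]; exact hl), zero_mul]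
    · rw [Function.update_of_ne h]
      exact hc l (by rw [Function.update_of_ne h]; exact hl)) (by
    convert hs using 1
    refine Finset.sum_congr rfl fun l _ => ?_
    by_cases h : l = i
    · subst h
      rw [Function.update_self, Function.update_self, hv]
      ring
    · rw [Function.update_of_ne h, Function.update_of_ne h]) l
  by_cases h : l = i
  · subst h
    rw [Function.update_self] at h1
    exact (Ideal.mul_unit_mem_iff_mem _ hu).1 h1
  · rwa [Function.update_of_ne h] at h1

/-- The elements in the blowing-up. -/
theorem IndN.blow [DecidableEq ι] (hz : IndN z) {i j : ι} (hij : i ≠ j)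
    (hi : z i ∈ maximalIdeal B) (hj : z j ∈ maximalIdeal B) (T : B)
    (hT : T ∈ maximalIdeal B → IndN (Sum.elim z (fun _ : Unit => T))) :
    IndN (Sum.elim (Function.update z i T) (fun _ : Unit => z j * T - z i)) := by
  intro c hc hs
  have hd : z j * T - z i ∈ maximalIdeal B :=
    (maximalIdeal B).sub_mem ((maximalIdeal B).mul_mem_right _ hj) hi
  have hs' : ∑ l, c (Sum.inl l) * Function.update z i T l +
      c (Sum.inr ()) * (z j * T - z i) ∈ maximalIdeal B ^ 2 := by
    rw [Fintype.sum_sum_type, Fintype.sum_unique (ι := Unit)] at hs
    exact hs
  have key : ∀ f : ι → B, ∑ l, f l = f i + f j + ∑ l ∈ (Finset.univ.erase i).erase j, f l := by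
    intro f
    rw [← Finset.add_sum_erase _ _ (Finset.mem_univ i), ← Finset.add_sum_erase _ _
      (Finset.mem_erase.2 ⟨hij.symm, Finset.mem_univ j⟩), add_assoc]
  by_cases hTm : T ∈ maximalIdeal B
  · have h1 := hT hTm (Sum.elim (Function.update (fun l => c (Sum.inl l)) i (- c (Sum.inr ())))
      (fun _ => c (Sum.inl i))) (by
        rintro (l | l) hl
        · by_cases h : l = i
          · subst h
            exact absurd hi hl
          · change Function.update (fun l => c (Sum.inl l)) i (- c (Sum.inr ())) l = 0
            rw [Function.update_of_ne h]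
            apply hc
            change Function.update z i T l ∉ _
            rw [Function.update_of_ne h]
            exact hl
        · exact absurd hTm hl) (by
        rw [Fintype.sum_sum_type, Fintype.sum_unique (ι := Unit)]
        have h2 : z j * T ∈ maximalIdeal B ^ 2 := by
          rw [pow_two]
          exact Ideal.mul_mem_mul hj hTm
        have h3 := Ideal.sub_mem _ hs' (Ideal.mul_mem_left _ (c (Sum.inr ())) h2)
        convert h3 using 1
        simp only [Sum.elim_inl, Sum.elim_inr]
        rw [key, key (fun l => c (Sum.inl l) * Function.update z i T l)]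
        have h4 : ∑ l ∈ (Finset.univ.erase i).erase j,
            Function.update (fun l => c (Sum.inl l)) i (- c (Sum.inr ())) l * z l =
            ∑ l ∈ (Finset.univ.erase i).erase j, c (Sum.inl l) * Function.update z i T l := by
          refine Finset.sum_congr rfl fun l hl => ?_
          have h5 : l ≠ i := (Finset.mem_erase.1 (Finset.mem_erase.1 hl).2).1
          rw [Function.update_of_ne h5, Function.update_of_ne h5]
        rw [h4]
        simp only [Function.update_self, Function.update_of_ne hij.symm]
        ring)
    rintro (l | l)
    · by_cases h : l = i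
      · subst h
        exact h1 (Sum.inr ())
      · have h2 := h1 (Sum.inl l)
        change Function.update (fun l => c (Sum.inl l)) i (- c (Sum.inr ())) l ∈ _ at h2
        rwa [Function.update_of_ne h] at h2
    · have h2 := h1 (Sum.inl i)
      change Function.update (fun l => c (Sum.inl l)) i (- c (Sum.inr ())) i ∈ _ at h2
      rw [Function.update_self] at h2
      exact (Ideal.neg_mem_iff _).1 h2
  · have hci : c (Sum.inl i) = 0 := by
      apply hc
      change Function.update z i T i ∉ _
      rwa [Function.update_self]
    have h1 := hz (Function.update (Function.update (fun l => c (Sum.inl l)) i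
      (- c (Sum.inr ()))) j (c (Sum.inl j) + c (Sum.inr ()) * T)) (by
        intro l hl
        by_cases h : l = i
        · subst h
          exact absurd hi hl
        · by_cases h' : l = j
          · subst h'
            exact absurd hj hl
          · rw [Function.update_of_ne h', Function.update_of_ne h]
            apply hc
            change Function.update z i T l ∉ _
            rw [Function.update_of_ne h]
            exact hl) (by
        convert hs' using 1
        rw [key, key (fun l => c (Sum.inl l) * Function.update z i T l)]
        have h4 : ∑ l ∈ (Finset.univ.erase i).erase j,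
            Function.update (Function.update (fun l => c (Sum.inl l)) i
              (- c (Sum.inr ()))) j (c (Sum.inl j) + c (Sum.inr ()) * T) l * z l =
            ∑ l ∈ (Finset.univ.erase i).erase j, c (Sum.inl l) * Function.update z i T l := by
          refine Finset.sum_congr rfl fun l hl => ?_
          have h5 : l ≠ i := (Finset.mem_erase.1 (Finset.mem_erase.1 hl).2).1
          have h6 : l ≠ j := (Finset.mem_erase.1 hl).1
          rw [Function.update_of_ne h6, Function.update_of_ne h5, Function.update_of_ne h5]
        rw [h4]
        simp only [Function.update_self, Function.update_of_ne hij.symm, Function.update_of_ne hij,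
          hci]
        ring)
    have hd' : c (Sum.inr ()) ∈ maximalIdeal B := by
      have h2 := h1 i
      rw [Function.update_of_ne hij, Function.update_self] at h2
      exact (Ideal.neg_mem_iff _).1 h2
    rintro (l | l)
    · by_cases h : l = i
      · subst h
        rw [hci]
        exact Ideal.zero_mem _
      · have h2 := h1 l
        by_cases h' : l = j
        · subst h'
          rw [Function.update_self] at h2
          have h3 := (maximalIdeal B).sub_mem h2 ((maximalIdeal B).mul_mem_right T hd')
          rwa [add_sub_cancel_right] at h3
        · rwa [Function.update_of_ne h', Function.update_of_ne h] at h2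
    · exact hd'

end indn

section quot

variable {B C' : Type u} [CommRing B] [IsRegularLocalRing B] [CommRing C'] [IsLocalRing C']

/-- Regularity and independence in the quotient. -/
theorem quot_regular' {ι κ : Type} [Fintype ι] [Fintype κ] {z : ι → B} {h : κ → B}
    (hz : IndN (Sum.elim z h)) (hh : ∀ k, h k ∈ maximalIdeal B) (θ : B →+* C')
    (hθ : Function.Surjective θ) (hk : RingHom.ker θ = Ideal.span (Set.range h)) :
    IsRegularLocalRing C' ∧ IndN (fun i => θ (z i)) := by
  classical
  let N := {i : ι // z i ∈ maximalIdeal B}
  have h1 : Ind (Sum.elim (fun i : N => z i) h) := by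
    have h2 := hz.ind (Sum.map (Subtype.val : N → ι) (id : κ → κ))
      (Sum.map_injective.2 ⟨Subtype.val_injective, Function.injective_id⟩) (by
        rintro (l | l)
        · exact l.2
        · exact hh l)
    convert h2 using 1
    funext l
    rcases l with l | l <;> rfl
  obtain ⟨h3, h4⟩ := quot_regular h1 θ hθ hk
  refine ⟨h3, IndN.of_ind (Subtype.val : N → ι) Subtype.val_injective ?_ h4⟩
  intro i hi
  refine ⟨⟨i, ?_⟩, rfl⟩
  by_contra hcon
  rw [mem_maximalIdeal, mem_nonunits_iff, not_not] at hcon
  exact hi (hcon.map θ)

end quot

section scale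

/-- The kernel of the evaluation at a fraction. -/
theorem scale_mem {B : Type u} {F : Type v} [CommRing B] [Field F] (f : B →+* F)
    (hf : Function.Injective f) (a b : B) (hb : b ≠ 0) (g : B[X])
    (hg : eval₂ f (f a * (f b)⁻¹) g = 0) :
    C b ^ g.natDegree * g ∈ Ideal.span {C b * X - C a} := by
  have hb' : f b ≠ 0 := fun h => hb (hf (by rw [h, map_zero]))
  have h1 : eval a (scaleRoots g b) = 0 := by
    apply hf
    have h2 := scaleRoots_eval₂_mul f (f a * (f b)⁻¹) b (p := g)
    rw [hg, mul_zero, mul_comm (f a), mul_inv_cancel_left₀ hb'] at h2
    rw [map_zero, ← h2, ← eval₂_at_apply]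
  rw [← Ideal.Quotient.eq_zero_iff_mem]
  let q := Ideal.Quotient.mk (Ideal.span {C b * X - C a})
  have h3 : q (C a) = q (C b) * q X := by
    rw [← map_mul, eq_comm, ← sub_eq_zero, ← map_sub]
    exact Ideal.Quotient.eq_zero_iff_mem.2 (Ideal.mem_span_singleton_self _)
  have h4 := scaleRoots_eval₂_mul (q.comp C) (q X) b (p := g)
  have h5 : eval₂ (q.comp C) (q X) g = q g := by
    rw [← hom_eval₂, eval₂_C_X]
  have h6 : eval₂ (q.comp C) ((q.comp C) b * q X) (scaleRoots g b) = 0 := by
    have h7 : (q.comp C) b * q X = (q.comp C) a := h3.symm
    rw [h7, eval₂_at_apply, h1, map_zero]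
  rw [h6, h5] at h4
  rw [map_mul, map_pow]
  exact h4.symm

end scale

end Pool.Agent.W418.LU2
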