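import Pool.Agent.H59.L.S8.W418.LU2.Reg

/-!
# Comparison of monomials
-/

set_option autoImplicit false
set_option linter.unusedVariables false
set_option linter.unusedSectionVars false

universe u v

namespace Pool.Agent.W418.LU2

open IsLocalRing Polynomial

variable {F : Type u} [Field F] {ι : Type} [Fintype ι]

/-- The monomial with given exponents. -/
def mo (x : ι → F) (δ : ι → ℤ) : F := ∏ i, x i ^ δ i

lemma mo_zero (x : ι → F) : mo x 0 = 1 := by simp [mo]

lemma mo_neg (x : ι → F) (δ : ι → ℤ) : mo x (-δ) = (mo x δ)⁻¹ := by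
  simp [mo, zpow_neg, Finset.prod_inv_distrib]

lemma mo_add {x : ι → F} (hx : ∀ i, x i ≠ 0) (δ γ : ι → ℤ) :
    mo x (δ + γ) = mo x δ * mo x γ := by
  unfold mo
  rw [← Finset.prod_mul_distrib]
  exact Finset.prod_congr rfl fun i _ => zpow_add₀ (hx i) _ _

lemma mo_ne_zero {x : ι → F} (hx : ∀ i, x i ≠ 0) (δ : ι → ℤ) : mo x δ ≠ 0 :=
  Finset.prod_ne_zero_iff.2 fun i _ => zpow_ne_zero _ (hx i)

lemma mo_single [DecidableEq ι] (x : ι → F) (i : ι) : mo x (Pi.single i 1) = x i := by
  unfold mo
  rw [Finset.prod_eq_single i]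
  · rw [Pi.single_eq_same, zpow_one]
  · intro j _ hj
    rw [Pi.single_eq_of_ne hj, zpow_zero]
  · intro h; exact absurd (Finset.mem_univ _) h

lemma mo_mem {P : Subring F} {x : ι → F} (hx : ∀ i, x i ∈ P) {δ : ι → ℤ} (hδ : 0 ≤ δ) :
    mo x δ ∈ P := by
  refine P.prod_mem fun i _ => ?_
  obtain ⟨n, hn⟩ := Int.eq_ofNat_of_zero_le (hδ i)
  rw [hn, zpow_natCast]
  exact P.pow_mem (hx i) n

lemma mo_update [DecidableEq ι] {x : ι → F} (hx : ∀ i, x i ≠ 0) {i j : ι} (hij : i ≠ j)
    (δ : ι → ℤ) : mo x δ =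
      mo (Function.update x i (x i * (x j)⁻¹)) (Function.update δ j (δ i + δ j)) := by
  have key : ∀ f : ι → F, ∏ l, f l = f i * (f j * ∏ l ∈ (Finset.univ.erase i).erase j, f l) := by
    intro f
    rw [← Finset.mul_prod_erase _ _ (Finset.mem_univ i), ← Finset.mul_prod_erase _ _
      (Finset.mem_erase.2 ⟨hij.symm, Finset.mem_univ j⟩)]
  unfold mo
  rw [key, key (fun l => Function.update x i (x i * (x j)⁻¹) l ^
    Function.update δ j (δ i + δ j) l)]
  have h4 : ∏ l ∈ (Finset.univ.erase i).erase j, x l ^ δ l =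
      ∏ l ∈ (Finset.univ.erase i).erase j, Function.update x i (x i * (x j)⁻¹) l ^
    Function.update δ j (δ i + δ j) l := by
    refine Finset.prod_congr rfl fun l hl => ?_
    have h5 : l ≠ i := (Finset.mem_erase.1 (Finset.mem_erase.1 hl).2).1
    have h6 : l ≠ j := (Finset.mem_erase.1 hl).1
    rw [Function.update_of_ne h5, Function.update_of_ne h6]
  rw [h4]
  simp only [Function.update_self, Function.update_of_ne hij, Function.update_of_ne hij.symm]
  rw [← mul_assoc, ← mul_assoc]
  congr 1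
  rw [mul_zpow, inv_zpow, zpow_add₀ (hx j), mul_assoc, ← mul_assoc ((x j ^ δ i)⁻¹),
    inv_mul_cancel₀ (zpow_ne_zero _ (hx j)), one_mul]

/-- The monomials form a group and are comparable. -/
structure Mo (A : Subring F) (N : Submonoid F) : Prop where
  ne : ∀ n ∈ N, n ≠ 0
  inv : ∀ n ∈ N, n⁻¹ ∈ N
  cmp : ∀ n ∈ N, n ∈ A ∨ n⁻¹ ∈ A

/-- A stage of the construction. -/
structure Stg (A S0 : Subring F) (N : Submonoid F) (T : Set F) (x : ι → F) : Prop where
  fin : T.Finite
  TN : ∀ t ∈ T, t ∈ N
  TA : ∀ t ∈ T, t ∈ A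
  xN : ∀ i, x i ∈ N
  reg : RegP A (lo A (Subring.closure (S0 ∪ T))) x

/-- The monomials in `x` are monomials in `x'`. -/
def Ref {κ : Type} [Fintype κ] (x : ι → F) (x' : κ → F) : Prop :=
  ∀ γ : ι → ℤ, 0 ≤ γ → ∃ γ' : κ → ℤ, 0 ≤ γ' ∧ mo x γ = mo x' γ'

lemma Ref.refl (x : ι → F) : Ref x x := fun γ h => ⟨γ, h, rfl⟩

lemma Ref.trans {κ μ : Type} [Fintype κ] [Fintype μ] {x : ι → F} {y : κ → F} {z : μ → F}
    (h : Ref x y) (h' : Ref y z) : Ref x z := by
  intro γ hγ
  obtain ⟨γ', h1, h2⟩ := h γ hγ
  obtain ⟨γ'', h3, h4⟩ := h' γ' h1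
  exact ⟨γ'', h3, h2.trans h4⟩

lemma Ref.all {κ : Type} [Fintype κ] {x : ι → F} {y : κ → F} (hx : ∀ i, x i ≠ 0)
    (hy : ∀ i, y i ≠ 0) (h : Ref x y) (γ : ι → ℤ) : ∃ γ', mo x γ = mo y γ' := by
  obtain ⟨γ1, -, h1⟩ := h (fun i => max (γ i) 0) (fun i => le_max_right _ _)
  obtain ⟨γ2, -, h2⟩ := h (fun i => max (-γ i) 0) (fun i => le_max_right _ _)
  refine ⟨γ1 - γ2, ?_⟩
  rw [sub_eq_add_neg, mo_add hy, mo_neg, ← h1, ← h2, ← mo_neg, ← mo_add hx]
  congr 1
  funext i
  simp only [Pi.add_apply, Pi.neg_apply]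
  omega

/-- Units times monomials. -/
def PMon (P : Subring F) (x : ι → F) (g : F) : Prop :=
  ∃ u, u ≠ 0 ∧ u ∈ P ∧ u⁻¹ ∈ P ∧ ∃ δ : ι → ℤ, g = u * mo x δ

lemma PMon.mul {P : Subring F} {x : ι → F} (hx : ∀ i, x i ≠ 0) {g h : F} (hg : PMon P x g)
    (hh : PMon P x h) : PMon P x (g * h) := by
  obtain ⟨u, u0, u1, u2, δ, rfl⟩ := hg
  obtain ⟨v, v0, v1, v2, γ, rfl⟩ := hh
  refine ⟨u * v, mul_ne_zero u0 v0, P.mul_mem u1 v1, ?_, δ + γ, ?_⟩
  · rw [mul_inv]; exact P.mul_mem u2 v2
  · rw [mo_add hx]; ring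

lemma PMon.inv {P : Subring F} {x : ι → F} {g : F} (hg : PMon P x g) : PMon P x g⁻¹ := by
  obtain ⟨u, u0, u1, u2, δ, rfl⟩ := hg
  refine ⟨u⁻¹, inv_ne_zero u0, u2, by rwa [inv_inv], -δ, ?_⟩
  rw [mul_inv, mo_neg]

lemma PMon.one {P : Subring F} {x : ι → F} : PMon P x 1 :=
  ⟨1, one_ne_zero, P.one_mem, by rw [inv_one]; exact P.one_mem, 0, by rw [mo_zero, mul_one]⟩

lemma PMon.ref {κ : Type} [Fintype κ] {P P' : Subring F} {x : ι → F} {y : κ → F}
    (hx : ∀ i, x i ≠ 0) (hy : ∀ i, y i ≠ 0) (hP : P ≤ P') (h : Ref x y) {g : F}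
    (hg : PMon P x g) : PMon P' y g := by
  obtain ⟨u, u0, u1, u2, δ, rfl⟩ := hg
  obtain ⟨δ', h1⟩ := h.all hx hy δ
  exact ⟨u, u0, hP u1, hP u2, δ', by rw [h1]⟩

section

variable {A S0 : Subring F} {N : Submonoid F}

lemma closure_insert_closure (t : F) (U : Set F) :
    Subring.closure (insert t (Subring.closure U : Set F)) = Subring.closure (insert t U) := by
  apply le_antisymm
  · rw [Subring.closure_le]
    rintro y (rfl | hy)
    · exact Subring.subset_closure (Set.mem_insert _ _)
    · exact Subring.closure_mono (Set.subset_insert _ _) hy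
  · rw [Subring.closure_le]
    rintro y (rfl | hy)
    · exact Subring.subset_closure (Set.mem_insert _ _)
    · exact Subring.subset_closure (Set.mem_insert_of_mem _ (Subring.subset_closure hy))

lemma Stg.SA (hS0 : S0 ≤ A) {T : Set F} {x : ι → F} (h : Stg A S0 N T x) :
    Subring.closure (S0 ∪ T : Set F) ≤ A := by
  rw [Subring.closure_le]
  rintro y (hy | hy)
  · exact hS0 hy
  · exact h.TA y hy

lemma Stg.step [DecidableEq ι] (hA : Loc A) (hN : Mo A N) (hS0 : S0 ≤ A) {T : Set F} {x : ι → F}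
    (h : Stg A S0 N T x) {i j : ι} (hij : i ≠ j) (ht : x i * (x j)⁻¹ ∈ A) :
    ∃ T', T ⊆ T' ∧ Stg A S0 N T' (Function.update x i (x i * (x j)⁻¹)) := by
  have htN : x i * (x j)⁻¹ ∈ N := N.mul_mem (h.xN i) (hN.inv _ (h.xN j))
  have hxN : ∀ l, Function.update x i (x i * (x j)⁻¹) l ∈ N := by
    intro l
    by_cases hl : l = i
    · subst hl; rwa [Function.update_self]
    · rw [Function.update_of_ne hl]; exact h.xN l
  by_cases hj : (x j)⁻¹ ∈ A
  · exact ⟨T, le_rfl, h.fin, h.TN, h.TA, hxN, h.reg.unitStep i j hj⟩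
  · have hi : (x i)⁻¹ ∉ A := by
      intro hi
      apply hj
      have h1 : (x j)⁻¹ = x i * (x j)⁻¹ * (x i)⁻¹ := by
        rw [mul_comm (x i), mul_assoc, mul_inv_cancel₀ (h.reg.ne i), mul_one]
      rw [h1]
      exact A.mul_mem ht hi
    have h1 := h.reg.blow hA (h.SA hS0) hij hi hj ht
    rw [closure_insert_closure, ← Set.union_insert] at h1
    refine ⟨insert (x i * (x j)⁻¹) T, Set.subset_insert _ _, h.fin.insert _, ?_, ?_, hxN, h1⟩
    · rintro t (rfl | ht')
      · exact htN
      · exact h.TN t ht'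
    · rintro t (rfl | ht')
      · exact ht
      · exact h.TA t ht'

/-- The aim of the comparison of a monomial with `1`. -/
def Goal (A S0 : Subring F) (N : Submonoid F) (T : Set F) (x : ι → F) (δ : ι → ℤ) : Prop :=
  ∃ (T' : Set F) (x' : ι → F), T ⊆ T' ∧ Stg A S0 N T' x' ∧ Ref x x' ∧
    ∃ δ', mo x δ = mo x' δ' ∧ (0 ≤ δ' ∨ δ' ≤ 0)

lemma Goal.neg {T : Set F} {x : ι → F} {δ : ι → ℤ} (h : Goal A S0 N T x (-δ)) :
    Goal A S0 N T x δ := by
  obtain ⟨T', x', h1, h2, h3, δ', h4, h5⟩ := h
  refine ⟨T', x', h1, h2, h3, -δ', ?_, ?_⟩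
  · rw [mo_neg] at h4
    rw [mo_neg, ← h4, inv_inv]
  · rcases h5 with h5 | h5
    · exact Or.inr (neg_nonpos.2 h5)
    · exact Or.inl (neg_nonneg.2 h5)

lemma ref_update [DecidableEq ι] {x : ι → F} (hx : ∀ i, x i ≠ 0) {i j : ι} (hij : i ≠ j) :
    Ref x (Function.update x i (x i * (x j)⁻¹)) := by
  intro γ hγ
  refine ⟨_, ?_, mo_update hx hij γ⟩
  intro l
  by_cases hl : l = j
  · subst hl
    rw [Function.update_self]
    exact add_nonneg (hγ i) (hγ l)
  · rw [Function.update_of_ne hl]
    exact hγ l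

lemma Goal.step [DecidableEq ι] (hA : Loc A) (hN : Mo A N) (hS0 : S0 ≤ A) {T : Set F} {x : ι → F}
    (h : Stg A S0 N T x) {i j : ι} (hij : i ≠ j) (ht : x i * (x j)⁻¹ ∈ A) (δ : ι → ℤ)
    (hg : ∀ (T' : Set F) (x' : ι → F), Stg A S0 N T' x' →
      Goal A S0 N T' x' (Function.update δ j (δ i + δ j))) : Goal A S0 N T x δ := by
  obtain ⟨T', h1, h2⟩ := h.step hA hN hS0 hij ht
  obtain ⟨T'', x'', h3, h4, h5, δ', h6, h7⟩ := hg T' _ h2
  refine ⟨T'', x'', h1.trans h3, h4, (ref_update h.reg.ne hij).trans h5, δ', ?_, h7⟩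
  rw [mo_update h.reg.ne hij]
  exact h6

theorem goal_Q [DecidableEq ι] (hA : Loc A) (hN : Mo A N) (hS0 : S0 ≤ A) (M : ℕ)
    (hR : ∀ (T : Set F) (x : ι → F) (δ : ι → ℤ), Stg A S0 N T x → (∀ i, |δ i| ≤ M) →
      Goal A S0 N T x δ) (c : ℕ) : ∀ (q : ℕ) (T : Set F) (x : ι → F) (δ : ι → ℤ),
    Stg A S0 N T x → (∀ i, |δ i| ≤ M + 1) →
    (Finset.univ.filter fun i => |δ i| = M + 1).card ≤ c → (∃ i, δ i = M + 1) →
    (Finset.univ.filter fun i => δ i < 0).card ≤ q → Goal A S0 N T x δ := by
  induction c with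
  | zero =>
    intro q T x δ h hb hc ⟨i, hi⟩ hq
    exfalso
    have h1 : i ∈ Finset.univ.filter fun i => |δ i| = M + 1 := by
      rw [Finset.mem_filter, hi]
      exact ⟨Finset.mem_univ _, abs_of_nonneg (by positivity)⟩
    rw [Nat.le_zero, Finset.card_eq_zero] at hc
    rw [hc] at h1
    exact absurd h1 (Finset.notMem_empty _)
  | succ c ihc =>
    intro q
    induction q with
    | zero =>
      intro T x δ h hb hc ⟨i, hi⟩ hq
      refine ⟨T, x, le_rfl, h, Ref.refl x, δ, rfl, Or.inl fun l => ?_⟩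
      rw [Nat.le_zero, Finset.card_eq_zero] at hq
      by_contra hl
      have h1 : l ∈ Finset.univ.filter fun i => δ i < 0 := by
        rw [Finset.mem_filter]
        exact ⟨Finset.mem_univ _, not_le.1 hl⟩
      rw [hq] at h1
      exact absurd h1 (Finset.notMem_empty _)
    | succ q ihq =>
      intro T x δ h hb hc ⟨i, hi⟩ hq
      by_cases hneg : ∃ j, δ j < 0
      · obtain ⟨j, hj⟩ := hneg
        have hij : i ≠ j := by
          rintro rfl
          rw [hi] at hj
          exact absurd hj (not_lt.2 (by positivity))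
        have hbj := hb j
        rw [abs_le] at hbj
        have hbd : ∀ i' j', i' ≠ j' → δ i' + δ j' = δ i + δ j →
            ∀ l, |Function.update δ j' (δ i' + δ j') l| ≤ M + 1 := by
          intro i' j' _ he l
          by_cases hl : l = j'
          · subst hl
            rw [Function.update_self, he, abs_le]
            constructor <;> omega
          · rw [Function.update_of_ne hl]
            exact hb l
        rcases hN.cmp _ (N.mul_mem (h.xN i) (hN.inv _ (h.xN j))) with ht | ht
        · refine Goal.step hA hN hS0 h hij ht δ fun T' x' h' => ?_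
          refine ihq T' x' _ h' (hbd i j hij rfl) ?_ ⟨i, ?_⟩ ?_
          · refine (Finset.card_le_card ?_).trans hc
            intro l hl
            rw [Finset.mem_filter] at hl ⊢
            refine ⟨Finset.mem_univ _, ?_⟩
            by_cases hlj : l = j
            · subst hlj
              exfalso
              have h3 := hl.2
              rw [Function.update_self, abs_eq (by positivity)] at h3
              omega
            · have h3 := hl.2
              rwa [Function.update_of_ne hlj] at h3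
          · rw [Function.update_of_ne hij]
            exact hi
          · have h3 : (Finset.univ.filter fun l => Function.update δ j (δ i + δ j) l < 0) ⊆
                (Finset.univ.filter fun i => δ i < 0).erase j := by
              intro l hl
              rw [Finset.mem_filter] at hl
              by_cases hlj : l = j
              · subst hlj
                exfalso
                have h3 := hl.2
                rw [Function.update_self] at h3
                omega
              · have h3 := hl.2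
                rw [Function.update_of_ne hlj] at h3
                rw [Finset.mem_erase, Finset.mem_filter]
                exact ⟨hlj, Finset.mem_univ _, h3⟩
            have h4 := Finset.card_le_card h3
            rw [Finset.card_erase_of_mem (by
              rw [Finset.mem_filter]; exact ⟨Finset.mem_univ _, hj⟩)] at h4
            omega
        · have ht' : x j * (x i)⁻¹ ∈ A := by
            rw [mul_inv, inv_inv, mul_comm] at ht
            exact ht
          refine Goal.step hA hN hS0 h hij.symm ht' δ fun T' x' h' => ?_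
          have hb' := hbd j i hij.symm (add_comm _ _)
          have hc' : (Finset.univ.filter fun l => |Function.update δ i (δ j + δ i) l| =
              M + 1).card ≤ c := by
            have h3 : (Finset.univ.filter fun l => |Function.update δ i (δ j + δ i) l| = M + 1) ⊆
                (Finset.univ.filter fun i => |δ i| = M + 1).erase i := by
              intro l hl
              rw [Finset.mem_filter] at hl
              by_cases hli : l = i
              · subst hli
                exfalso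
                have h3 := hl.2
                rw [Function.update_self, abs_eq (by positivity)] at h3
                omega
              · have h3 := hl.2
                rw [Function.update_of_ne hli] at h3
                rw [Finset.mem_erase, Finset.mem_filter]
                exact ⟨hli, Finset.mem_univ _, h3⟩
            have h4 := Finset.card_le_card h3
            rw [Finset.card_erase_of_mem (by
              rw [Finset.mem_filter, hi]
              exact ⟨Finset.mem_univ _, abs_of_nonneg (by positivity)⟩)] at h4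
            omega
          by_cases h3 : ∃ l, Function.update δ i (δ j + δ i) l = M + 1
          · exact ihc _ T' x' _ h' hb' hc' h3 le_rfl
          · by_cases h4 : ∃ l, Function.update δ i (δ j + δ i) l = -(M + 1)
            · apply Goal.neg
              refine ihc _ T' x' _ h' ?_ ?_ ?_ le_rfl
              · intro l
                rw [Pi.neg_apply, abs_neg]
                exact hb' l
              · simpa only [Pi.neg_apply, abs_neg] using hc'
              · obtain ⟨l, hl⟩ := h4
                exact ⟨l, by rw [Pi.neg_apply, hl, neg_neg]⟩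
            · apply hR T' x' _ h'
              intro l
              have h5 := hb' l
              have h6 : Function.update δ i (δ j + δ i) l ≠ M + 1 := fun h => h3 ⟨l, h⟩
              have h7 : Function.update δ i (δ j + δ i) l ≠ -(M + 1) := fun h => h4 ⟨l, h⟩
              rw [abs_le] at h5 ⊢
              constructor <;> omega
      · refine ⟨T, x, le_rfl, h, Ref.refl x, δ, rfl, Or.inl fun l => ?_⟩
        by_contra hl
        exact hneg ⟨l, not_le.1 hl⟩

theorem goal_all [DecidableEq ι] (hA : Loc A) (hN : Mo A N) (hS0 : S0 ≤ A) (M : ℕ) :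
    ∀ (T : Set F) (x : ι → F) (δ : ι → ℤ), Stg A S0 N T x → (∀ i, |δ i| ≤ M) →
      Goal A S0 N T x δ := by
  induction M with
  | zero =>
    intro T x δ h hb
    refine ⟨T, x, le_rfl, h, Ref.refl x, δ, rfl, Or.inl fun l => ?_⟩
    have h1 := hb l
    rw [abs_le] at h1
    simp only [Nat.cast_zero, neg_zero] at h1
    exact h1.1
  | succ M ih =>
    intro T x δ h hb
    have hb' : ∀ i, |δ i| ≤ M + 1 := fun i => by
      have := hb i
      push_cast at this
      exact this
    by_cases h3 : ∃ l, δ l = M + 1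
    · exact goal_Q hA hN hS0 M ih _ _ T x δ h hb' le_rfl h3 le_rfl
    · by_cases h4 : ∃ l, δ l = -(M + 1)
      · apply Goal.neg
        refine goal_Q hA hN hS0 M ih _ _ T x _ h ?_ le_rfl ?_ le_rfl
        · intro l
          rw [Pi.neg_apply, abs_neg]
          exact hb' l
        · obtain ⟨l, hl⟩ := h4
          exact ⟨l, by rw [Pi.neg_apply, hl, neg_neg]⟩
      · apply ih T x _ h
        intro l
        have h5 := hb' l
        have h6 : δ l ≠ M + 1 := fun h => h3 ⟨l, h⟩
        have h7 : δ l ≠ -(M + 1) := fun h => h4 ⟨l, h⟩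
        rw [abs_le] at h5 ⊢
        constructor <;> omega

theorem goal (hA : Loc A) (hN : Mo A N) (hS0 : S0 ≤ A) {T : Set F} {x : ι → F}
    (h : Stg A S0 N T x) (δ : ι → ℤ) : Goal A S0 N T x δ := by
  classical
  refine goal_all hA hN hS0 (∑ i, (δ i).natAbs) T x δ h fun i => ?_
  rw [← Int.natCast_natAbs]
  exact_mod_cast Finset.single_le_sum (f := fun i => (δ i).natAbs) (fun _ _ => Nat.zero_le _)
    (Finset.mem_univ i)

/-- Comparison of finitely many monomials. -/
theorem cmp_all (hA : Loc A) (hN : Mo A N) (hS0 : S0 ≤ A) {G : Set F} (hG : G.Finite) :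
    ∀ {T : Set F} {x : ι → F} (h : Stg A S0 N T x)
    (hGx : ∀ g ∈ G, PMon (lo A (Subring.closure (S0 ∪ T))) x g),
    ∃ (T' : Set F) (x' : ι → F), T ⊆ T' ∧ Stg A S0 N T' x' ∧ Ref x x' ∧
      ∀ g ∈ G, g ∈ A → g ∈ lo A (Subring.closure (S0 ∪ T')) := by
  induction G, hG using Set.Finite.induction_on with
  | empty =>
    intro T x h _
    exact ⟨T, x, le_rfl, h, Ref.refl x, fun g hg => hg.elim⟩
  | @insert a G ha hG ih =>
    intro T x h hGx
    obtain ⟨u, u0, u1, u2, δ, hδ⟩ := hGx a (Set.mem_insert _ _)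
    obtain ⟨T1, x1, h1, h2, h3, δ', h4, h5⟩ := goal hA hN hS0 h δ
    have hle : ∀ {T T' : Set F}, T ⊆ T' → lo A (Subring.closure (S0 ∪ T)) ≤
        lo A (Subring.closure (S0 ∪ T')) := fun hT =>
      lo_mono (Subring.closure_mono (Set.union_subset_union_right _ hT))
    obtain ⟨T2, x2, h6, h7, h8, h9⟩ := ih h2 fun g hg =>
      (hGx g (Set.mem_insert_of_mem _ hg)).ref h.reg.ne h2.reg.ne (hle h1) h3
    refine ⟨T2, x2, h1.trans h6, h7, h3.trans h8, ?_⟩
    rintro g (rfl | hg) hgA
    · refine hle h6 ?_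
      rw [hδ, h4]
      rcases h5 with h5 | h5
      · exact Subring.mul_mem _ (hle h1 u1) (mo_mem h2.reg.mem h5)
      · have h10 : (u * mo x1 δ')⁻¹ ∈ lo A (Subring.closure (S0 ∪ T1)) := by
          rw [mul_inv, ← mo_neg]
          exact Subring.mul_mem _ (hle h1 u2) (mo_mem h2.reg.mem (neg_nonneg.2 h5))
        have h11 := h2.reg.inv _ h10 (inv_ne_zero (mul_ne_zero u0 (mo_ne_zero h2.reg.ne _))) (by
          rw [inv_inv, ← h4, ← hδ]
          exact hgA)
        rwa [inv_inv] at h11
    · exact h9 g hg hgA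

/-- Adjoining a transcendental monomial. -/
theorem Stg.trans (hA : Loc A) (hS0 : S0 ≤ A) {T : Set F} {x : ι → F}
    (h : Stg A S0 N T x) {t : F} (htN : t ∈ N) (htA : t ∈ A) (ht0 : t ≠ 0)
    (htr : ∀ g : (lo A (Subring.closure (S0 ∪ T)))[X],
      eval₂ (lo A (Subring.closure (S0 ∪ T))).subtype t g = 0 → g = 0) :
    Stg A S0 N (insert t T) (Sum.elim x fun _ : Unit => t) := by
  have h1 := h.reg.trans hA (h.SA hS0) htA ht0 htr
  rw [closure_insert_closure, ← Set.union_insert] at h1
  refine ⟨h.fin.insert _, ?_, ?_, ?_, h1⟩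
  · rintro y (rfl | hy)
    · exact htN
    · exact h.TN y hy
  · rintro y (rfl | hy)
    · exact htA
    · exact h.TA y hy
  · rintro (l | l)
    · exact h.xN l
    · exact htN

end

end Pool.Agent.W418.LU2
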