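import Pool.Agent.H59.L.S8.W418.LU2.Tor2

/-!
# Stages and derivations
-/

set_option autoImplicit false
set_option linter.unusedVariables false
set_option linter.unusedSectionVars false

universe u v

namespace Pool.Agent.W418.LU2

open IsLocalRing

section pmon

variable {F : Type u} [Field F] {ι : Type} [Fintype ι]

lemma PMon.pow {P : Subring F} {x : ι → F} (hx : ∀ i, x i ≠ 0) {g : F} (hg : PMon P x g) (n : ℕ) :
    PMon P x (g ^ n) := by
  induction n with
  | zero => rw [pow_zero]; exact PMon.one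
  | succ n ih => rw [pow_succ]; exact ih.mul hx hg

lemma PMon.zpow {P : Subring F} {x : ι → F} (hx : ∀ i, x i ≠ 0) {g : F} (hg : PMon P x g) (n : ℤ) :
    PMon P x (g ^ n) := by
  rcases n with n | n
  · rw [Int.ofNat_eq_natCast, zpow_natCast]
    exact hg.pow hx n
  · rw [zpow_negSucc]
    exact (hg.pow hx _).inv

lemma PMon.prod {κ : Type} {P : Subring F} {x : ι → F} (hx : ∀ i, x i ≠ 0) (s : Finset κ)
    {g : κ → F} (hg : ∀ i ∈ s, PMon P x (g i)) : PMon P x (∏ i ∈ s, g i) := by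
  classical
  induction s using Finset.induction_on with
  | empty => simpa using PMon.one
  | insert a s ha ih =>
    rw [Finset.prod_insert ha]
    exact (hg a (Finset.mem_insert_self _ _)).mul hx
      (ih fun i hi => hg i (Finset.mem_insert_of_mem hi))

lemma PMon.mo {κ : Type} [Fintype κ] {P : Subring F} {x : ι → F} (hx : ∀ i, x i ≠ 0)
    {g : κ → F} (hg : ∀ i, PMon P x (g i)) (m : κ → ℤ) : PMon P x (mo g m) :=
  PMon.prod hx _ fun i _ => (hg i).zpow hx _

lemma PMon.of_mo {P : Subring F} {x : ι → F} (δ : ι → ℤ) : PMon P x (LU2.mo x δ) :=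
  ⟨1, one_ne_zero, P.one_mem, by rw [inv_one]; exact P.one_mem, δ, by rw [one_mul]⟩

end pmon

section stage

variable {E K : Type u} [Field E] [Field K] [Algebra E K] {Θ : Type} [Fintype Θ] {y : Θ → K}
  (hy : ∀ θ, y θ ≠ 0) (V : ValuationSubring K)

lemma emb_mem (e : E) : emb E Θ e ∈ AT E y V ↔ e ∈ (V.comap (algebraMap E K)).toSubring :=
  (Pr_emb y e).mem_AA

include hy

/-- The existence of stages in which given monomials are comparable. -/
theorem exists_stage {C : Subring E} {ι₀ : Type} [Fintype ι₀] {x₀ : ι₀ → E}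
    (h0 : RegP (V.comap (algebraMap E K)).toSubring (lo (V.comap (algebraMap E K)).toSubring C) x₀)
    (hC : C ≤ (V.comap (algebraMap E K)).toSubring)
    {G : Set (FF E Θ)} (hG : G.Finite)
    (hGx : ∀ g ∈ G, ∃ e, PMon (lo (V.comap (algebraMap E K)).toSubring C) x₀ e ∧
      ∃ m, g = emb E Θ e * mo (Zc E) m) :
    ∃ (ι : Type) (_ : Fintype ι) (T : Set (FF E Θ)) (x : ι → FF E Θ),
      Stg (AT E y V) (C.map (emb E Θ)) (NT (Θ := Θ) h0.ne) T x ∧
      Ref (fun i => emb E Θ (x₀ i)) x ∧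
      (∀ θ, PMon (lo (AT E y V) (Subring.closure (C.map (emb E Θ) ∪ T))) x (Zc E θ)) ∧
      ∀ g ∈ G, g ∈ AT E y V → g ∈ lo (AT E y V) (Subring.closure (C.map (emb E Θ) ∪ T)) := by
  classical
  have h1 := h0.map (emb E Θ) (emb_mem (y := y) V)
  have h2 : Subring.closure ((C.map (emb E Θ) : Set (FF E Θ)) ∪ ∅) = C.map (emb E Θ) := by
    rw [Set.union_empty, Subring.closure_eq]
  have hst0 : Stg (AT E y V) (C.map (emb E Θ)) (NT (Θ := Θ) h0.ne) ∅
      (fun i => emb E Θ (x₀ i)) := by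
    refine ⟨Set.finite_empty, fun t ht => ht.elim, fun t ht => ht.elim, fun i => ?_, ?_⟩
    · exact ⟨Pi.single i 1, 0, by rw [mo_zero, mul_one, mo_single]⟩
    · rw [h2]
      exact h1
  obtain ⟨ι, _, T, x, h3, h4, -, h5⟩ := torus_stage hy V h0.ne hst0 Finset.univ
  have hS0 : C.map (emb E Θ) ≤ AT E y V := by
    rintro _ ⟨e, he, rfl⟩
    exact (emb_mem V e).2 (hC he)
  obtain ⟨T', x', h6, h7, h8, h9⟩ := cmp_all loc_AA (mo_NN hy V h0.ne) hS0 hG h3 (by
    intro g hg
    obtain ⟨e, he, m, rfl⟩ := hGx g hg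
    refine PMon.mul h3.reg.ne ?_ (PMon.mo h3.reg.ne (fun θ => h5 θ (Finset.mem_univ _)) m)
    have h10 : PMon (lo (AT E y V) (C.map (emb E Θ))) (fun i => emb E Θ (x₀ i)) (emb E Θ e) := by
      obtain ⟨u, u0, u1, u2, δ, rfl⟩ := he
      rw [lo_map (emb E Θ) (emb_mem (y := y) V)]
      refine ⟨emb E Θ u, (map_ne_zero _).2 u0, ⟨u, u1, rfl⟩, ⟨u⁻¹, u2, map_inv₀ _ _⟩, δ, ?_⟩
      rw [map_mul]
      congr 1
      unfold mo
      rw [map_prod]
      exact Finset.prod_congr rfl fun i _ => map_zpow₀ _ _ _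
    refine h10.ref h1.ne h3.reg.ne ?_ h4
    rw [← h2]
    exact lo_mono (Subring.closure_mono (by
      rw [h2]
      exact Set.union_subset_union_right _ (Set.empty_subset _))))
  refine ⟨ι, inferInstance, T', x', h7, h4.trans h8, fun θ => ?_, h9⟩
  exact (h5 θ (Finset.mem_univ _)).ref h3.reg.ne h7.reg.ne
    (lo_mono (Subring.closure_mono (Set.union_subset_union_right _ h6))) h8

end stage

section der

variable {E : Type u} [Field E] {Θ : Type} [Fintype Θ]

/-- The derivations of the torus. -/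
theorem exists_D (n : Θ → ℤ) : ∃ D : Derivation E (FF E Θ) (FF E Θ),
    ∀ θ, D (Zc E θ) = (n θ : FF E Θ) * Zc E θ := by
  obtain ⟨D, hD⟩ := Pool.Agent.W558.exists_der_L
    (IsScalarTower.toAlgHom E (MvPolynomial Θ E) (FF E Θ)) (by
      intro z
      obtain ⟨a, b, hb, rfl⟩ := IsFractionRing.div_surjective (A := MvPolynomial Θ E) z
      have hb' : algebraMap (MvPolynomial Θ E) (FF E Θ) b ≠ 0 := by
        rw [Ne, map_eq_zero_iff _ (IsFractionRing.injective (MvPolynomial Θ E) (FF E Θ))]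
        exact nonZeroDivisors.ne_zero hb
      exact ⟨a, b, hb', div_mul_cancel₀ _ hb'⟩)
    (MvPolynomial.mkDerivation E fun θ => (n θ : MvPolynomial Θ E) * MvPolynomial.X θ) (by
      intro a ha
      have h1 : a = 0 := IsFractionRing.injective (MvPolynomial Θ E) (FF E Θ) (by
        rw [map_zero]; exact ha)
      rw [h1, map_zero, map_zero])
  refine ⟨D, fun θ => ?_⟩
  have h1 := hD (MvPolynomial.X θ)
  rw [MvPolynomial.mkDerivation_X, map_mul, map_intCast] at h1
  exact h1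

/-- Eigenvectors of a derivation. -/
def Eig {F : Type u} [Field F] [Algebra E F] (D : Derivation E F F) (z : F) (c : ℤ) : Prop :=
  D z = (c : F) * z

variable {F : Type u} [Field F] [Algebra E F] {D : Derivation E F F}

lemma Eig.mul {z z' : F} {c c' : ℤ} (h : Eig D z c) (h' : Eig D z' c') :
    Eig D (z * z') (c + c') := by
  unfold Eig at *
  rw [Derivation.leibniz, h, h']
  simp only [smul_eq_mul]
  push_cast
  ring

lemma Eig.inv {z : F} {c : ℤ} (h : Eig D z c) : Eig D z⁻¹ (-c) := by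
  unfold Eig at *
  rw [Derivation.leibniz_inv, h]
  by_cases hz : z = 0
  · rw [hz]; simp
  · simp only [smul_eq_mul]
    push_cast
    field_simp

lemma Eig.one : Eig D (1 : F) 0 := by
  unfold Eig
  rw [Derivation.map_one_eq_zero]
  simp

lemma Eig.pow {z : F} {c : ℤ} (h : Eig D z c) (n : ℕ) : Eig D (z ^ n) (n * c) := by
  induction n with
  | zero => simpa using Eig.one
  | succ n ih =>
    have h1 := ih.mul h
    rw [← pow_succ] at h1
    convert h1 using 1
    push_cast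
    ring

lemma Eig.zpow {z : F} {c : ℤ} (h : Eig D z c) (n : ℤ) : Eig D (z ^ n) (n * c) := by
  rcases n with n | n
  · rw [Int.ofNat_eq_natCast, zpow_natCast]
    exact h.pow n
  · rw [zpow_negSucc]
    have h1 := (h.pow (n + 1)).inv
    convert h1 using 1
    rw [Int.negSucc_eq]
    push_cast
    ring

lemma Eig.prod {κ : Type} (s : Finset κ) {z : κ → F} {c : κ → ℤ} (h : ∀ i ∈ s, Eig D (z i) (c i)) :
    Eig D (∏ i ∈ s, z i) (∑ i ∈ s, c i) := by
  classical
  induction s using Finset.induction_on with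
  | empty => simpa using Eig.one
  | insert a s ha ih =>
    rw [Finset.prod_insert ha, Finset.sum_insert ha]
    exact (h a (Finset.mem_insert_self _ _)).mul (ih fun i hi => h i (Finset.mem_insert_of_mem hi))

lemma Eig.mo {κ : Type} [Fintype κ] {z : κ → F} {c : κ → ℤ} (h : ∀ i, Eig D (z i) (c i))
    (m : κ → ℤ) : Eig D (mo z m) (∑ i, m i * c i) :=
  Eig.prod _ fun i _ => (h i).zpow _

lemma Eig.alg (e : E) : Eig D (algebraMap E F e) 0 := by
  unfold Eig
  rw [Derivation.map_algebraMap]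
  simp

/-- Derivations of localizations. -/
lemma der_lo {A S : Subring F} (hS : ∀ z ∈ S, D z ∈ S) : ∀ z ∈ lo A S, D z ∈ lo A S := by
  rintro _ ⟨a, ha, b, hb, hb0, hbA, rfl⟩
  refine ⟨D a * b - a * D b, S.sub_mem (S.mul_mem (hS a ha) hb) (S.mul_mem ha (hS b hb)), b * b,
    S.mul_mem hb hb, mul_ne_zero hb0 hb0, ?_, ?_⟩
  · rw [mul_inv]
    exact A.mul_mem hbA hbA
  · rw [Derivation.leibniz, Derivation.leibniz_inv]
    simp only [smul_eq_mul]
    field_simp
    ring

lemma der_closure {U : Set F} (hU : ∀ u ∈ U, D u ∈ Subring.closure U) :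
    ∀ z ∈ Subring.closure U, D z ∈ Subring.closure U := by
  intro z hz
  induction hz using Subring.closure_induction with
  | mem z hz => exact hU z hz
  | zero => rw [map_zero]; exact Subring.zero_mem _
  | one => rw [Derivation.map_one_eq_zero]; exact Subring.zero_mem _
  | add a b _ _ ha hb => rw [map_add]; exact Subring.add_mem _ ha hb
  | neg a _ ha => rw [map_neg]; exact Subring.neg_mem _ ha
  | mul a b h1 h2 ha hb =>
    rw [Derivation.leibniz]
    simp only [smul_eq_mul]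
    exact Subring.add_mem _ (Subring.mul_mem _ h1 hb) (Subring.mul_mem _ h2 ha)

end der

section torus

variable {E : Type u} [Field E] {Θ : Type} [Fintype Θ] {ι₀ : Type} [Fintype ι₀] {x₀ : ι₀ → E}

lemma eig_NT {n : Θ → ℤ} {D : Derivation E (FF E Θ) (FF E Θ)}
    (hD : ∀ θ, D (Zc E θ) = (n θ : FF E Θ) * Zc E θ) (e : E) (m : Θ → ℤ) :
    Eig D (emb E Θ e * mo (Zc E) m) (∑ θ, m θ * n θ) := by
  have h1 : Eig D (emb E Θ e) 0 := by
    rw [emb_alg]
    exact Eig.alg e
  have h2 := h1.mul (Eig.mo (z := (Zc E : Θ → FF E Θ)) (c := n) (fun θ => hD θ) m)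
  rwa [zero_add] at h2

lemma mem_NT {hx₀ : ∀ i, x₀ i ≠ 0} {z : FF E Θ} (hz : z ∈ NT (Θ := Θ) hx₀) :
    ∃ (e : E) (m : Θ → ℤ), e ≠ 0 ∧ (∃ γ, e = mo x₀ γ) ∧ z = emb E Θ e * mo (Zc E) m := by
  obtain ⟨γ, m, rfl⟩ := hz
  refine ⟨mo x₀ γ, m, mo_ne_zero hx₀ _, ⟨γ, rfl⟩, ?_⟩
  congr 1
  unfold mo
  rw [map_prod]
  exact Finset.prod_congr rfl fun i _ => (map_zpow₀ _ _ _).symm

/-- The derivations preserve the stages. -/
theorem der_stage {A : Subring (FF E Θ)} {S0 : Subring E} {hx₀ : ∀ i, x₀ i ≠ 0} {n : Θ → ℤ}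
    {D : Derivation E (FF E Θ) (FF E Θ)} (hD : ∀ θ, D (Zc E θ) = (n θ : FF E Θ) * Zc E θ)
    {T : Set (FF E Θ)} (hT : ∀ t ∈ T, t ∈ NT (Θ := Θ) hx₀) :
    ∀ z ∈ lo A (Subring.closure (S0.map (emb E Θ) ∪ T)),
      D z ∈ lo A (Subring.closure (S0.map (emb E Θ) ∪ T)) := by
  apply der_lo
  apply der_closure
  rintro u (⟨e, he, rfl⟩ | hu)
  · change D (emb E Θ e) ∈ _
    rw [emb_alg, Derivation.map_algebraMap]
    exact Subring.zero_mem _
  · obtain ⟨e, m, -, -, rfl⟩ := mem_NT (hT u hu)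
    rw [eig_NT hD e m]
    exact Subring.mul_mem _ (intCast_mem _ _) (Subring.subset_closure (Or.inr hu))

end torus

end Pool.Agent.W418.LU2
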